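import Pool.Agent.HLow.Targets

set_option autoImplicit false

/-!
# ABS: the chain `y, y^2, y^4, ...`
-/

namespace Pool.Agent.HLow

private lemma ABS_step (K N B x tx tx' c E : ℝ) (hN : 0 < N) (hB : 4 ≤ B) (hK : 1 ≤ K)
    (hx : 1 ≤ x) (hc : c = (1 - 2 / B)⁻¹) (hE : 0 ≤ E)
    (h : tx ^ 2 ≤ tx' + (1 / (B * x ^ 2) + K ^ 2 / N) * (x * tx) ^ 2)
    (hY : B * x ≤ Real.sqrt (N * B) / K) (hi : tx' ≤ c * E ^ 2) : tx ≤ c * E := by
  have hB0 : 0 < B := by linarith
  have hK0 : 0 < K := by linarith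
  have hx0 : 0 < x := by linarith
  have h1 : (B * x * K) ^ 2 ≤ N * B := by
    have h2 : B * x * K ≤ Real.sqrt (N * B) := (le_div_iff₀ hK0).mp hY
    calc (B * x * K) ^ 2 ≤ Real.sqrt (N * B) ^ 2 := pow_le_pow_left₀ (by positivity) h2 2
      _ = N * B := Real.sq_sqrt (by positivity)
  have h2 : K ^ 2 / N * x ^ 2 ≤ 1 / B := by
    rw [div_mul_eq_mul_div, div_le_div_iff₀ hN hB0]
    have h3 : B * (K ^ 2 * x ^ 2 * B) ≤ B * (1 * N) := by nlinarith [h1]
    exact le_of_mul_le_mul_left h3 hB0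
  have h3 : 1 / (B * x ^ 2) * x ^ 2 = 1 / B := by
    field_simp
  have h4 : (1 / (B * x ^ 2) + K ^ 2 / N) * (x * tx) ^ 2 ≤ 2 / B * tx ^ 2 := by
    have h5 : (1 / (B * x ^ 2) + K ^ 2 / N) * (x * tx) ^ 2 =
        (1 / (B * x ^ 2) * x ^ 2 + K ^ 2 / N * x ^ 2) * tx ^ 2 := by ring
    rw [h5, h3]
    refine mul_le_mul_of_nonneg_right ?_ (sq_nonneg _)
    have : 2 / B = 1 / B + 1 / B := by ring
    linarith
  have h6 : 2 / B ≤ 1 / 2 := by
    rw [div_le_div_iff₀ hB0 (by norm_num)]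
    linarith
  have hpos : 0 < 1 - 2 / B := by linarith
  have hc0 : 0 < c := by rw [hc]; exact inv_pos.mpr hpos
  have h7 : tx ^ 2 ≤ c * tx' := by
    have h8 : (1 - 2 / B) * tx ^ 2 ≤ tx' := by nlinarith
    rw [hc, ← div_eq_inv_mul, le_div_iff₀ hpos]
    linarith
  have h9 : tx ^ 2 ≤ (c * E) ^ 2 := by
    calc tx ^ 2 ≤ c * tx' := h7
      _ ≤ c * (c * E ^ 2) := mul_le_mul_of_nonneg_left hi hc0.le
      _ = (c * E) ^ 2 := by ring
  exact (abs_le_of_sq_le_sq' h9 (by positivity)).2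

theorem p_ABS : T_ABS := by
  intro t K N B η hK hN hB hη hb h hKY
  have hB0 : 0 < B := by linarith
  have hK0 : 0 < K := by linarith
  have h6 : 2 / B ≤ 1 / 2 := by
    rw [div_le_div_iff₀ hB0 (by norm_num)]
    linarith
  have h60 : 0 ≤ 2 / B := by positivity
  have hc1 : 1 ≤ (1 - 2 / B)⁻¹ := (one_le_inv₀ (by linarith)).mpr (by linarith)
  have hbase : ∀ x, 1 ≤ x → Real.sqrt (N * B) / K < B * x → t x ≤ (1 - 2 / B)⁻¹ * (B * x) ^ η := by
    intro x hx hlt
    have h1 : (Real.sqrt (N * B) / K) ^ η ≤ (B * x) ^ η :=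
      Real.rpow_le_rpow (by positivity) hlt.le hη.le
    have h2 : 0 ≤ (B * x) ^ η := Real.rpow_nonneg (by positivity) _
    calc t x ≤ K := (hb x hx).2
      _ ≤ (B * x) ^ η := hKY.trans h1
      _ ≤ (1 - 2 / B)⁻¹ * (B * x) ^ η := le_mul_of_one_le_left h2 hc1
  have key : ∀ j : ℕ, ∀ x, 1 ≤ x → Real.sqrt (N * B) / K < (B * x) ^ (2 ^ j) →
      t x ≤ (1 - 2 / B)⁻¹ * (B * x) ^ η := by
    intro j
    induction j with
    | zero =>
      intro x hx hlt
      exact hbase x hx (by simpa using hlt)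
    | succ j ih =>
      intro x hx hlt
      rcases lt_or_ge (Real.sqrt (N * B) / K) (B * x) with hc | hc
      · exact hbase x hx hc
      · have hx' : 1 ≤ B * x ^ 2 := by nlinarith
        have hpow : (B * (B * x ^ 2)) ^ (2 ^ j) = (B * x) ^ (2 ^ (j + 1)) := by
          have h3 : B * (B * x ^ 2) = (B * x) ^ 2 := by ring
          rw [h3, ← pow_mul]
          congr 1
          ring
        have h1 := ih (B * x ^ 2) hx' (by rw [hpow]; exact hlt)
        have h2 : (B * (B * x ^ 2)) ^ η = ((B * x) ^ η) ^ 2 := by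
          have h3 : B * (B * x ^ 2) = (B * x) * (B * x) := by ring
          rw [h3, Real.mul_rpow (by positivity) (by positivity), sq]
        rw [h2] at h1
        exact ABS_step K N B x (t x) (t (B * x ^ 2)) _ _ hN hB hK hx rfl
          (Real.rpow_nonneg (by positivity) _) (h x (B * x ^ 2) hx hx') hc h1
  intro x hx
  have hBx : 1 < B * x := by nlinarith
  obtain ⟨n, hn⟩ := pow_unbounded_of_one_lt (Real.sqrt (N * B) / K) hBx
  refine key n x hx (lt_of_lt_of_le hn ?_)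
  exact pow_le_pow_right₀ hBx.le (Nat.lt_two_pow_self).le

end Pool.Agent.HLow
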