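import Pool.Agent.HLow.Targets

/-!
# HLO-ABT: real analysis, the tail
-/

set_option autoImplicit false

namespace Pool.Agent.HLow

theorem ABT_quarter (x : ℝ) (hx : 0 ≤ x) : (x ^ 2) ^ (1 / 4 : ℝ) = Real.sqrt x := by
  rw [Real.sqrt_eq_rpow, ← Real.rpow_natCast, ← Real.rpow_mul hx]
  norm_num

theorem p_ABT : T_ABT := by
  intro t tl K C hC hK h1 h2 h3
  have key : ∀ j : ℕ, ∀ x : ℝ, 4 ≤ x → tl x ≤ 2 * C / Real.sqrt x + K / x ^ (2 ^ j) := by
    intro j
    induction j with
    | zero =>
      intro x hx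
      have h4 := h3 x (by linarith)
      have h5 : 0 ≤ 2 * C / Real.sqrt x := by positivity
      rw [pow_zero, pow_one]
      linarith
    | succ j ih =>
      intro x hx
      have hx0 : 0 < x := by linarith
      have hs : 0 < Real.sqrt x := Real.sqrt_pos.2 hx0
      have hss : Real.sqrt x * Real.sqrt x = x := Real.mul_self_sqrt hx0.le
      have hs2 : 2 ≤ Real.sqrt x := by
        rw [show (2 : ℝ) = Real.sqrt 4 by
          rw [show (4 : ℝ) = 2 ^ 2 by norm_num, Real.sqrt_sq (by norm_num)]]
        exact Real.sqrt_le_sqrt hx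
      have hx2 : (4 : ℝ) ≤ x ^ 2 := by nlinarith
      have h4 := h2 x (by linarith)
      have h5 := h1 (x ^ 2) (by linarith)
      rw [ABT_quarter x hx0.le] at h5
      have h6 := ih (x ^ 2) hx2
      rw [Real.sqrt_sq hx0.le, ← pow_mul, ← pow_succ'] at h6
      have h7 : t (x ^ 2) / x ≤ C / Real.sqrt x := by
        rw [div_le_div_iff₀ hx0 hs]
        calc t (x ^ 2) * Real.sqrt x ≤ C * Real.sqrt x * Real.sqrt x :=
              mul_le_mul_of_nonneg_right h5 hs.le
          _ = C * x := by rw [mul_assoc, hss]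
      have h8 : 2 * C / x ≤ C / Real.sqrt x := by
        rw [div_le_div_iff₀ hx0 hs]
        calc 2 * C * Real.sqrt x = C * (2 * Real.sqrt x) := by ring
          _ ≤ C * (Real.sqrt x * Real.sqrt x) :=
              mul_le_mul_of_nonneg_left (mul_le_mul_of_nonneg_right hs2 hs.le) hC
          _ = C * x := by rw [hss]
      have h9 : 2 * C / Real.sqrt x = C / Real.sqrt x + C / Real.sqrt x := by ring
      linarith
  intro x hx
  have hlim : Filter.Tendsto (fun j : ℕ => 2 * C / Real.sqrt x + K / x ^ (2 ^ j)) Filter.atTop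
      (nhds (2 * C / Real.sqrt x + 0)) := by
    refine Filter.Tendsto.const_add _ ?_
    refine Filter.Tendsto.div_atTop tendsto_const_nhds ?_
    exact (tendsto_pow_atTop_atTop_of_one_lt (by linarith : (1 : ℝ) < x)).comp
      (tendsto_pow_atTop_atTop_of_one_lt (by norm_num : 1 < 2))
  rw [add_zero] at hlim
  exact ge_of_tendsto hlim (Filter.Eventually.of_forall fun j => key j x hx)

end Pool.Agent.HLow
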