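import Pool.Agent.HLow.Targets

set_option autoImplicit false

namespace Pool.Agent.HLow

open Finset

/-- elementary bounds of sums of eigenvalues -/
theorem p_BD : T_BD := by
  intro V _ _ lam K hK hlow hsum
  have hP : ∑ i, max (lam i) 0 ≤ K * (Fintype.card V : ℝ) := by
    have h1 : ∀ i, max (lam i) 0 = lam i + max (-lam i) 0 := by
      intro i
      rcases le_total (lam i) 0 with h | h
      · rw [max_eq_right h, max_eq_left (by linarith)]; ring
      · rw [max_eq_left h, max_eq_right (by linarith)]; ring
    rw [sum_congr rfl fun i _ => h1 i, sum_add_distrib, hsum, zero_add]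
    calc ∑ i, max (-lam i) 0 ≤ ∑ _i : V, K :=
          sum_le_sum fun i _ => max_le (by linarith [hlow i]) hK
      _ = _ := by simp [mul_comm]
  refine ⟨fun τ hτ => ⟨?_, ?_⟩, fun τ hτ => ⟨?_, ?_⟩, fun τ hτ => ⟨?_, ?_⟩,
    fun τ τ' hτ' hττ => ?_, ?_⟩
  · unfold TT
    refine sum_nonneg fun i _ => ?_
    split_ifs with h
    · linarith
    · exact le_refl _
  · unfold TT
    refine (sum_le_sum fun i _ => ?_).trans hP
    split_ifs with h
    · exact le_max_left _ _
    · exact le_max_right _ _
  · unfold RR
    refine sum_nonneg fun i _ => ?_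
    split_ifs <;> norm_num
  · unfold RR TT
    rw [mul_sum]
    refine sum_le_sum fun i _ => ?_
    split_ifs with h
    · linarith
    · simp
  · unfold TL
    refine sum_nonneg fun i _ => ?_
    split_ifs
    · exact sq_nonneg _
    · exact le_refl _
  · unfold TL
    have h1 : ∑ i, (if 0 < lam i ∧ lam i < τ then lam i ^ 2 else 0) ≤
        ∑ i, τ * max (lam i) 0 := by
      refine sum_le_sum fun i _ => ?_
      split_ifs with h
      · rw [max_eq_left h.1.le]
        nlinarith [h.1, h.2]
      · exact mul_nonneg hτ.le (le_max_right _ _)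
    rw [← mul_sum] at h1
    exact h1.trans (mul_le_mul_of_nonneg_left hP hτ.le)
  · unfold TL TT
    rw [mul_sum, ← sum_add_distrib]
    refine sum_le_sum fun i _ => ?_
    by_cases h1 : 0 < lam i ∧ lam i < τ
    · rw [if_pos h1]
      by_cases h2 : τ' ≤ lam i
      · rw [if_pos h2, if_neg (by intro h3; linarith [h3.2])]
        nlinarith [h1.1, h1.2]
      · rw [if_neg h2, if_pos ⟨h1.1, not_le.1 h2⟩]
        linarith
    · rw [if_neg h1]
      have h3 : 0 ≤ τ * (if τ' ≤ lam i then lam i else 0) := by
        refine mul_nonneg (by linarith) ?_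
        split_ifs with h
        · linarith
        · exact le_refl _
      have h4 : 0 ≤ (if 0 < lam i ∧ lam i < τ' then lam i ^ 2 else 0) := by
        split_ifs
        · exact sq_nonneg _
        · exact le_refl _
      linarith
  · calc ∑ i, (if lam i < 0 then lam i ^ 2 else 0) ≤ ∑ _i : V, K ^ 2 := by
          refine sum_le_sum fun i _ => ?_
          split_ifs with h
          · nlinarith [hlow i]
          · exact sq_nonneg _
      _ = _ := by simp [mul_comm]

end Pool.Agent.HLow
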