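import Mathlib
import Pool.Agent.Dicut.Lower3

set_option autoImplicit false

namespace Pool.Agent.HLow

open Finset

variable {V : Type} [Fintype V] [DecidableEq V]

/-- adjacency matrices of simple graphs -/
structure Adj (A : V → V → ℝ) : Prop where
  zo : ∀ u v, A u v = 0 ∨ A u v = 1
  sym : ∀ u v, A u v = A v u
  dg : ∀ u, A u u = 0

/-- `A + K I` is positive semidefinite -/
def Low (A : V → V → ℝ) (K : ℝ) : Prop :=
  ∀ x : V → ℝ, -(K * ∑ u, x u ^ 2) ≤ ∑ u, ∑ v, A u v * (x u * x v)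

/-- sum of the entries in a block -/
noncomputable def ee (A : V → V → ℝ) (S T : Finset V) : ℝ := ∑ u ∈ S, ∑ v ∈ T, A u v

/-- neighbourhoods -/
noncomputable def nb (A : V → V → ℝ) (u : V) : Finset V := univ.filter (fun v => A u v ≠ 0)

/-- cliques -/
def Clq (A : V → V → ℝ) (Q : Finset V) : Prop := ∀ u ∈ Q, ∀ v ∈ Q, u ≠ v → A u v = 1

/-- spectral decomposition (`v i` is the eigenvector of the eigenvalue `lam i`) -/
structure Spec (A : V → V → ℝ) (K : ℝ) (lam : V → ℝ) (v : V → V → ℝ) : Prop where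
  row : ∀ i j, ∑ u, v i u * v j u = if i = j then 1 else 0
  col : ∀ u w, ∑ i, v i u * v i w = if u = w then 1 else 0
  dec : ∀ u w, A u w = ∑ i, lam i * (v i u * v i w)
  low : ∀ i, -K ≤ lam i

/-- sum of the eigenvalues at least `τ` -/
noncomputable def TT (lam : V → ℝ) (τ : ℝ) : ℝ := ∑ i, if τ ≤ lam i then lam i else 0

/-- number of the eigenvalues at least `τ` -/
noncomputable def RR (lam : V → ℝ) (τ : ℝ) : ℝ := ∑ i, if τ ≤ lam i then 1 else 0

/-- sum of the squares of the eigenvalues between `0` and `τ` -/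
noncomputable def TL (lam : V → ℝ) (τ : ℝ) : ℝ :=
  ∑ i, if 0 < lam i ∧ lam i < τ then lam i ^ 2 else 0

/-- closure of a (big) clique: the vertices with at most `3 K ^ 2` non-neighbours in `C` -/
noncomputable def clo (A : V → V → ℝ) (K : ℝ) (C : Finset V) : Finset V :=
  univ.filter (fun w => ((C.filter (fun z => A w z = 0)).card : ℝ) ≤ 3 * K ^ 2)

/-- branch vertices: degree at least `d1`, and the neighbourhood misses a proportion `ε` of
its ordered pairs -/
noncomputable def Br (A : V → V → ℝ) (ε d1 : ℝ) : Finset V :=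
  univ.filter (fun u => d1 ≤ ((nb A u).card : ℝ) ∧
    ee A (nb A u) (nb A u) ≤ (1 - ε) * ((nb A u).card : ℝ) ^ 2)

/-- digraphs (0/1 matrix `a`) with a topological numbering -/
structure Dg (a : V → V → ℝ) (pos : V → ℕ) : Prop where
  zo : ∀ u v, a u v = 0 ∨ a u v = 1
  lt : ∀ u v, a u v ≠ 0 → pos u < pos v
  inj : Function.Injective pos

/-- underlying graph -/
def sy (a : V → V → ℝ) : V → V → ℝ := fun u v => a u v + a v u

/-- out-degree -/
def dp (a : V → V → ℝ) (u : V) : ℝ := ∑ v, a u v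

/-- in-degree -/
def dm (a : V → V → ℝ) (u : V) : ℝ := ∑ v, a v u

lemma Adj.nonneg {A : V → V → ℝ} (h : Adj A) (u v : V) : 0 ≤ A u v := by
  rcases h.zo u v with e | e <;> rw [e] <;> norm_num

lemma Adj.le_one {A : V → V → ℝ} (h : Adj A) (u v : V) : A u v ≤ 1 := by
  rcases h.zo u v with e | e <;> rw [e] <;> norm_num

lemma Adj.sq {A : V → V → ℝ} (h : Adj A) (u v : V) : A u v * A u v = A u v := by
  rcases h.zo u v with e | e <;> rw [e] <;> norm_num

lemma mem_nb {A : V → V → ℝ} {u v : V} : v ∈ nb A u ↔ A u v ≠ 0 := by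
  unfold nb; simp

lemma Adj.eq_one {A : V → V → ℝ} (h : Adj A) {u v : V} (hv : v ∈ nb A u) : A u v = 1 := by
  rcases h.zo u v with e | e
  · exact absurd e (mem_nb.mp hv)
  · exact e

lemma Adj.deg {A : V → V → ℝ} (h : Adj A) (u : V) : ∑ v, A u v = ((nb A u).card : ℝ) := by
  have h1 : ∀ v, A u v = if v ∈ nb A u then 1 else 0 := by
    intro v
    by_cases hv : v ∈ nb A u
    · rw [if_pos hv, h.eq_one hv]
    · rw [if_neg hv]; rw [mem_nb] at hv; push Not at hv; exact hv
  rw [sum_congr rfl (fun v _ => h1 v)]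
  simp

lemma ee_nonneg {A : V → V → ℝ} (h : Adj A) (S T : Finset V) : 0 ≤ ee A S T :=
  sum_nonneg (fun u _ => sum_nonneg (fun v _ => h.nonneg u v))

lemma ee_le {A : V → V → ℝ} (h : Adj A) (S T : Finset V) :
    ee A S T ≤ (S.card : ℝ) * (T.card : ℝ) := by
  unfold ee
  calc ∑ u ∈ S, ∑ v ∈ T, A u v ≤ ∑ u ∈ S, ∑ v ∈ T, (1 : ℝ) :=
        sum_le_sum (fun u _ => sum_le_sum (fun v _ => h.le_one u v))
    _ = _ := by simp

lemma Dg.nonneg {a : V → V → ℝ} {pos : V → ℕ} (h : Dg a pos) (u v : V) : 0 ≤ a u v := by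
  rcases h.zo u v with e | e <;> rw [e] <;> norm_num

lemma Dg.loop {a : V → V → ℝ} {pos : V → ℕ} (h : Dg a pos) (u : V) : a u u = 0 := by
  by_contra hne
  exact absurd (h.lt u u hne) (lt_irrefl _)

lemma Dg.anti {a : V → V → ℝ} {pos : V → ℕ} (h : Dg a pos) (u v : V) (huv : a u v ≠ 0) :
    a v u = 0 := by
  by_contra hne
  have h1 := h.lt u v huv
  have h2 := h.lt v u hne
  omega

lemma Dg.adj {a : V → V → ℝ} {pos : V → ℕ} (h : Dg a pos) : Adj (sy a) where
  zo := by
    intro u v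
    unfold sy
    by_cases h1 : a u v = 0
    · rcases h.zo v u with e | e
      · left; rw [h1, e]; norm_num
      · right; rw [h1, e]; norm_num
    · right
      rw [h.anti u v h1, (h.zo u v).resolve_left h1]; norm_num
  sym := by intro u v; unfold sy; ring
  dg := by intro u; unfold sy; rw [h.loop]; norm_num

lemma sy_deg (a : V → V → ℝ) (u : V) : ∑ v, sy a u v = dp a u + dm a u := by
  unfold sy dp dm; rw [sum_add_distrib]

end Pool.Agent.HLow
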