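import Mathlib
import Pool.Agent.HLow.Defs

set_option autoImplicit false

namespace Pool.Agent.HLow

open Finset

/-! ### Part I: big cliques in graphs whose least eigenvalue is at least `-K` -/

def T_SPEC : Prop := ∀ (V : Type) [Fintype V] [DecidableEq V] (A : V → V → ℝ) (K : ℝ),
  (∀ u v, A u v = A v u) → Low A K → ∃ (lam : V → ℝ) (v : V → V → ℝ), Spec A K lam v

def T_TR : Prop := ∀ (V : Type) [Fintype V] [DecidableEq V] (A : V → V → ℝ) (K : ℝ)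
  (lam : V → ℝ) (v : V → V → ℝ), Adj A → Spec A K lam v →
  (∑ i, lam i = 0) ∧ (∑ i, lam i ^ 2 = ee A univ univ) ∧
    (∑ i, lam i ^ 3 = ∑ u, ee A (nb A u) (nb A u))

def T_BD : Prop := ∀ (V : Type) [Fintype V] [DecidableEq V] (lam : V → ℝ) (K : ℝ),
  0 ≤ K → (∀ i, -K ≤ lam i) → ∑ i, lam i = 0 →
  (∀ τ, 0 < τ → 0 ≤ TT lam τ ∧ TT lam τ ≤ K * (Fintype.card V : ℝ)) ∧
  (∀ τ, 0 < τ → 0 ≤ RR lam τ ∧ τ * RR lam τ ≤ TT lam τ) ∧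
  (∀ τ, 0 < τ → 0 ≤ TL lam τ ∧ TL lam τ ≤ τ * (K * (Fintype.card V : ℝ))) ∧
  (∀ τ τ', 0 < τ' → τ' ≤ τ → TL lam τ ≤ τ * TT lam τ' + TL lam τ') ∧
  (∑ i, (if lam i < 0 then lam i ^ 2 else 0) ≤ K ^ 2 * (Fintype.card V : ℝ))

/-- an orthonormal basis of the span of a finite family -/
def T_ONB : Prop := ∀ (V : Type) [Fintype V] [DecidableEq V] (ι : Type) [Fintype ι]
  (g : ι → V → ℝ), ∃ (r : ℕ) (f : Fin r → V → ℝ), r ≤ Fintype.card ι ∧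
  (∀ k, ∑ u, f k u ^ 2 = 1) ∧
  (∀ i, ∑ k, (∑ u, f k u * g i u) ^ 2 = ∑ u, g i u ^ 2) ∧
  (∀ x : V → ℝ, ∑ k, (∑ u, f k u * x u) ^ 2 ≤ ∑ u, x u ^ 2)

/-- the key inequality -/
def T_KEY : Prop := ∀ (V : Type) [Fintype V] [DecidableEq V] (A : V → V → ℝ) (K : ℝ)
  (lam : V → ℝ) (v : V → V → ℝ), Adj A → Spec A K lam v → 0 ≤ K →
  ∀ τ τ', 0 < τ → 0 ≤ τ' →
    TT lam τ ^ 2 ≤ (Fintype.card V : ℝ) * (TT lam τ' + (τ' + K ^ 2) * RR lam τ ^ 2)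

/-- the chain `y, y^2, y^4, ...` -/
def T_ABS : Prop := ∀ (t : ℝ → ℝ) (K N B η : ℝ), 1 ≤ K → 0 < N → 4 ≤ B → 0 < η →
  (∀ x, 1 ≤ x → 0 ≤ t x ∧ t x ≤ K) →
  (∀ x x', 1 ≤ x → 1 ≤ x' → t x ^ 2 ≤ t x' + (1 / x' + K ^ 2 / N) * (x * t x) ^ 2) →
  K ≤ (Real.sqrt (N * B) / K) ^ η →
  ∀ x, 1 ≤ x → t x ≤ (1 - 2 / B)⁻¹ * (B * x) ^ η

def T_ABT : Prop := ∀ (t tl : ℝ → ℝ) (K C : ℝ), 0 ≤ C → 0 ≤ K →
  (∀ x, 1 ≤ x → t x ≤ C * x ^ (1 / 4 : ℝ)) →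
  (∀ x, 1 ≤ x → tl x ≤ t (x ^ 2) / x + tl (x ^ 2)) →
  (∀ x, 1 ≤ x → tl x ≤ K / x) →
  ∀ x, 4 ≤ x → tl x ≤ 2 * C / Real.sqrt x

/-- `K` is a small power of `N` -/
def T_POW : Prop := ∀ η : ℝ, 0 < η → ∃ L : ℕ, 1 ≤ L ∧ ∀ K N B : ℝ, 1 ≤ K → 1 ≤ B →
  ((L : ℝ) * K) ^ L ≤ N → K ≤ (Real.sqrt (N * B) / K) ^ η

/-- bounds of the sums of eigenvalues -/
def T_TX : Prop := ∀ (V : Type) [Fintype V] [DecidableEq V] (A : V → V → ℝ) (K B η : ℝ)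
  (lam : V → ℝ) (v : V → V → ℝ), Adj A → Spec A K lam v → 1 ≤ K →
  1 ≤ Fintype.card V → 4 ≤ B → 0 < η → η ≤ 1 / 4 →
  K ≤ (Real.sqrt ((Fintype.card V : ℝ) * B) / K) ^ η →
  (∀ x, 1 ≤ x → TT lam ((Fintype.card V : ℝ) / x)
      ≤ (Fintype.card V : ℝ) * ((1 - 2 / B)⁻¹ * (B * x) ^ η)) ∧
  (∀ x, 4 ≤ x → TL lam ((Fintype.card V : ℝ) / x)
      ≤ (Fintype.card V : ℝ) ^ 2 * (2 * ((1 - 2 / B)⁻¹ * B ^ η) / Real.sqrt x))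

def T_YL : Prop := ∀ (V : Type) [Fintype V] [DecidableEq V] (lam : V → ℝ) (K τ : ℝ),
  0 ≤ K → 0 < τ → (∀ i, -K ≤ lam i) →
  TL lam τ + K ^ 2 * (Fintype.card V : ℝ) ≤ ∑ i, lam i ^ 2 →
  (∑ i, lam i ^ 2 - TL lam τ - K ^ 2 * (Fintype.card V : ℝ)) ^ 2
    ≤ (∑ i, lam i ^ 3 + K ^ 3 * (Fintype.card V : ℝ)) * TT lam τ

def T_XU : Prop := ∀ (V : Type) [Fintype V] [DecidableEq V] (A : V → V → ℝ) (K : ℝ),
  Adj A → Low A K → 0 ≤ K →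
  (∑ u, ((nb A u).card : ℝ) ^ 2) ^ 2
    ≤ (ee A univ univ + K * (Fintype.card V : ℝ)) * (Fintype.card V : ℝ)
      * (∑ u, ee A (nb A u) (nb A u) + K * ee A univ univ)

def T_FU : Prop := ∀ (V : Type) [Fintype V] [DecidableEq V] (A : V → V → ℝ) (q ξ : ℝ),
  Adj A → 0 ≤ q → 0 ≤ ξ →
  q * ∑ u, ((nb A u).card : ℝ) ^ 2 + ξ ^ 2 * (Fintype.card V : ℝ) ^ 3
    < ∑ u, ee A (nb A u) (nb A u) →
  ∃ u, ξ * (Fintype.card V : ℝ) ≤ ((nb A u).card : ℝ) ∧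
    q * ((nb A u).card : ℝ) ^ 2 < ee A (nb A u) (nb A u)

/-- numerical part of the first density increment (`p = r ^ 4` is the density) -/
def T_INC1N : Prop := ∀ r K N Y X tt tl : ℝ, 0 < r → r ≤ 1 / 1024 → 1 ≤ K → 1 ≤ N →
  1000 * K ^ 3 ≤ r ^ 10 * N → 0 ≤ X → 0 ≤ Y → 0 ≤ tt → tt ≤ N * (14 / r ^ 2) →
  tl ≤ N ^ 2 * (r ^ 4 / 4) →
  (tl + K ^ 2 * N ≤ r ^ 4 * N ^ 2 →
    (r ^ 4 * N ^ 2 - tl - K ^ 2 * N) ^ 2 ≤ (Y + K ^ 3 * N) * tt) →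
  X ^ 2 ≤ (r ^ 4 * N ^ 2 + K * N) * N * (Y + K * (r ^ 4 * N ^ 2)) →
  r ^ 3 / 32 * X + (r ^ 5 / 12) ^ 2 * N ^ 3 < Y

/-- numerical part of the second density increment (`p` is the density) -/
def T_INC2N : Prop := ∀ p K N Y X tt tl : ℝ, 0 < p → p ≤ 1 - 1 / 400 → 1 ≤ K → 1 ≤ N →
  100000 * K ^ 3 ≤ p ^ 2 * N → 0 ≤ X → 0 ≤ Y → 0 ≤ tt → tt ≤ N * (1 + 1 / 40000) →
  tl ≤ N ^ 2 * (p / 40000) →
  (tl + K ^ 2 * N ≤ p * N ^ 2 →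
    (p * N ^ 2 - tl - K ^ 2 * N) ^ 2 ≤ (Y + K ^ 3 * N) * tt) →
  X ^ 2 ≤ (p * N ^ 2 + K * N) * N * (Y + K * (p * N ^ 2)) →
  (1 + 1 / 1600) * p * X + (p / 250) ^ 2 * N ^ 3 < Y

/-- first density increment -/
def T_INC1 : Prop := ∃ L : ℕ, 1 ≤ L ∧ ∀ (V : Type) [Fintype V] [DecidableEq V]
  (A : V → V → ℝ) (K r : ℝ), Adj A → Low A K → 1 ≤ K →
  ((L : ℝ) * K) ^ L ≤ (Fintype.card V : ℝ) → 0 < r → r ≤ 1 / 1024 → 1 ≤ 4 * K * r ^ 4 →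
  ee A univ univ = r ^ 4 * (Fintype.card V : ℝ) ^ 2 →
  ∃ u, r ^ 5 / 12 * (Fintype.card V : ℝ) ≤ ((nb A u).card : ℝ) ∧
    r ^ 3 / 32 * ((nb A u).card : ℝ) ^ 2 ≤ ee A (nb A u) (nb A u)

/-- second density increment -/
def T_INC2 : Prop := ∃ L : ℕ, 1 ≤ L ∧ ∀ (V : Type) [Fintype V] [DecidableEq V]
  (A : V → V → ℝ) (K p : ℝ), Adj A → Low A K → 1 ≤ K →
  ((L : ℝ) * K) ^ L ≤ (Fintype.card V : ℝ) → 1 / 2 ^ 40 ≤ p → p ≤ 1 - 1 / 400 →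
  ee A univ univ = p * (Fintype.card V : ℝ) ^ 2 →
  ∃ u, p / 250 * (Fintype.card V : ℝ) ≤ ((nb A u).card : ℝ) ∧
    (1 + 1 / 1600) * p * ((nb A u).card : ℝ) ^ 2 ≤ ee A (nb A u) (nb A u)

/-- the Schur product theorem for the cube, tested with the all ones vector -/
def T_CUBE : Prop := ∀ (V : Type) [Fintype V] [DecidableEq V] (B : V → V → ℝ),
  (∀ u v, B u v = B v u) → Low B 0 → 0 ≤ ∑ u, ∑ v, B u v ^ 3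

/-- few non-adjacent pairs, if every vertex has few non-neighbours -/
def T_DNA : Prop := ∀ (V : Type) [Fintype V] [DecidableEq V] (A : V → V → ℝ) (K : ℝ),
  Adj A → Low A K → 1 ≤ K → 100 * K ≤ (Fintype.card V : ℝ) →
  (∀ u, (Fintype.card V : ℝ) - ((nb A u).card : ℝ) ≤ (Fintype.card V : ℝ) / 19) →
  (Fintype.card V : ℝ) ^ 2 - ee A univ univ ≤ 5 * K ^ 3 * (Fintype.card V : ℝ)

/-- few non-adjacent pairs give a big clique -/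
def T_DNB : Prop := ∀ (V : Type) [Fintype V] [DecidableEq V] (A : V → V → ℝ) (K : ℝ),
  Adj A → 1 ≤ K →
  (Fintype.card V : ℝ) ^ 2 - ee A univ univ ≤ 5 * K ^ 3 * (Fintype.card V : ℝ) →
  ∃ Q, Clq A Q ∧ (Fintype.card V : ℝ) ≤ 20 * K ^ 3 * (Q.card : ℝ)

def T_DENSE : Prop := ∀ (V : Type) [Fintype V] [DecidableEq V] (A : V → V → ℝ) (K : ℝ),
  Adj A → Low A K → 1 ≤ K → 1000 * K ^ 3 ≤ (Fintype.card V : ℝ) →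
  (1 - 1 / 400) * (Fintype.card V : ℝ) ^ 2 ≤ ee A univ univ →
  ∃ Q, Clq A Q ∧ (Fintype.card V : ℝ) ≤ 24 * K ^ 3 * (Q.card : ℝ)

/-- one step: more density (in the sense of the potential `p ^ M * N`), or a big clique -/
def T_STEP : Prop := ∃ L M : ℕ, 1 ≤ L ∧ 1 ≤ M ∧ ∀ (V : Type) [Fintype V] [DecidableEq V]
  (A : V → V → ℝ) (K : ℝ), Adj A → Low A K → 1 ≤ K →
  ((L : ℝ) * K) ^ L ≤ (Fintype.card V : ℝ) →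
  (Fintype.card V : ℝ) ^ 2 ≤ 4 * K * ee A univ univ →
  (∃ T : Finset V, T.Nonempty ∧
    (ee A univ univ / (Fintype.card V : ℝ) ^ 2) ^ M * (Fintype.card V : ℝ)
      < (ee A T T / (T.card : ℝ) ^ 2) ^ M * (T.card : ℝ)) ∨
  (∃ Q, Clq A Q ∧ (Fintype.card V : ℝ) ≤ 24 * K ^ 3 * (Q.card : ℝ))

/-- dense big sets contain big cliques -/
def T_CLQ : Prop := ∃ C : ℕ, 1 ≤ C ∧ ∀ (V : Type) [Fintype V] [DecidableEq V]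
  (A : V → V → ℝ) (K : ℝ), Adj A → Low A K → 1 ≤ K → ∀ W : Finset V,
  ((C : ℝ) * K) ^ C ≤ (W.card : ℝ) → (W.card : ℝ) ^ 2 ≤ 4 * K * ee A W W →
  ∃ Q ⊆ W, Clq A Q ∧ (W.card : ℝ) ≤ ((C : ℝ) * K) ^ C * (Q.card : ℝ)

/-! ### Part II: clusters -/

def T_STAR : Prop := ∀ (V : Type) [Fintype V] [DecidableEq V] (A : V → V → ℝ) (K : ℝ),
  Adj A → Low A K → 1 ≤ K → ∀ (u : V) (W : Finset V), W ⊆ nb A u →
  2 * K ^ 2 ≤ (W.card : ℝ) → (W.card : ℝ) ^ 2 ≤ 2 * K * ee A W W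

def T_DICH : Prop := ∀ (V : Type) [Fintype V] [DecidableEq V] (A : V → V → ℝ) (K : ℝ),
  Adj A → Low A K → 1 ≤ K → ∀ (C : Finset V) (w : V), Clq A C → w ∉ C →
  ((C.filter (fun z => A w z ≠ 0)).card : ℝ) ≤ 2 * K ^ 2 ∨
    ((C.filter (fun z => A w z = 0)).card : ℝ) ≤ 2 * K ^ 2

def T_CLOS : Prop := ∀ (V : Type) [Fintype V] [DecidableEq V] (A : V → V → ℝ) (K : ℝ),
  Adj A → Low A K → 1 ≤ K → ∀ C : Finset V, Clq A C → 1000 * K ^ 4 ≤ (C.card : ℝ) →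
  ∀ w ∈ clo A K C,
    (((clo A K C).filter (fun z => z ≠ w ∧ A w z = 0)).card : ℝ) ≤ 5 * K ^ 2

def T_MERGE : Prop := ∀ (V : Type) [Fintype V] [DecidableEq V] (A : V → V → ℝ) (K : ℝ),
  Adj A → Low A K → 1 ≤ K → ∀ C C' : Finset V, Clq A C → Clq A C' →
  1000 * K ^ 4 ≤ (C.card : ℝ) → 1000 * K ^ 4 ≤ (C'.card : ℝ) →
  12 * K ^ 2 ≤ ((clo A K C ∩ clo A K C').card : ℝ) → clo A K C' ⊆ clo A K C

/-- families of big sets with small intersections -/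
def T_CNT : Prop := ∀ (V : Type) [Fintype V] [DecidableEq V] (F : Finset (Finset V)) (s κ : ℝ),
  0 ≤ s → 0 ≤ κ → (∀ X ∈ F, s ≤ (X.card : ℝ)) →
  (∀ X ∈ F, ∀ Y ∈ F, X ≠ Y → ((X ∩ Y).card : ℝ) ≤ κ) →
  2 * κ * (Fintype.card V : ℝ) < s ^ 2 → (F.card : ℝ) * s ≤ 2 * (Fintype.card V : ℝ)

/-- branch vertices lie in two closures -/
def T_BR : Prop := ∀ (V : Type) [Fintype V] [DecidableEq V] (A : V → V → ℝ)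
  (K d0 d1 s ε : ℝ), Adj A → Low A K → 1 ≤ K → 0 ≤ d0 → 0 < ε →
  (∀ (u : V) (W : Finset V), W ⊆ nb A u → d0 ≤ (W.card : ℝ) →
    ∃ Q ⊆ W, Clq A Q ∧ s ≤ (Q.card : ℝ)) →
  1000 * K ^ 4 ≤ s → 24 * K ^ 2 * (Fintype.card V : ℝ) < s ^ 2 → d0 ≤ d1 →
  2 * d0 + 5 * K ^ 2 + 1 < ε * d1 →
  ((Br A ε d1).card : ℝ) * s ^ 2 ≤ 48 * K ^ 2 * (Fintype.card V : ℝ) ^ 2

/-! ### Part III: ordered graphs -/

/-- a good arc `u → v` in the last half of the arcs from the balanced vertex `u` ends at an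
unbalanced vertex -/
def T_COREA : Prop := ∀ (V : Type) [Fintype V] [DecidableEq V] (a : V → V → ℝ) (pos : V → ℕ),
  Dg a pos → ∀ u v : V, a u v ≠ 0 → |dp a u - dm a u| ≤ (dp a u + dm a u) / 20 →
  dp a u ≤ 2 * ((univ.filter (fun z => a u z ≠ 0 ∧ pos z < pos v)).card : ℝ) + 1 →
  (1 - 1 / 1000) * (dp a u + dm a u) ≤ ((nb (sy a) u ∩ nb (sy a) v).card : ℝ) →
  (1 - 1 / 1000) * (dp a v + dm a v) ≤ ((nb (sy a) u ∩ nb (sy a) v).card : ℝ) →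
  (dp a v + dm a v) / 20 < |dp a v - dm a v|

/-- a tight vertex has few neighbours with small codegree -/
def T_COREB : Prop := ∀ (V : Type) [Fintype V] [DecidableEq V] (A : V → V → ℝ), Adj A →
  ∀ u : V, (1 - 1 / 10 ^ 6) * ((nb A u).card : ℝ) ^ 2 ≤ ee A (nb A u) (nb A u) →
  (((nb A u).filter (fun v => ((nb A u ∩ nb A v).card : ℝ)
      < (1 - 1 / 1000) * ((nb A u).card : ℝ))).card : ℝ)
    ≤ 1 / 1000 * ((nb A u).card : ℝ)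

/-- the last half of the out-neighbours -/
def T_COREC : Prop := ∀ (V : Type) [Fintype V] [DecidableEq V] (a : V → V → ℝ) (pos : V → ℕ),
  Dg a pos → ∀ u : V, dp a u / 2 ≤ ((univ.filter (fun v => a u v ≠ 0 ∧
    dp a u ≤ 2 * ((univ.filter (fun z => a u z ≠ 0 ∧ pos z < pos v)).card : ℝ) + 1)).card : ℝ)

def T_CORE : Prop := ∀ (V : Type) [Fintype V] [DecidableEq V] (a : V → V → ℝ) (pos : V → ℕ)
  (d1 : ℝ), Dg a pos → 0 ≤ d1 →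
  ∑ u, |dp a u - dm a u| ≤ (∑ u, dp a u) / 1000 →
  (Fintype.card V : ℝ) * d1 ≤ (∑ u, dp a u) / 1000 →
  (∑ u, dp a u) / 100 ≤ ∑ u ∈ Br (sy a) (1 / 10 ^ 6) d1, (dp a u + dm a u)

/-- the combinatorial conclusion -/
def T_COMB : Prop := ∃ C : ℕ, 1 ≤ C ∧ ∀ (V : Type) [Fintype V] [DecidableEq V]
  (a : V → V → ℝ) (pos : V → ℕ) (K Δ : ℝ), Dg a pos → 1 ≤ K → Low (sy a) K →
  (∀ u, dp a u + dm a u ≤ Δ) →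
  ∑ u, |dp a u - dm a u| ≤ (∑ u, dp a u) / 1000 → 1 ≤ ∑ u, dp a u →
  (∑ u, dp a u) ^ 3 ≤ ((C : ℝ) * K) ^ C * Δ * (Fintype.card V : ℝ) ^ 4

/-- the same for the subgraph of a digraph induced by `U` (`pos` is injective on `U`) -/
def T_COMBU : Prop := ∃ C : ℕ, 1 ≤ C ∧ ∀ (V : Type) [Fintype V] [DecidableEq V]
  (a : V → V → ℝ) (pos : V → ℕ) (U : Finset V) (K Δ : ℝ),
  (∀ u v, a u v = 0 ∨ a u v = 1) → (∀ u v, a u v ≠ 0 → pos u < pos v) →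
  (∀ u ∈ U, ∀ v ∈ U, pos u = pos v → u = v) → 1 ≤ K →
  (∀ x : V → ℝ, (∀ u, u ∉ U → x u = 0) →
    -(K * ∑ u, x u ^ 2) ≤ ∑ u, ∑ v, sy a u v * (x u * x v)) →
  (∀ u ∈ U, dp a u + dm a u ≤ Δ) →
  ∑ u ∈ U, |∑ v ∈ U, a u v - ∑ v ∈ U, a v u| ≤ (∑ u ∈ U, ∑ v ∈ U, a u v) / 1000 →
  1 ≤ ∑ u ∈ U, ∑ v ∈ U, a u v →
  (∑ u ∈ U, ∑ v ∈ U, a u v) ^ 3 ≤ ((C : ℝ) * K) ^ C * Δ * (U.card : ℝ) ^ 4

/-! ### Part IV: from the cut surplus to the least eigenvalue -/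

def T_LEN : Prop := ∀ (V : Type) [Fintype V] [DecidableEq V] (a : V → V → ℝ) (G : ℝ)
  (pos : V → ℕ), Dicut.WData a G → (∀ u v, a u v = 0 ∨ a u v = 1) →
  (∀ u v, a u v ≠ 0 → pos u < pos v) → (∀ u ∈ Dicut.UU a, pos u < (Dicut.UU a).card) →
  (∀ u ∈ Dicut.UU a, ∀ v ∈ Dicut.UU a, pos u = pos v → u = v) →
  0 < ∑ u, dp a u →
  ∑ u, (dp a u + dm a u) ^ 2 ≤ 8 * ((Dicut.UU a).card : ℝ) * Real.sqrt (G * ∑ u, dp a u)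

def T_IMB : Prop := ∀ (V : Type) [Fintype V] [DecidableEq V] (a : V → V → ℝ) (G Δ : ℝ),
  (∀ u v, a u v = 0 ∨ a u v = 1) → (∀ x : V → ℝ, (∀ v, |x v| ≤ 1) → Dicut.Gf a x ≤ G) →
  0 < Δ →
  ∑ u ∈ univ.filter (fun u => dp a u + dm a u ≤ Δ), (dp a u - dm a u) ^ 2 ≤ 2 * Δ * G

/-- exponential and second moments of Rademacher sums -/
def T_RAD : Prop := ∀ (J : Type) [Fintype J] [DecidableEq J],
  (∀ c d : J → ℝ, ∑ ω : J → Bool, (∑ j, (if ω j then (1 : ℝ) else -1) * c j)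
      * (∑ j, (if ω j then (1 : ℝ) else -1) * d j)
    = 2 ^ Fintype.card J * ∑ j, c j * d j) ∧
  (∀ (c : J → ℝ) (s : ℝ), ∑ ω : J → Bool,
      Real.exp (s * ∑ j, (if ω j then (1 : ℝ) else -1) * c j)
    ≤ 2 ^ Fintype.card J * Real.exp (s ^ 2 / 2 * ∑ j, c j ^ 2))

/-- the clipped part is small -/
def T_CLIP : Prop := ∀ (J : Type) [Fintype J] [DecidableEq J] (c : J → ℝ) (T : ℝ),
  ∑ j, c j ^ 2 ≤ 1 → 1 ≤ T →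
  ∑ ω : J → Bool, (max (|∑ j, (if ω j then (1 : ℝ) else -1) * c j| - T) 0) ^ 2
    ≤ 2 ^ Fintype.card J * (4 * Real.exp (-(T ^ 2 / 2)))

/-- rounding -/
def T_ROUND : Prop := ∀ (V : Type) [Fintype V] [DecidableEq V] (a : V → V → ℝ) (G m : ℝ),
  (∀ u v, a u v = 0 ∨ a u v = 1) → (∀ x : V → ℝ, (∀ v, |x v| ≤ 1) → Dicut.Gf a x ≤ G) →
  0 ≤ G → ∑ u, dp a u = m → 1 ≤ m →
  ∀ B : V → V → ℝ, (∀ u, ∑ j, B u j ^ 2 ≤ 1) →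
  -((8 * Real.log m + 2) * G + 8) ≤ ∑ u, ∑ w, sy a u w * ∑ j, B u j * B w j

/-- duality (separation of convex sets) -/
def T_DUAL : Prop := ∀ (V : Type) [Fintype V] [DecidableEq V] (A : V → V → ℝ) (γ : ℝ),
  (∀ u v, A u v = A v u) → 0 ≤ γ →
  (∀ B : V → V → ℝ, (∀ u, ∑ j, B u j ^ 2 ≤ 1) →
    -γ ≤ ∑ u, ∑ w, A u w * ∑ j, B u j * B w j) →
  ∃ D : V → ℝ, (∀ u, 0 ≤ D u) ∧ ∑ u, D u ≤ γ ∧
    ∀ x : V → ℝ, 0 ≤ ∑ u, D u * x u ^ 2 + ∑ u, ∑ v, A u v * (x u * x v)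

/-- the conclusion for one digraph with small surplus -/
def T_FIN : Prop := ∃ C : ℝ, 1 ≤ C ∧ ∃ k : ℕ, ∀ (V : Type) [Fintype V] [DecidableEq V]
  (a : V → V → ℝ) (G m ρ : ℝ), Dicut.WData a G → (∀ u v, a u v = 0 ∨ a u v = 1) →
  ∑ u, dp a u = m → 1 ≤ m → C * (1 + Real.log m) ≤ ρ → G ≤ m ^ (3 / 5 : ℝ) * ρ →
  m ≤ (C * ρ) ^ k

def T_MAIN : Prop := ∃ c δ : ℝ, 0 < c ∧ 0 < δ ∧ ∀ m : ℕ, 1 ≤ m →
  (m : ℝ) / 4 + c * (m : ℝ) ^ (3 / 5 + δ : ℝ) ≤ (Dicut.h m : ℝ)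

end Pool.Agent.HLow
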