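import Mathlib
import Pool.Agent.HLow.Targets

set_option autoImplicit false

namespace Pool.Agent.HLow

open Finset

lemma BR_sub {V : Type} [Fintype V] [DecidableEq V] {A : V → V → ℝ} {K : ℝ} (hK : 1 ≤ K)
    {C : Finset V} (hC : Clq A C) : C ⊆ clo A K C := by
  intro w hw
  unfold clo
  rw [mem_filter]
  refine ⟨mem_univ _, ?_⟩
  have h1 : C.filter (fun z => A w z = 0) ⊆ {w} := by
    intro z hz
    rw [mem_filter] at hz
    rw [mem_singleton]
    by_contra hne
    have h5 := hC w hw z hz.1 (fun e => hne e.symm)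
    rw [hz.2] at h5
    exact zero_ne_one h5
  have h2 := card_le_card h1
  rw [card_singleton] at h2
  have h3 : ((C.filter (fun z => A w z = 0)).card : ℝ) ≤ 1 := by exact_mod_cast h2
  nlinarith

lemma BR_row {V : Type} [Fintype V] [DecidableEq V] {A : V → V → ℝ} (hA : Adj A)
    (S : Finset V) (z : V) :
    ∑ w ∈ S, A z w = (S.card : ℝ) - ((S.filter (fun w => A z w = 0)).card : ℝ) := by
  have h1 : ∀ w ∈ S, A z w = 1 - (if A z w = 0 then (1 : ℝ) else 0) := by
    intro w _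
    rcases hA.zo z w with e | e <;> rw [e] <;> simp
  rw [sum_congr rfl h1, sum_sub_distrib]
  simp

lemma BR_ee {V : Type} [Fintype V] [DecidableEq V] {A : V → V → ℝ} (hA : Adj A)
    (S F : Finset V) (c d0 : ℝ)
    (hF : ∀ w ∈ F, ((F.filter (fun z => z ≠ w ∧ A w z = 0)).card : ℝ) ≤ c)
    (hS : ((S \ F).card : ℝ) ≤ d0) (hc : 0 ≤ c) (hd0 : 0 ≤ d0) :
    (S.card : ℝ) ^ 2 - (2 * d0 + c + 1) * (S.card : ℝ) ≤ ee A S S := by
  have h0 : (0 : ℝ) ≤ (S.card : ℝ) := Nat.cast_nonneg _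
  have h1 : ∀ z ∈ S, ((S.filter (fun w => A z w = 0)).card : ℝ)
      ≤ (d0 + c + 1) + (if z ∈ S \ F then (S.card : ℝ) else 0) := by
    intro z hz
    by_cases hzF : z ∈ F
    · have h2 : S.filter (fun w => A z w = 0)
          ⊆ (S \ F) ∪ (F.filter (fun w => w ≠ z ∧ A z w = 0) ∪ {z}) := by
        intro w hw
        rw [mem_filter] at hw
        rw [mem_union, mem_union, mem_sdiff, mem_filter, mem_singleton]
        by_cases hwF : w ∈ F
        · by_cases hwz : w = z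
          · right; right; exact hwz
          · right; left; exact ⟨hwF, hwz, hw.2⟩
        · left; exact ⟨hw.1, hwF⟩
      have h3 := (card_le_card h2).trans ((card_union_le _ _).trans
        (Nat.add_le_add_left (card_union_le _ _) _))
      rw [card_singleton] at h3
      have h4 : ((S.filter (fun w => A z w = 0)).card : ℝ)
          ≤ ((S \ F).card : ℝ) + (((F.filter (fun w => w ≠ z ∧ A z w = 0)).card : ℝ) + 1) := by
        exact_mod_cast h3
      have h5 := hF z hzF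
      have h6 : (0 : ℝ) ≤ (if z ∈ S \ F then (S.card : ℝ) else 0) := by
        split_ifs
        · exact h0
        · exact le_refl _
      linarith
    · have h2 : z ∈ S \ F := mem_sdiff.mpr ⟨hz, hzF⟩
      rw [if_pos h2]
      have h3 : ((S.filter (fun w => A z w = 0)).card : ℝ) ≤ (S.card : ℝ) := by
        exact_mod_cast card_filter_le _ _
      linarith
  have h2 : ee A S S = (S.card : ℝ) ^ 2 - ∑ z ∈ S, ((S.filter (fun w => A z w = 0)).card : ℝ) := by
    unfold ee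
    rw [sum_congr rfl (fun z _ => BR_row hA S z), sum_sub_distrib, sum_const, nsmul_eq_mul]
    ring
  have h3 : ∑ z ∈ S, ((S.filter (fun w => A z w = 0)).card : ℝ)
      ≤ (S.card : ℝ) * (d0 + c + 1) + ((S \ F).card : ℝ) * (S.card : ℝ) := by
    refine (sum_le_sum h1).trans (le_of_eq ?_)
    rw [sum_add_distrib, sum_const, nsmul_eq_mul, ← sum_filter, sum_const, nsmul_eq_mul]
    congr 3
    have h7 : S.filter (fun z => z ∈ S \ F) = S \ F := by
      ext z
      rw [mem_filter, mem_sdiff]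
      tauto
    rw [h7]
  have h4 : ((S \ F).card : ℝ) * (S.card : ℝ) ≤ d0 * (S.card : ℝ) :=
    mul_le_mul_of_nonneg_right hS h0
  rw [h2]
  nlinarith

theorem p_BR (hCLOS : T_CLOS) (hMERGE : T_MERGE) (hCNT : T_CNT) : T_BR := by
  intro V _ _ A K d0 d1 s ε hA hL hK hd0 hε hcl hs hN hd hdd
  have hK4 : 1 ≤ K ^ 4 := one_le_pow₀ hK
  have hK2 : 1 ≤ K ^ 2 := one_le_pow₀ hK
  have hs0 : 0 < s := by linarith
  classical
  set CC : Finset (Finset V) := univ.filter (fun C => Clq A C ∧ s ≤ (C.card : ℝ)) with hCC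
  set FF : Finset (Finset V) := CC.image (clo A K) with hFF
  have hmem : ∀ C : Finset V, Clq A C → s ≤ (C.card : ℝ) → clo A K C ∈ FF := by
    intro C h1 h2
    exact mem_image_of_mem _ (mem_filter.mpr ⟨mem_univ _, h1, h2⟩)
  have hFFs : ∀ X ∈ FF, s ≤ (X.card : ℝ) := by
    intro X hX
    obtain ⟨C, hC, rfl⟩ := mem_image.mp hX
    rw [hCC, mem_filter] at hC
    have h1 := card_le_card (BR_sub hK hC.2.1)
    have h2 : (C.card : ℝ) ≤ ((clo A K C).card : ℝ) := by exact_mod_cast h1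
    linarith [hC.2.2]
  have hFFd : ∀ X ∈ FF, ∀ Y ∈ FF, X ≠ Y → ((X ∩ Y).card : ℝ) ≤ 12 * K ^ 2 := by
    intro X hX Y hY hXY
    obtain ⟨C, hC, rfl⟩ := mem_image.mp hX
    obtain ⟨D, hD, rfl⟩ := mem_image.mp hY
    rw [hCC, mem_filter] at hC hD
    by_contra hlt
    push Not at hlt
    have hc1 : 1000 * K ^ 4 ≤ (C.card : ℝ) := hs.trans hC.2.2
    have hc2 : 1000 * K ^ 4 ≤ (D.card : ℝ) := hs.trans hD.2.2
    have h1 := hMERGE V A K hA hL hK C D hC.2.1 hD.2.1 hc1 hc2 hlt.le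
    have h2 := hMERGE V A K hA hL hK D C hD.2.1 hC.2.1 hc2 hc1 (by rw [inter_comm]; exact hlt.le)
    exact hXY (subset_antisymm h2 h1)
  have hq : (FF.card : ℝ) * s ≤ 2 * (Fintype.card V : ℝ) :=
    hCNT V FF s (12 * K ^ 2) hs0.le (by positivity) hFFs hFFd (by linarith)
  -- every branch vertex lies in two members
  have hmemclo : ∀ (u : V) (Q : Finset V), Q ⊆ nb A u → u ∈ clo A K Q := by
    intro u Q hQ
    unfold clo
    rw [mem_filter]
    refine ⟨mem_univ _, ?_⟩
    have h1 : Q.filter (fun z => A u z = 0) = ∅ := by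
      rw [filter_eq_empty_iff]
      intro z hz
      exact mem_nb.mp (hQ hz)
    rw [h1, card_empty, Nat.cast_zero]
    positivity
  have htwo : ∀ u ∈ Br A ε d1, ∃ X ∈ FF, ∃ Y ∈ FF, X ≠ Y ∧ u ∈ X ∩ Y := by
    intro u hu
    unfold Br at hu
    rw [mem_filter] at hu
    obtain ⟨-, hu1, hu2⟩ := hu
    obtain ⟨Q1, hQ1, hc1, hs1⟩ := hcl u (nb A u) (Subset.refl _) (hd.trans hu1)
    by_cases hcase : d0 ≤ ((nb A u \ clo A K Q1).card : ℝ)
    · obtain ⟨Q2, hQ2, hc2, hs2⟩ := hcl u (nb A u \ clo A K Q1) sdiff_subset hcase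
      refine ⟨clo A K Q1, hmem Q1 hc1 hs1, clo A K Q2, hmem Q2 hc2 hs2, ?_, ?_⟩
      · intro heq
        have hpos : 0 < Q2.card := by
          have : (0 : ℝ) < (Q2.card : ℝ) := by linarith
          exact_mod_cast this
        obtain ⟨z, hz⟩ := card_pos.mp hpos
        have h1 := BR_sub hK hc2 hz
        rw [← heq] at h1
        exact (mem_sdiff.mp (hQ2 hz)).2 h1
      · exact mem_inter.mpr ⟨hmemclo u Q1 hQ1, hmemclo u Q2 (hQ2.trans sdiff_subset)⟩
    · exfalso
      push Not at hcase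
      have h1 := BR_ee hA (nb A u) (clo A K Q1) (5 * K ^ 2) d0
        (hCLOS V A K hA hL hK Q1 hc1 (hs.trans hs1)) hcase.le (by positivity) hd0
      have hd1 : 0 < ε * d1 := by nlinarith
      have hd1' : 0 < d1 := by
        by_contra h
        push Not at h
        nlinarith
      have hdeg : 0 < ((nb A u).card : ℝ) := by linarith
      have h2 : (2 * d0 + 5 * K ^ 2 + 1) * ((nb A u).card : ℝ)
          < ε * d1 * ((nb A u).card : ℝ) := mul_lt_mul_of_pos_right hdd hdeg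
      have h3 : ε * d1 * ((nb A u).card : ℝ) ≤ ε * ((nb A u).card : ℝ) ^ 2 := by
        have := mul_le_mul_of_nonneg_left hu1 (mul_nonneg hε.le hdeg.le)
        nlinarith
      nlinarith
  have hsub : Br A ε d1 ⊆ (FF ×ˢ FF).biUnion
      (fun p => if p.1 ≠ p.2 then p.1 ∩ p.2 else ∅) := by
    intro u hu
    obtain ⟨X, hX, Y, hY, hne, hm⟩ := htwo u hu
    rw [mem_biUnion]
    refine ⟨(X, Y), mem_product.mpr ⟨hX, hY⟩, ?_⟩
    simp only [ne_eq]
    rw [if_pos hne]
    exact hm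
  have hcard : ((Br A ε d1).card : ℝ) ≤ (FF.card : ℝ) ^ 2 * (12 * K ^ 2) := by
    have h1 := (card_le_card hsub).trans card_biUnion_le
    have h2 : ((Br A ε d1).card : ℝ)
        ≤ ∑ p ∈ FF ×ˢ FF, (((if p.1 ≠ p.2 then p.1 ∩ p.2 else ∅ : Finset V)).card : ℝ) := by
      exact_mod_cast h1
    refine h2.trans ?_
    have h3 : ∀ p ∈ FF ×ˢ FF, (((if p.1 ≠ p.2 then p.1 ∩ p.2 else ∅ : Finset V)).card : ℝ)
        ≤ 12 * K ^ 2 := by
      intro p hp
      rw [mem_product] at hp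
      split_ifs with hne
      · exact hFFd p.1 hp.1 p.2 hp.2 hne
      · rw [card_empty, Nat.cast_zero]; positivity
    refine (sum_le_sum h3).trans (le_of_eq ?_)
    rw [sum_const, card_product, nsmul_eq_mul]
    push_cast
    ring
  have hN0 : (0 : ℝ) ≤ (Fintype.card V : ℝ) := Nat.cast_nonneg _
  have hqs : ((FF.card : ℝ) * s) ^ 2 ≤ (2 * (Fintype.card V : ℝ)) ^ 2 :=
    pow_le_pow_left₀ (by positivity) hq 2
  calc ((Br A ε d1).card : ℝ) * s ^ 2 ≤ ((FF.card : ℝ) ^ 2 * (12 * K ^ 2)) * s ^ 2 :=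
        mul_le_mul_of_nonneg_right hcard (by positivity)
    _ = (12 * K ^ 2) * ((FF.card : ℝ) * s) ^ 2 := by ring
    _ ≤ (12 * K ^ 2) * (2 * (Fintype.card V : ℝ)) ^ 2 :=
        mul_le_mul_of_nonneg_left hqs (by positivity)
    _ = 48 * K ^ 2 * (Fintype.card V : ℝ) ^ 2 := by ring

end Pool.Agent.HLow
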