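import Mathlib
import Pool.Agent.HLow.Targets

/-!
CLIP: the clipped part of a Rademacher sum is small.
-/

set_option autoImplicit false

namespace Pool.Agent.HLow

open Finset

theorem CLIP_point (g T : ℝ) (hT : 1 ≤ T) : (max (|g| - T) 0) ^ 2 ≤
    2 * Real.exp (-T ^ 2) * (Real.exp (T * g) + Real.exp (-T * g)) := by
  by_cases h : |g| ≤ T
  · rw [max_eq_right (by linarith), zero_pow two_ne_zero]
    positivity
  · push Not at h
    rw [max_eq_left (by linarith)]
    obtain ⟨z, hz⟩ : ∃ z : ℝ, z = T * (|g| - T) := ⟨_, rfl⟩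
    have hz0 : 0 ≤ z := by
      rw [hz]
      exact mul_nonneg (by linarith) (by linarith)
    have h1 : z ^ 2 ≤ 2 * Real.exp z := by
      have h2 := Real.quadratic_le_exp_of_nonneg hz0
      nlinarith
    have h2 : (|g| - T) ^ 2 ≤ z ^ 2 := by
      rw [hz, mul_pow]
      have h3 : 1 ≤ T ^ 2 := by nlinarith
      nlinarith [sq_nonneg (|g| - T)]
    have h3 : Real.exp z = Real.exp (-T ^ 2) * Real.exp (T * |g|) := by
      rw [← Real.exp_add, hz]
      congr 1
      ring
    have h4 : Real.exp (T * |g|) ≤ Real.exp (T * g) + Real.exp (-T * g) := by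
      rcases abs_cases g with ⟨h5, _⟩ | ⟨h5, _⟩
      · rw [h5]
        linarith [Real.exp_pos (-T * g)]
      · rw [h5]
        have h6 : T * -g = -T * g := by ring
        rw [h6]
        linarith [Real.exp_pos (T * g)]
    calc (|g| - T) ^ 2 ≤ z ^ 2 := h2
      _ ≤ 2 * Real.exp z := h1
      _ = 2 * Real.exp (-T ^ 2) * Real.exp (T * |g|) := by rw [h3]; ring
      _ ≤ _ := mul_le_mul_of_nonneg_left h4 (by positivity)

theorem p_CLIP (h : T_RAD) : T_CLIP := by
  intro J _ _ c T hc hT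
  have h1 := (h J).2 c T
  have h2 := (h J).2 c (-T)
  have hp : (0 : ℝ) < 2 ^ Fintype.card J := by positivity
  have h3 : Real.exp (T ^ 2 / 2 * ∑ j, c j ^ 2) ≤ Real.exp (T ^ 2 / 2) := by
    apply Real.exp_le_exp.2
    have : 0 ≤ T ^ 2 / 2 := by positivity
    nlinarith
  have h4 : (-T) ^ 2 = T ^ 2 := by ring
  rw [h4] at h2
  calc ∑ ω : J → Bool, (max (|∑ j, (if ω j then (1 : ℝ) else -1) * c j| - T) 0) ^ 2
      ≤ ∑ ω : J → Bool, 2 * Real.exp (-T ^ 2) *
          (Real.exp (T * ∑ j, (if ω j then (1 : ℝ) else -1) * c j) +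
            Real.exp (-T * ∑ j, (if ω j then (1 : ℝ) else -1) * c j)) :=
        Finset.sum_le_sum fun ω _ => CLIP_point _ T hT
    _ = 2 * Real.exp (-T ^ 2) *
          (∑ ω : J → Bool, Real.exp (T * ∑ j, (if ω j then (1 : ℝ) else -1) * c j) +
            ∑ ω : J → Bool, Real.exp (-T * ∑ j, (if ω j then (1 : ℝ) else -1) * c j)) := by
        rw [← Finset.sum_add_distrib, Finset.mul_sum]
    _ ≤ 2 * Real.exp (-T ^ 2) * (2 ^ Fintype.card J * Real.exp (T ^ 2 / 2) +
          2 ^ Fintype.card J * Real.exp (T ^ 2 / 2)) := by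
        apply mul_le_mul_of_nonneg_left _ (by positivity)
        exact add_le_add (h1.trans (mul_le_mul_of_nonneg_left h3 hp.le))
          (h2.trans (mul_le_mul_of_nonneg_left h3 hp.le))
    _ = 2 ^ Fintype.card J * (4 * (Real.exp (-T ^ 2) * Real.exp (T ^ 2 / 2))) := by ring
    _ = 2 ^ Fintype.card J * (4 * Real.exp (-(T ^ 2 / 2))) := by
        rw [← Real.exp_add]
        congr 3
        ring

end Pool.Agent.HLow
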