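import Pool.Agent.HLow.Targets

set_option autoImplicit false

/-!
# T_CLOS: vertices of the closure of a big clique have few non-neighbours in the closure
-/

namespace Pool.Agent.HLow

open Finset

variable {V : Type} [Fintype V] [DecidableEq V]

/-- indicator function -/
noncomputable def CLOS_ind (S : Finset V) (u : V) : ℝ := if u ∈ S then 1 else 0

theorem CLOS_sum_ind (S : Finset V) : ∑ u, CLOS_ind S u = (S.card : ℝ) := by
  unfold CLOS_ind
  simp

theorem CLOS_ee (A : V → V → ℝ) (S T : Finset V) :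
    ee A S T = ∑ u, ∑ v, A u v * (CLOS_ind S u * CLOS_ind T v) := by
  unfold ee CLOS_ind
  rw [← Finset.sum_filter_add_sum_filter_not (s := (univ : Finset V)) (p := fun u => u ∈ S)]
  have h1 : ∑ u ∈ (univ : Finset V).filter (fun u => ¬ u ∈ S),
      ∑ v, A u v * ((if u ∈ S then 1 else 0) * (if v ∈ T then 1 else 0)) = 0 := by
    refine Finset.sum_eq_zero fun u hu => ?_
    rw [Finset.mem_filter] at hu
    refine Finset.sum_eq_zero fun v _ => ?_
    rw [if_neg hu.2]
    ring
  have h2 : (univ : Finset V).filter (fun u => u ∈ S) = S := by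
    ext u; simp
  rw [h1, h2, add_zero]
  refine Finset.sum_congr rfl fun u hu => ?_
  rw [← Finset.sum_filter_add_sum_filter_not (s := (univ : Finset V)) (p := fun v => v ∈ T)]
  have h3 : ∑ v ∈ (univ : Finset V).filter (fun v => ¬ v ∈ T),
      A u v * ((if u ∈ S then 1 else 0) * (if v ∈ T then 1 else 0)) = 0 := by
    refine Finset.sum_eq_zero fun v hv => ?_
    rw [Finset.mem_filter] at hv
    rw [if_neg hv.2]
    ring
  have h4 : (univ : Finset V).filter (fun v => v ∈ T) = T := by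
    ext u; simp
  rw [h3, h4, add_zero]
  refine Finset.sum_congr rfl fun v hv => ?_
  rw [if_pos hu, if_pos hv]
  ring

theorem CLOS_ee_symm (A : V → V → ℝ) (hA : ∀ u v, A u v = A v u) (S T : Finset V) :
    ee A S T = ee A T S := by
  unfold ee
  rw [Finset.sum_comm]
  exact Finset.sum_congr rfl fun u _ => Finset.sum_congr rfl fun v _ => hA v u

theorem CLOS_quad (A : V → V → ℝ) (hA : ∀ u v, A u v = A v u) (S₁ S₂ S₃ : Finset V)
    (a b c : ℝ) :
    ∑ u, ∑ v, A u v * ((a * CLOS_ind S₁ u + b * CLOS_ind S₂ u + c * CLOS_ind S₃ u) *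
      (a * CLOS_ind S₁ v + b * CLOS_ind S₂ v + c * CLOS_ind S₃ v)) =
    a ^ 2 * ee A S₁ S₁ + b ^ 2 * ee A S₂ S₂ + c ^ 2 * ee A S₃ S₃ + 2 * a * b * ee A S₁ S₂ +
      2 * a * c * ee A S₁ S₃ + 2 * b * c * ee A S₂ S₃ := by
  have h1 : 2 * a * b * ee A S₁ S₂ = a * b * ee A S₁ S₂ + a * b * ee A S₂ S₁ := by
    rw [CLOS_ee_symm A hA S₂ S₁]; ring
  have h2 : 2 * a * c * ee A S₁ S₃ = a * c * ee A S₁ S₃ + a * c * ee A S₃ S₁ := by
    rw [CLOS_ee_symm A hA S₃ S₁]; ring
  have h3 : 2 * b * c * ee A S₂ S₃ = b * c * ee A S₂ S₃ + b * c * ee A S₃ S₂ := by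
    rw [CLOS_ee_symm A hA S₃ S₂]; ring
  rw [h1, h2, h3]
  simp only [CLOS_ee, Finset.mul_sum, ← Finset.sum_add_distrib]
  refine Finset.sum_congr rfl fun u _ => Finset.sum_congr rfl fun v _ => ?_
  ring

theorem CLOS_sq (S₁ S₂ S₃ : Finset V) (h12 : Disjoint S₁ S₂) (h13 : Disjoint S₁ S₃)
    (h23 : Disjoint S₂ S₃) (a b c : ℝ) :
    ∑ u, (a * CLOS_ind S₁ u + b * CLOS_ind S₂ u + c * CLOS_ind S₃ u) ^ 2 =
      a ^ 2 * (S₁.card : ℝ) + b ^ 2 * (S₂.card : ℝ) + c ^ 2 * (S₃.card : ℝ) := by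
  rw [← CLOS_sum_ind S₁, ← CLOS_sum_ind S₂, ← CLOS_sum_ind S₃]
  simp only [Finset.mul_sum, ← Finset.sum_add_distrib]
  refine Finset.sum_congr rfl fun u _ => ?_
  unfold CLOS_ind
  by_cases h1 : u ∈ S₁
  · have h2 : u ∉ S₂ := Finset.disjoint_left.1 h12 h1
    have h3 : u ∉ S₃ := Finset.disjoint_left.1 h13 h1
    rw [if_pos h1, if_neg h2, if_neg h3]; ring
  · by_cases h2 : u ∈ S₂
    · have h3 : u ∉ S₃ := Finset.disjoint_left.1 h23 h2
      rw [if_neg h1, if_pos h2, if_neg h3]; ring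
    · by_cases h3 : u ∈ S₃
      · rw [if_neg h1, if_neg h2, if_pos h3]; ring
      · rw [if_neg h1, if_neg h2, if_neg h3]; ring

/-- a vertex with few non-neighbours in `D` has many neighbours in `D` -/
theorem CLOS_row (A : V → V → ℝ) (hA : Adj A) (D : Finset V) (u : V) (t : ℝ)
    (h : ((D.filter (fun z => A u z = 0)).card : ℝ) ≤ t) :
    (D.card : ℝ) - t ≤ ∑ v ∈ D, A u v := by
  have h1 : ∑ v ∈ D, A u v = ∑ v ∈ D.filter (fun z => ¬ A u z = 0), (1 : ℝ) := by
    rw [← Finset.sum_filter_add_sum_filter_not D (fun z => A u z = 0)]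
    rw [Finset.sum_eq_zero (s := D.filter (fun z => A u z = 0))
      (fun v hv => (Finset.mem_filter.1 hv).2), zero_add]
    refine Finset.sum_congr rfl fun v hv => ?_
    exact (hA.zo u v).resolve_left (Finset.mem_filter.1 hv).2
  rw [h1, Finset.sum_const, nsmul_eq_mul, mul_one]
  have h2 := Finset.card_filter_add_card_filter_not (s := D) (fun z => A u z = 0)
  have h3 : ((D.filter (fun z => A u z = 0)).card : ℝ) +
      ((D.filter (fun z => ¬ A u z = 0)).card : ℝ) = (D.card : ℝ) := by exact_mod_cast h2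
  linarith

theorem p_CLOS : T_CLOS := by
  intro V _ _ A K hA hlow hK C hC hcard w hw
  classical
  set F := clo A K C with hF
  set C' := C.erase w with hC'
  set Z := (F \ C).filter (fun z => z ≠ w ∧ A w z = 0) with hZ
  have hK4 : 1 ≤ K ^ 4 := one_le_pow₀ hK
  have hmemF : ∀ u ∈ F, ((C.filter (fun z => A u z = 0)).card : ℝ) ≤ 3 * K ^ 2 := by
    intro u hu
    rw [hF] at hu
    unfold clo at hu
    exact (Finset.mem_filter.1 hu).2
  have hc : 999 * K ^ 4 ≤ (C'.card : ℝ) := by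
    have h1 : C.card ≤ C'.card + 1 := by
      have := Finset.pred_card_le_card_erase (s := C) (a := w)
      rw [hC']
      omega
    have h2 : (C.card : ℝ) ≤ (C'.card : ℝ) + 1 := by exact_mod_cast h1
    linarith
  have hrow : ∀ u ∈ F, (C'.card : ℝ) - 3 * K ^ 2 ≤ ∑ v ∈ C', A u v := by
    intro u hu
    apply CLOS_row A hA
    refine le_trans ?_ (hmemF u hu)
    have h1 : (C'.filter (fun z => A u z = 0)) ⊆ (C.filter (fun z => A u z = 0)) :=
      Finset.filter_subset_filter _ (Finset.erase_subset _ _)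
    exact_mod_cast Finset.card_le_card h1
  have hZF : ∀ u ∈ Z, u ∈ F := fun u hu => (Finset.mem_sdiff.1 (Finset.mem_filter.1 hu).1).1
  -- the main estimate
  have hZbound : (Z.card : ℝ) ≤ 2 * K ^ 2 := by
    set z : ℝ := (Z.card : ℝ) with hz
    set c : ℝ := (C'.card : ℝ) with hcdef
    have hz0 : 0 ≤ z := by rw [hz]; positivity
    have hc0 : 0 < c := by nlinarith
    have hK0 : 0 < K := by linarith
    set γ : ℝ := z / K with hγ
    set α : ℝ := (z + γ) / c with hα
    have hγ0 : 0 ≤ γ := by positivity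
    have hα0 : 0 ≤ α := by positivity
    have hγz : γ ≤ z := by
      rw [hγ, div_le_iff₀ hK0]
      nlinarith
    have hγK : γ * K = z := by rw [hγ]; field_simp
    have hαc : α * c = z + γ := by rw [hα]; field_simp
    have h12 : Disjoint Z ({w} : Finset V) := by
      rw [Finset.disjoint_singleton_right]
      intro h
      exact (Finset.mem_filter.1 h).2.1 rfl
    have h13 : Disjoint Z C' := by
      rw [Finset.disjoint_left]
      intro u hu hu'
      exact (Finset.mem_sdiff.1 (Finset.mem_filter.1 hu).1).2 (Finset.mem_of_mem_erase hu')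
    have h23 : Disjoint ({w} : Finset V) C' := by
      rw [Finset.disjoint_singleton_left, hC']
      exact Finset.notMem_erase w C
    have hq := hlow (fun u => 1 * CLOS_ind Z u + γ * CLOS_ind {w} u + (-α) * CLOS_ind C' u)
    rw [CLOS_quad A hA.sym, CLOS_sq Z {w} C' h12 h13 h23] at hq
    have e1 : ee A Z Z ≤ z * z := ee_le hA Z Z
    have e2 : ee A {w} {w} = 0 := by
      unfold ee; simp [hA.dg]
    have e3 : ee A C' C' ≤ c * c := ee_le hA C' C'
    have e4 : ee A Z {w} = 0 := by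
      unfold ee
      refine Finset.sum_eq_zero fun u hu => ?_
      rw [Finset.sum_singleton, hA.sym]
      exact (Finset.mem_filter.1 hu).2.2
    have e5 : z * (c - 3 * K ^ 2) ≤ ee A Z C' := by
      unfold ee
      calc z * (c - 3 * K ^ 2) = ∑ u ∈ Z, (c - 3 * K ^ 2) := by
            rw [Finset.sum_const, nsmul_eq_mul]
        _ ≤ _ := Finset.sum_le_sum fun u hu => hrow u (hZF u hu)
    have e6 : c - 3 * K ^ 2 ≤ ee A {w} C' := by
      unfold ee
      rw [Finset.sum_singleton]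
      exact hrow w hw
    rw [e2, e4, Finset.card_singleton] at hq
    -- hq : -(K * (z + γ² + α² c)) ≤ ee Z Z + α² ee C' C' - 2 α ee Z C' - 2 γ α ee w C'
    have hmain : -(K * (z + γ ^ 2 + α ^ 2 * c)) ≤
        z * z + α ^ 2 * (c * c) - 2 * α * (z * (c - 3 * K ^ 2)) -
          2 * γ * α * (c - 3 * K ^ 2) := by
      have f1 : α ^ 2 * ee A C' C' ≤ α ^ 2 * (c * c) :=
        mul_le_mul_of_nonneg_left e3 (sq_nonneg α)
      have f2 : 2 * α * (z * (c - 3 * K ^ 2)) ≤ 2 * α * ee A Z C' :=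
        mul_le_mul_of_nonneg_left e5 (by positivity)
      have f3 : 2 * γ * α * (c - 3 * K ^ 2) ≤ 2 * γ * α * ee A {w} C' :=
        mul_le_mul_of_nonneg_left e6 (by positivity)
      have f0 : -(K * (z + γ ^ 2 + α ^ 2 * c)) ≤
          ee A Z Z + α ^ 2 * ee A C' C' - 2 * α * ee A Z C' - 2 * γ * α * ee A {w} C' := by
        have := hq
        push_cast at this
        nlinarith [this]
      linarith
    -- algebra
    have hsimp : z * z + α ^ 2 * (c * c) - 2 * α * (z * (c - 3 * K ^ 2)) -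
          2 * γ * α * (c - 3 * K ^ 2) =
        z ^ 2 - (z + γ) ^ 2 + 6 * K ^ 2 * α * (z + γ) := by
      have g1 : α ^ 2 * (c * c) = (z + γ) ^ 2 := by rw [← hαc]; ring
      have g2 : 2 * α * (z * (c - 3 * K ^ 2)) + 2 * γ * α * (c - 3 * K ^ 2) =
          2 * (α * c) * (z + γ) - 6 * K ^ 2 * α * (z + γ) := by ring
      rw [hαc] at g2
      linear_combination g1 - g2
    rw [hsimp] at hmain
    have hαbound : 999 * K ^ 4 * α ≤ 2 * z := by
      have g3 : 999 * K ^ 4 * α ≤ c * α := mul_le_mul_of_nonneg_right hc hα0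
      have g4 : c * α = z + γ := by rw [mul_comm]; exact hαc
      linarith
    have hα2c : α ^ 2 * c = α * (z + γ) := by rw [← hαc]; ring
    rw [hα2c] at hmain
    -- z²/K = K γ² ... : z^2 = K² γ²; 2 z γ = 2 K γ²
    have hz' : z = K * γ := by rw [← hγK]; ring
    clear_value α
    clear_value γ
    clear_value z c
    -- K γ² + γ² ≤ K z + (6K²+K) α (z+γ)
    have hfin : K * γ ^ 2 ≤ K * z + 7 * K ^ 2 * (α * (z + γ)) := by
      have g5 : z ^ 2 - (z + γ) ^ 2 = -(2 * K * γ ^ 2) - γ ^ 2 := by rw [hz']; ring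
      have g6 : K * (α * (z + γ)) ≤ K ^ 2 * (α * (z + γ)) := by
        have h0 : 0 ≤ α * (z + γ) := by positivity
        have hKK : K ≤ K ^ 2 := by nlinarith
        exact mul_le_mul_of_nonneg_right hKK h0
      have g7 : K * γ ^ 2 * 1 = K * γ ^ 2 := by ring
      nlinarith [sq_nonneg γ, hmain, g5, g6]
    have hfin2 : 7 * K ^ 2 * (α * (z + γ)) * 999 ≤ 28 * γ ^ 2 := by
      have g8 : α * (z + γ) ≤ α * (2 * z) := mul_le_mul_of_nonneg_left (by linarith) hα0
      have g9 : 7 * K ^ 2 * (α * (z + γ)) * 999 ≤ 7 * K ^ 2 * (α * (2 * z)) * 999 := by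
        have : 0 ≤ 7 * K ^ 2 := by positivity
        nlinarith [mul_le_mul_of_nonneg_left g8 this]
      have g10 : 7 * K ^ 2 * (α * (2 * z)) * 999 * K ^ 2 = 14 * z * (999 * K ^ 4 * α) := by ring
      have g11 : 14 * z * (999 * K ^ 4 * α) ≤ 14 * z * (2 * z) :=
        mul_le_mul_of_nonneg_left hαbound (by positivity)
      have g12 : 14 * z * (2 * z) = 28 * γ ^ 2 * K ^ 2 := by rw [hz']; ring
      have g13 : 7 * K ^ 2 * (α * (2 * z)) * 999 * K ^ 2 ≤ 28 * γ ^ 2 * K ^ 2 := by
        rw [g10, ← g12]; exact g11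
      have g14 : 7 * K ^ 2 * (α * (2 * z)) * 999 ≤ 28 * γ ^ 2 :=
        le_of_mul_le_mul_right g13 (by positivity)
      linarith
    have hfin3 : K * γ ^ 2 * 971 ≤ 999 * (K * z) := by
      have : γ ^ 2 ≤ K * γ ^ 2 := by nlinarith [sq_nonneg γ]
      nlinarith
    by_contra hcon
    push Not at hcon
    have hzpos : 0 < z := by nlinarith [sq_nonneg K]
    have hγpos : 0 < γ := by rw [hγ]; positivity
    -- K γ² * 971 ≤ 999 K² γ
    have h14 : γ * 971 ≤ 999 * K := by
      have h15 : K * γ ^ 2 * 971 ≤ 999 * (K * (K * γ)) := by rw [← hz']; exact hfin3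
      have h16 : (K * γ) * (γ * 971) ≤ (K * γ) * (999 * K) := by nlinarith
      exact le_of_mul_le_mul_left h16 (by positivity)
    have h17 : z * 971 ≤ 999 * K ^ 2 := by
      rw [hz']
      nlinarith
    nlinarith [sq_nonneg K]
  -- conclusion
  have hsub : F.filter (fun z => z ≠ w ∧ A w z = 0) ⊆ Z ∪ C.filter (fun z => A w z = 0) := by
    intro u hu
    rw [Finset.mem_filter] at hu
    rw [Finset.mem_union]
    by_cases huC : u ∈ C
    · right
      exact Finset.mem_filter.2 ⟨huC, hu.2.2⟩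
    · left
      exact Finset.mem_filter.2 ⟨Finset.mem_sdiff.2 ⟨hu.1, huC⟩, hu.2⟩
  have h1 := (Finset.card_le_card hsub).trans (Finset.card_union_le _ _)
  have h2 : ((F.filter (fun z => z ≠ w ∧ A w z = 0)).card : ℝ) ≤
      (Z.card : ℝ) + ((C.filter (fun z => A w z = 0)).card : ℝ) := by exact_mod_cast h1
  have h3 := hmemF w hw
  linarith

end Pool.Agent.HLow
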