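import Pool.Agent.HLow.Targets

set_option autoImplicit false

namespace Pool.Agent.HLow

open Finset

lemma CLQ_sum {V : Type} [Fintype V] [DecidableEq V] (S : Finset V) (g : V → ℝ)
    (hg : ∀ v, v ∉ S → g v = 0) : ∑ v, g v = ∑ v : S, g v := by
  rw [Finset.sum_coe_sort S g]
  exact (Finset.sum_subset (subset_univ S) (fun v _ hv => hg v hv)).symm

/-- extension by zero -/
noncomputable def CLQ_ext {V : Type} [DecidableEq V] (S : Finset V) (x : S → ℝ) (v : V) : ℝ :=
  if h : v ∈ S then x ⟨v, h⟩ else 0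

lemma CLQ_ext_coe {V : Type} [DecidableEq V] (S : Finset V) (x : S → ℝ) (v : S) :
    CLQ_ext S x v = x v := by
  unfold CLQ_ext
  rw [dif_pos v.2]

lemma CLQ_ext_out {V : Type} [DecidableEq V] (S : Finset V) (x : S → ℝ) (v : V) (hv : v ∉ S) :
    CLQ_ext S x v = 0 := by
  unfold CLQ_ext
  rw [dif_neg hv]

lemma CLQ_low {V : Type} [Fintype V] [DecidableEq V] (A : V → V → ℝ) (K : ℝ) (h : Low A K)
    (S : Finset V) : Low (fun u v : S => A u v) K := by
  intro x
  have h1 := h (CLQ_ext S x)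
  have e1 : ∑ u, CLQ_ext S x u ^ 2 = ∑ u : S, x u ^ 2 := by
    rw [CLQ_sum S _ (fun v hv => by rw [CLQ_ext_out S x v hv]; norm_num)]
    exact sum_congr rfl (fun v _ => by rw [CLQ_ext_coe])
  have e2 : ∑ u, ∑ v, A u v * (CLQ_ext S x u * CLQ_ext S x v) =
      ∑ u : S, ∑ v : S, A u v * (x u * x v) := by
    rw [CLQ_sum S _ (fun u hu => sum_eq_zero (fun v _ => by
      rw [CLQ_ext_out S x u hu]; ring))]
    refine sum_congr rfl (fun u _ => ?_)
    rw [CLQ_sum S _ (fun v hv => by rw [CLQ_ext_out S x v hv]; ring)]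
    exact sum_congr rfl (fun v _ => by rw [CLQ_ext_coe, CLQ_ext_coe])
  rw [e1, e2] at h1
  exact h1

lemma CLQ_adj {V : Type} [Fintype V] [DecidableEq V] (A : V → V → ℝ) (h : Adj A)
    (S : Finset V) : Adj (fun u v : S => A u v) :=
  ⟨fun u v => h.zo u v, fun u v => h.sym u v, fun u => h.dg u⟩

lemma CLQ_ee {V : Type} [Fintype V] [DecidableEq V] (A : V → V → ℝ) (S : Finset V)
    (T : Finset S) : ee (fun u v : S => A u v) T T =
      ee A (T.map (Function.Embedding.subtype _)) (T.map (Function.Embedding.subtype _)) := by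
  unfold ee
  rw [sum_map]
  refine sum_congr rfl (fun u _ => ?_)
  rw [sum_map]
  rfl

lemma CLQ_univ {V : Type} [Fintype V] [DecidableEq V] (S : Finset V) :
    (univ : Finset S).map (Function.Embedding.subtype _) = S := by
  ext v
  simp

theorem p_CLQ (h : T_STEP) : T_CLQ := by
  obtain ⟨L, M, hL, hM, H⟩ := h
  refine ⟨24 * (M + L + 4), by omega, ?_⟩
  intro V _ _ A K hA hLow hK W hW hWE
  set C : ℕ := 24 * (M + L + 4) with hC
  have hCK1 : (1 : ℝ) ≤ (C : ℝ) * K := by
    have : (1 : ℝ) ≤ (C : ℝ) := by exact_mod_cast (by omega)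
    nlinarith
  have hK0 : (0 : ℝ) < K := by linarith
  have hWpos : 0 < (W.card : ℝ) := lt_of_lt_of_le (by positivity) hW
  have hWne : W.Nonempty := card_pos.mp (by exact_mod_cast hWpos)
  let f : Finset V → ℝ := fun S => (ee A S S / (S.card : ℝ) ^ 2) ^ M * (S.card : ℝ)
  obtain ⟨S, hS, hmax⟩ := exists_max_image (W.powerset.filter (fun S => S.Nonempty)) f
    ⟨W, mem_filter.mpr ⟨mem_powerset_self W, hWne⟩⟩
  rw [mem_filter, mem_powerset] at hS
  obtain ⟨hSW, hSne⟩ := hS
  have hfW : f W ≤ f S := hmax W (mem_filter.mpr ⟨mem_powerset_self W, hWne⟩)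
  have hSpos : 0 < (S.card : ℝ) := by exact_mod_cast card_pos.mpr hSne
  have hSWc : (S.card : ℝ) ≤ (W.card : ℝ) := by exact_mod_cast card_le_card hSW
  set pS : ℝ := ee A S S / (S.card : ℝ) ^ 2 with hpS
  set pW : ℝ := ee A W W / (W.card : ℝ) ^ 2 with hpW
  have hpS0 : 0 ≤ pS := div_nonneg (ee_nonneg hA _ _) (by positivity)
  have hpS1 : pS ≤ 1 := by
    rw [hpS, div_le_one (by positivity), pow_two]
    exact ee_le hA S S
  have hpWl : 1 / (4 * K) ≤ pW := by
    rw [hpW, div_le_div_iff₀ (by positivity) (by positivity)]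
    linarith
  have hpW0 : 0 < pW := lt_of_lt_of_le (by positivity) hpWl
  have hf : pW ^ M * (W.card : ℝ) ≤ pS ^ M * (S.card : ℝ) := hfW
  -- the size of `S`
  have hsize : (W.card : ℝ) ≤ (4 * K) ^ M * (S.card : ℝ) := by
    have a1 : (1 / (4 * K)) ^ M * (W.card : ℝ) ≤ (S.card : ℝ) :=
      calc (1 / (4 * K)) ^ M * (W.card : ℝ) ≤ pW ^ M * (W.card : ℝ) :=
            mul_le_mul_of_nonneg_right (pow_le_pow_left₀ (by positivity) hpWl M) hWpos.le
        _ ≤ pS ^ M * (S.card : ℝ) := hf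
        _ ≤ 1 * (S.card : ℝ) := mul_le_mul_of_nonneg_right (pow_le_one₀ hpS0 hpS1) hSpos.le
        _ = _ := one_mul _
    have a2 : (4 * K) ^ M * ((1 / (4 * K)) ^ M * (W.card : ℝ)) = (W.card : ℝ) := by
      rw [← mul_assoc, ← mul_pow, mul_one_div_cancel (by positivity), one_pow, one_mul]
    rw [← a2]
    exact mul_le_mul_of_nonneg_left a1 (by positivity)
  -- the density of `S`
  have hdens : pW ≤ pS := by
    by_contra hcon
    push Not at hcon
    have a1 : pS ^ M < pW ^ M := pow_lt_pow_left₀ hcon hpS0 (by omega)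
    have a2 : pS ^ M * (S.card : ℝ) < pW ^ M * (S.card : ℝ) :=
      mul_lt_mul_of_pos_right a1 hSpos
    have a3 : pW ^ M * (S.card : ℝ) ≤ pW ^ M * (W.card : ℝ) :=
      mul_le_mul_of_nonneg_left hSWc (by positivity)
    linarith
  have hcard : (Fintype.card S : ℝ) = (S.card : ℝ) := by rw [Fintype.card_coe]
  have hee : ee (fun u v : S => A u v) univ univ = ee A S S := by
    rw [CLQ_ee, CLQ_univ]
  have hC4 : (4 : ℝ) ≤ (C : ℝ) := by exact_mod_cast (by omega)
  have hCL : (L : ℝ) ≤ (C : ℝ) := by exact_mod_cast (by omega)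
  have hC24 : (24 : ℝ) ≤ (C : ℝ) := by exact_mod_cast (by omega)
  have hLS : ((L : ℝ) * K) ^ L ≤ (Fintype.card S : ℝ) := by
    rw [hcard]
    have a1 : ((L : ℝ) * K) ^ L * (4 * K) ^ M ≤ ((C : ℝ) * K) ^ C := by
      calc ((L : ℝ) * K) ^ L * (4 * K) ^ M ≤ ((C : ℝ) * K) ^ L * ((C : ℝ) * K) ^ M :=
            mul_le_mul (pow_le_pow_left₀ (by positivity)
              (mul_le_mul_of_nonneg_right hCL hK0.le) L)
              (pow_le_pow_left₀ (by positivity)
              (mul_le_mul_of_nonneg_right hC4 hK0.le) M) (by positivity) (by positivity)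
        _ = ((C : ℝ) * K) ^ (L + M) := (pow_add _ _ _).symm
        _ ≤ ((C : ℝ) * K) ^ C := pow_le_pow_right₀ hCK1 (by omega)
    have a2 : ((L : ℝ) * K) ^ L * (4 * K) ^ M ≤ (S.card : ℝ) * (4 * K) ^ M := by
      calc _ ≤ _ := a1
        _ ≤ _ := hW
        _ ≤ _ := hsize
        _ = _ := mul_comm _ _
    exact le_of_mul_le_mul_right a2 (by positivity)
  have hES : (Fintype.card S : ℝ) ^ 2 ≤
      4 * K * ee (fun u v : S => A u v) univ univ := by
    rw [hcard, hee]
    have a1 : 1 / (4 * K) ≤ pS := hpWl.trans hdens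
    rw [hpS, div_le_div_iff₀ (by positivity) (by positivity)] at a1
    linarith
  rcases H S (fun u v : S => A u v) K (CLQ_adj A hA S) (CLQ_low A K hLow S) hK hLS hES with
    ⟨T, hT, hlt⟩ | ⟨Q, hQ, hQc⟩
  · exfalso
    rw [hcard, hee, CLQ_ee] at hlt
    have hT' : T.map (Function.Embedding.subtype _) ∈
        W.powerset.filter (fun S => S.Nonempty) := by
      rw [mem_filter, mem_powerset]
      refine ⟨?_, hT.map⟩
      intro v hv
      rw [mem_map] at hv
      obtain ⟨w, _, rfl⟩ := hv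
      exact hSW w.2
    have h1 := hmax _ hT'
    have h2 : f (T.map (Function.Embedding.subtype _)) =
        (ee A (T.map (Function.Embedding.subtype _)) (T.map (Function.Embedding.subtype _)) /
          (T.card : ℝ) ^ 2) ^ M * (T.card : ℝ) := by
      simp only [f, card_map]
    rw [h2] at h1
    exact absurd hlt (not_lt.mpr h1)
  · refine ⟨Q.map (Function.Embedding.subtype _), ?_, ?_, ?_⟩
    · intro v hv
      rw [mem_map] at hv
      obtain ⟨w, _, rfl⟩ := hv
      exact hSW w.2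
    · intro u hu v hv huv
      rw [mem_map] at hu hv
      obtain ⟨u', hu', rfl⟩ := hu
      obtain ⟨v', hv', rfl⟩ := hv
      exact hQ u' hu' v' hv' (fun e => huv (by rw [e]))
    · rw [card_map]
      rw [hcard] at hQc
      have hK3 : 24 * K ^ 3 ≤ ((C : ℝ) * K) ^ 3 := by
        have b1 : (24 : ℝ) ≤ (C : ℝ) ^ 3 := by
          calc (24 : ℝ) ≤ 24 ^ 3 := by norm_num
            _ ≤ (C : ℝ) ^ 3 := pow_le_pow_left₀ (by norm_num) hC24 3
        rw [mul_pow]
        exact mul_le_mul_of_nonneg_right b1 (by positivity)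
      calc (W.card : ℝ) ≤ (4 * K) ^ M * (S.card : ℝ) := hsize
        _ ≤ (4 * K) ^ M * (24 * K ^ 3 * (Q.card : ℝ)) :=
            mul_le_mul_of_nonneg_left hQc (by positivity)
        _ = ((4 * K) ^ M * (24 * K ^ 3)) * (Q.card : ℝ) := by ring
        _ ≤ ((C : ℝ) * K) ^ C * (Q.card : ℝ) := by
            apply mul_le_mul_of_nonneg_right _ (by positivity)
            calc (4 * K) ^ M * (24 * K ^ 3) ≤ ((C : ℝ) * K) ^ M * ((C : ℝ) * K) ^ 3 :=
                  mul_le_mul (pow_le_pow_left₀ (by positivity)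
                    (mul_le_mul_of_nonneg_right hC4 hK0.le) M) hK3 (by positivity)
                    (by positivity)
              _ = ((C : ℝ) * K) ^ (M + 3) := (pow_add _ _ _).symm
              _ ≤ ((C : ℝ) * K) ^ C := pow_le_pow_right₀ hCK1 (by omega)

end Pool.Agent.HLow
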