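import Pool.Agent.HLow.Targets

set_option autoImplicit false

namespace Pool.Agent.HLow

open Finset

/-- CNT: families of big sets with small intersections -/
theorem p_CNT : T_CNT := by
  intro V _ _ F s κ hs hκ hbig hint hcond
  by_contra hcon
  push Not at hcon
  set N : ℝ := (Fintype.card V : ℝ) with hN
  set q : ℝ := (F.card : ℝ) with hq
  have hN0 : 0 ≤ N := Nat.cast_nonneg _
  have hq0 : 0 ≤ q := Nat.cast_nonneg _
  set S : ℝ := ∑ X ∈ F, (X.card : ℝ) with hS
  have hSq : q * s ≤ S := by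
    rw [hS, hq, ← nsmul_eq_mul, ← Finset.sum_const]
    exact Finset.sum_le_sum hbig
  let d : V → ℝ := fun v => ∑ X ∈ F, if v ∈ X then 1 else 0
  have hSd : S = ∑ v, d v := by
    simp only [d, hS]
    rw [Finset.sum_comm]
    apply Finset.sum_congr rfl
    intro X _
    rw [Finset.sum_ite_mem, Finset.univ_inter, Finset.sum_const, nsmul_eq_mul, mul_one]
  have hd2 : ∑ v, d v ^ 2 = ∑ X ∈ F, ∑ Y ∈ F, ((X ∩ Y).card : ℝ) := by
    have h1 : ∀ v, d v ^ 2 = ∑ X ∈ F, ∑ Y ∈ F, if v ∈ X ∩ Y then (1 : ℝ) else 0 := by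
      intro v
      simp only [d]
      rw [sq, Finset.sum_mul_sum]
      apply Finset.sum_congr rfl
      intro X _
      apply Finset.sum_congr rfl
      intro Y _
      by_cases hX : v ∈ X <;> by_cases hY : v ∈ Y <;> simp [hX, hY]
    rw [Finset.sum_congr rfl fun v _ => h1 v, Finset.sum_comm]
    apply Finset.sum_congr rfl
    intro X _
    rw [Finset.sum_comm]
    apply Finset.sum_congr rfl
    intro Y _
    rw [Finset.sum_ite_mem, Finset.univ_inter, Finset.sum_const, nsmul_eq_mul, mul_one]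
  have hle : ∑ X ∈ F, ∑ Y ∈ F, ((X ∩ Y).card : ℝ) ≤ S + q * (q * κ) := by
    have h1 : ∀ X ∈ F, ∑ Y ∈ F, ((X ∩ Y).card : ℝ) ≤ (X.card : ℝ) + q * κ := by
      intro X hX
      rw [← Finset.add_sum_erase F _ hX, Finset.inter_self]
      have h2 : ∑ Y ∈ F.erase X, ((X ∩ Y).card : ℝ) ≤ ∑ Y ∈ F.erase X, κ :=
        Finset.sum_le_sum fun Y hY =>
          hint X hX Y (Finset.mem_of_mem_erase hY) (Finset.ne_of_mem_erase hY).symm
      rw [Finset.sum_const, nsmul_eq_mul] at h2
      have h3 : ((F.erase X).card : ℝ) ≤ q := by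
        rw [hq]
        exact_mod_cast Finset.card_erase_le
      have h4 : ((F.erase X).card : ℝ) * κ ≤ q * κ := mul_le_mul_of_nonneg_right h3 hκ
      linarith
    have h2 := Finset.sum_le_sum h1
    rw [Finset.sum_add_distrib, Finset.sum_const, nsmul_eq_mul] at h2
    exact h2
  have hCS : S ^ 2 ≤ N * ∑ v, d v ^ 2 := by
    have h1 := sq_sum_le_card_mul_sum_sq (s := (univ : Finset V)) (f := d)
    rw [Finset.card_univ, ← hSd] at h1
    exact h1
  rw [hd2] at hCS
  have h1 : S ^ 2 ≤ N * (S + q * (q * κ)) :=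
    le_trans hCS (mul_le_mul_of_nonneg_left hle hN0)
  have hS2 : 2 * N < S := lt_of_lt_of_le hcon hSq
  have hq1 : 0 < q := by
    rcases hq0.lt_or_eq with h | h
    · exact h
    · rw [← h, zero_mul] at hcon
      linarith
  have h2 : S ^ 2 ≤ 2 * N * q ^ 2 * κ := by nlinarith
  have h3 : (q * s) ^ 2 ≤ S ^ 2 := pow_le_pow_left₀ (mul_nonneg hq0 hs) hSq 2
  have h4 : q ^ 2 * s ^ 2 ≤ q ^ 2 * (2 * κ * N) := by nlinarith
  have h5 : s ^ 2 ≤ 2 * κ * N := le_of_mul_le_mul_left h4 (by positivity)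
  linarith

end Pool.Agent.HLow
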