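import Pool.Agent.HLow.Targets

set_option autoImplicit false

/-!
# Assembly of part III (MP_ac065a_co)
-/

namespace Pool.Agent.HLow

open Finset

/-- the real arithmetic of COMB -/
theorem COMB_num (E N Δ K M : ℝ) (hE : 1 ≤ E) (hN : 1 ≤ N) (hK : 1 ≤ K) (hM : 1 ≤ M)
    (hΔ : 0 ≤ Δ) (hEN : E ≤ N * Δ)
    (h : E < 8 * 10 ^ 12 * K ^ 4 * M * N ∨ (E / (8 * 10 ^ 9 * N * M)) ^ 2 ≤ 24 * K ^ 2 * N ∨
      E * (E / (8 * 10 ^ 9 * N * M)) ^ 2 ≤ 4800 * K ^ 2 * N ^ 2 * Δ) :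
    E ^ 3 ≤ 10 ^ 26 * K ^ 8 * M ^ 2 * Δ * N ^ 4 := by
  have hK0 : 0 < K := by linarith
  have hN0 : 0 < N := by linarith
  have hM0 : 0 < M := by linarith
  have hE0 : 0 < E := by linarith
  have hK2 : K ^ 2 ≤ K ^ 8 := pow_le_pow_right₀ hK (by norm_num)
  have hN3 : N ^ 3 ≤ N ^ 4 := pow_le_pow_right₀ hN (by norm_num)
  rcases h with h | h | h
  · have h1 : E ^ 2 ≤ (8 * 10 ^ 12 * K ^ 4 * M * N) ^ 2 := pow_le_pow_left₀ hE0.le h.le 2
    calc E ^ 3 = E ^ 2 * E := by ring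
      _ ≤ (8 * 10 ^ 12 * K ^ 4 * M * N) ^ 2 * (N * Δ) := by
          apply mul_le_mul h1 hEN hE0.le (by positivity)
      _ = (64 * 10 ^ 24 * K ^ 8 * M ^ 2 * Δ) * N ^ 3 := by ring
      _ ≤ (64 * 10 ^ 24 * K ^ 8 * M ^ 2 * Δ) * N ^ 4 := by
          apply mul_le_mul_of_nonneg_left hN3 (by positivity)
      _ ≤ 10 ^ 26 * K ^ 8 * M ^ 2 * Δ * N ^ 4 := by
          have : 0 ≤ K ^ 8 * M ^ 2 * Δ * N ^ 4 := by positivity
          nlinarith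
  · have h0 : (0 : ℝ) < 8 * 10 ^ 9 * N * M := by positivity
    rw [div_pow, div_le_iff₀ (by positivity)] at h
    calc E ^ 3 = E ^ 2 * E := by ring
      _ ≤ (24 * K ^ 2 * N * (8 * 10 ^ 9 * N * M) ^ 2) * (N * Δ) := by
          apply mul_le_mul h hEN hE0.le (by positivity)
      _ = K ^ 2 * (1536 * 10 ^ 18 * M ^ 2 * Δ * N ^ 4) := by ring
      _ ≤ K ^ 8 * (1536 * 10 ^ 18 * M ^ 2 * Δ * N ^ 4) := by
          apply mul_le_mul_of_nonneg_right hK2 (by positivity)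
      _ ≤ 10 ^ 26 * K ^ 8 * M ^ 2 * Δ * N ^ 4 := by
          have : 0 ≤ K ^ 8 * M ^ 2 * Δ * N ^ 4 := by positivity
          nlinarith
  · have h0 : (0 : ℝ) < 8 * 10 ^ 9 * N * M := by positivity
    rw [div_pow, ← mul_div_assoc, div_le_iff₀ (by positivity)] at h
    calc E ^ 3 = E * E ^ 2 := by ring
      _ ≤ 4800 * K ^ 2 * N ^ 2 * Δ * (8 * 10 ^ 9 * N * M) ^ 2 := h
      _ = K ^ 2 * (307200 * 10 ^ 18 * M ^ 2 * Δ * N ^ 4) := by ring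
      _ ≤ K ^ 8 * (307200 * 10 ^ 18 * M ^ 2 * Δ * N ^ 4) := by
          apply mul_le_mul_of_nonneg_right hK2 (by positivity)
      _ ≤ 10 ^ 26 * K ^ 8 * M ^ 2 * Δ * N ^ 4 := by
          have : 0 ≤ K ^ 8 * M ^ 2 * Δ * N ^ 4 := by positivity
          nlinarith

/-- the constant -/
theorem COMB_const (L : ℕ) (hL : 1 ≤ L) (K : ℝ) (hK : 1 ≤ K) :
    10 ^ 26 * K ^ 8 * (((L : ℝ) * K) ^ L) ^ 2 ≤
      (((2 * L + 26 : ℕ) : ℝ) * K) ^ (2 * L + 26) := by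
  have hL1 : (1 : ℝ) ≤ L := by exact_mod_cast hL
  have hK0 : 0 < K := by linarith
  have e1 : (((2 * L + 26 : ℕ) : ℝ) * K) ^ (2 * L + 26) =
      (((2 * L + 26 : ℕ) : ℝ)) ^ 26 * (((2 * L + 26 : ℕ) : ℝ)) ^ (2 * L) * (K ^ 26 * K ^ (2 * L)) := by
    rw [mul_pow, pow_add, pow_add]
    ring
  have e2 : 10 ^ 26 * K ^ 8 * (((L : ℝ) * K) ^ L) ^ 2 =
      10 ^ 26 * (L : ℝ) ^ (2 * L) * (K ^ 8 * K ^ (2 * L)) := by
    rw [← pow_mul, mul_pow, mul_comm L 2]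
    ring
  rw [e1, e2]
  have h1 : (10 : ℝ) ≤ ((2 * L + 26 : ℕ) : ℝ) := by push_cast; linarith
  have h2 : (L : ℝ) ≤ ((2 * L + 26 : ℕ) : ℝ) := by push_cast; linarith
  have h3 : K ^ 8 ≤ K ^ 26 := pow_le_pow_right₀ hK (by norm_num)
  gcongr

/-- COMB -/
theorem p_COMB (hCLQ : T_CLQ) (hSTAR : T_STAR) (hBR : T_BR) (hCORE : T_CORE) : T_COMB := by
  obtain ⟨L, hL, hclq⟩ := hCLQ
  refine ⟨2 * L + 26, by omega, ?_⟩
  intro V _ _ a pos K Δ hD hK hlow hΔ himb hE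
  have hK0 : 0 < K := by linarith
  have hL1 : (1 : ℝ) ≤ L := by exact_mod_cast hL
  have hAdj := hD.adj
  -- basic facts
  have hne : Nonempty V := by
    by_contra hne
    rw [not_nonempty_iff] at hne
    rw [Finset.univ_eq_empty, Finset.sum_empty] at hE
    linarith
  have hN : (1 : ℝ) ≤ (Fintype.card V : ℝ) := by exact_mod_cast Fintype.card_pos
  have hdp : ∀ u, 0 ≤ dp a u := fun u => Finset.sum_nonneg fun v _ => hD.nonneg u v
  have hdm : ∀ u, 0 ≤ dm a u := fun u => Finset.sum_nonneg fun v _ => hD.nonneg v u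
  have hΔ0 : 0 ≤ Δ := by
    obtain ⟨u⟩ := hne
    linarith [hΔ u, hdp u, hdm u]
  have hEN : ∑ u, dp a u ≤ (Fintype.card V : ℝ) * Δ := by
    calc ∑ u, dp a u ≤ ∑ _u : V, Δ := Finset.sum_le_sum fun u _ => by linarith [hΔ u, hdm u]
      _ = (Fintype.card V : ℝ) * Δ := by
          rw [Finset.sum_const, Finset.card_univ, nsmul_eq_mul]
  obtain ⟨E, hEdef⟩ : ∃ E, E = ∑ u, dp a u := ⟨_, rfl⟩
  obtain ⟨N, hNdef⟩ : ∃ N : ℝ, N = (Fintype.card V : ℝ) := ⟨_, rfl⟩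
  obtain ⟨M, hMdef⟩ : ∃ M : ℝ, M = ((L : ℝ) * K) ^ L := ⟨_, rfl⟩
  have hM1 : 1 ≤ M := by
    rw [hMdef]
    exact one_le_pow₀ (by nlinarith)
  have hN0 : 0 < N := by rw [hNdef]; linarith
  have hM0 : 0 < M := by linarith
  have hE0 : 0 < E := by rw [hEdef]; linarith
  have key : E < 8 * 10 ^ 12 * K ^ 4 * M * N ∨
      (E / (8 * 10 ^ 9 * N * M)) ^ 2 ≤ 24 * K ^ 2 * N ∨
      E * (E / (8 * 10 ^ 9 * N * M)) ^ 2 ≤ 4800 * K ^ 2 * N ^ 2 * Δ := by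
    by_cases hi : E < 8 * 10 ^ 12 * K ^ 4 * M * N
    · exact Or.inl hi
    right
    by_cases hii : (E / (8 * 10 ^ 9 * N * M)) ^ 2 ≤ 24 * K ^ 2 * N
    · exact Or.inl hii
    right
    rw [not_lt] at hi
    rw [not_le] at hii
    obtain ⟨d1, hd1⟩ : ∃ d1, d1 = E / (1000 * N) := ⟨_, rfl⟩
    obtain ⟨d0, hd0⟩ : ∃ d0, d0 = E / (8 * 10 ^ 9 * N) := ⟨_, rfl⟩
    obtain ⟨s, hs⟩ : ∃ s, s = E / (8 * 10 ^ 9 * N * M) := ⟨_, rfl⟩
    have hd10 : (1 / 10 ^ 6 : ℝ) * d1 = 8 * d0 := by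
      rw [hd1, hd0]
      field_simp
      norm_num
    have hsd : s = d0 / M := by
      rw [hs, hd0, div_div]
    have hd0b : 1000 * K ^ 4 * M ≤ d0 := by
      rw [hd0, le_div_iff₀ (by positivity)]
      calc 1000 * K ^ 4 * M * (8 * 10 ^ 9 * N) = 8 * 10 ^ 12 * K ^ 4 * M * N := by ring
        _ ≤ E := hi
    have hK4 : 1 ≤ K ^ 4 := one_le_pow₀ hK
    have hK24 : K ^ 2 ≤ K ^ 4 := pow_le_pow_right₀ hK (by norm_num)
    have hd0M : M ≤ d0 := by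
      refine le_trans ?_ hd0b
      nlinarith
    have hd0K : 1000 * K ^ 4 ≤ d0 := by
      refine le_trans ?_ hd0b
      nlinarith
    have hd00 : 0 < d0 := by linarith
    have hs1 : 1000 * K ^ 4 ≤ s := by
      rw [hsd, le_div_iff₀ hM0]
      exact hd0b
    have hbr := hBR V (sy a) K d0 d1 s (1 / 10 ^ 6) hAdj hlow hK hd00.le (by norm_num) ?_ hs1
      (by rw [← hNdef]; rw [hs]; exact hii) (by nlinarith) (by rw [hd10]; linarith)
    · have hcore := hCORE V a pos d1 hD (by rw [hd1]; positivity) himb ?_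
      · rw [← hEdef] at hcore
        have h5 : ∑ u ∈ Br (sy a) (1 / 10 ^ 6) d1, (dp a u + dm a u) ≤
            ((Br (sy a) (1 / 10 ^ 6) d1).card : ℝ) * Δ := by
          have := Finset.sum_le_card_nsmul (Br (sy a) (1 / 10 ^ 6) d1)
            (fun u => dp a u + dm a u) Δ (fun u _ => hΔ u)
          rwa [nsmul_eq_mul] at this
        rw [← hNdef] at hbr
        rw [← hs]
        have h6 : E ≤ 100 * (((Br (sy a) (1 / 10 ^ 6) d1).card : ℝ) * Δ) := by linarith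
        calc E * s ^ 2 ≤ 100 * (((Br (sy a) (1 / 10 ^ 6) d1).card : ℝ) * Δ) * s ^ 2 :=
              mul_le_mul_of_nonneg_right h6 (by positivity)
          _ = 100 * Δ * (((Br (sy a) (1 / 10 ^ 6) d1).card : ℝ) * s ^ 2) := by ring
          _ ≤ 100 * Δ * (48 * K ^ 2 * N ^ 2) :=
              mul_le_mul_of_nonneg_left hbr (by positivity)
          _ = 4800 * K ^ 2 * N ^ 2 * Δ := by ring
      · rw [← hNdef, ← hEdef, hd1]
        apply le_of_eq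
        field_simp
    · intro u W hW hWc
      have h7 := hSTAR V (sy a) K hAdj hlow hK u W hW (by linarith)
      have hee : 0 ≤ ee (sy a) W W := ee_nonneg hAdj W W
      obtain ⟨Q, hQ1, hQ2, hQ3⟩ := hclq V (sy a) K hAdj hlow hK W
        (by rw [← hMdef]; linarith) (by nlinarith)
      refine ⟨Q, hQ1, hQ2, ?_⟩
      rw [← hMdef] at hQ3
      rw [hsd, div_le_iff₀ hM0]
      nlinarith
  have hnum := COMB_num E N Δ K M (by rw [hEdef]; exact hE) (by rw [hNdef]; exact hN) hK hM1 hΔ0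
    (by rw [hEdef, hNdef]; exact hEN) key
  have hc := COMB_const L hL K hK
  rw [← hMdef] at hc
  rw [← hEdef, ← hNdef]
  calc E ^ 3 ≤ 10 ^ 26 * K ^ 8 * M ^ 2 * Δ * N ^ 4 := hnum
    _ = (10 ^ 26 * K ^ 8 * M ^ 2) * (Δ * N ^ 4) := by ring
    _ ≤ (((2 * L + 26 : ℕ) : ℝ) * K) ^ (2 * L + 26) * (Δ * N ^ 4) :=
        mul_le_mul_of_nonneg_right hc (by positivity)
    _ = (((2 * L + 26 : ℕ) : ℝ) * K) ^ (2 * L + 26) * Δ * N ^ 4 := by ring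

end Pool.Agent.HLow
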