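import Mathlib
import Pool.Agent.HLow.Targets

set_option autoImplicit false

namespace Pool.Agent.HLow

open Finset

theorem COMBU_sum {V : Type} [Fintype V] [DecidableEq V] (U : Finset V) (f : V → ℝ)
    (hf : ∀ u, u ∉ U → f u = 0) : ∑ u, f u = ∑ u ∈ U, f u := by
  symm
  apply Finset.sum_subset (Finset.subset_univ U)
  intro x _ hx
  exact hf x hx

theorem p_COMBU (hC : T_COMB) : T_COMBU := by
  obtain ⟨C, hC1, hC⟩ := hC
  refine ⟨C, hC1, ?_⟩
  intro V _ _ a pos U K Δ hzo hlt hinj hK hlow hdeg himb hone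
  have hnn : ∀ u v, 0 ≤ a u v := by
    intro u v
    rcases hzo u v with e | e <;> rw [e] <;> norm_num
  have hs1 : ∀ g : V → ℝ, ∑ i : {x // x ∈ U}, g i = ∑ i ∈ U, g i := fun g =>
    Finset.sum_coe_sort U g
  have hs2 : ∀ g : V → V → ℝ, ∑ i : {x // x ∈ U}, ∑ j : {x // x ∈ U}, g i j
      = ∑ i ∈ U, ∑ j ∈ U, g i j := by
    intro g
    rw [← hs1 (fun i => ∑ j ∈ U, g i j)]
    exact Finset.sum_congr rfl fun i _ => hs1 (fun j => g i j)
  have h := hC {x // x ∈ U} (fun u v => a u v) (fun u => pos u) K Δ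
    ⟨fun u v => hzo u v, fun u v => hlt u v, ?_⟩ hK ?_ ?_ ?_ ?_
  · have e1 : ∑ u : {x // x ∈ U}, dp (fun u v : {x // x ∈ U} => a u v) u
        = ∑ u ∈ U, ∑ v ∈ U, a u v := hs2 a
    rw [e1] at h
    have e2 : Fintype.card {x // x ∈ U} = U.card := Fintype.card_coe U
    rw [e2] at h
    exact h
  · intro u v huv
    exact Subtype.ext (hinj u u.2 v v.2 huv)
  · intro x
    have h1 := hlow (fun v => if hv : v ∈ U then x ⟨v, hv⟩ else 0) (by
      intro u hu
      simp [hu])
    have e1 : ∑ u, (fun v => if hv : v ∈ U then x ⟨v, hv⟩ else 0) u ^ 2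
        = ∑ u : {x // x ∈ U}, x u ^ 2 := by
      rw [COMBU_sum U _ (by intro u hu; simp [hu]), ← hs1]
      apply Finset.sum_congr rfl
      intro u _
      simp
    have e2 : ∑ u, ∑ v, sy a u v * ((fun v => if hv : v ∈ U then x ⟨v, hv⟩ else 0) u *
        (fun v => if hv : v ∈ U then x ⟨v, hv⟩ else 0) v)
        = ∑ u : {x // x ∈ U}, ∑ v : {x // x ∈ U},
          sy (fun u v : {x // x ∈ U} => a u v) u v * (x u * x v) := by
      rw [COMBU_sum U _ (by intro u hu; simp [hu])]
      rw [← hs1]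
      apply Finset.sum_congr rfl
      intro u _
      rw [COMBU_sum U _ (by intro u hu; simp [hu])]
      rw [← hs1]
      apply Finset.sum_congr rfl
      intro v _
      simp [sy]
    rw [e1, e2] at h1
    exact h1
  · intro u
    refine le_trans ?_ (hdeg u u.2)
    unfold dp dm
    have e1 : ∑ v : {x // x ∈ U}, a u v ≤ ∑ v, a u v := by
      rw [hs1 (fun v => a u v)]
      exact Finset.sum_le_sum_of_subset_of_nonneg (Finset.subset_univ U)
        (fun i _ _ => hnn u i)
    have e2 : ∑ v : {x // x ∈ U}, a v u ≤ ∑ v, a v u := by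
      rw [hs1 (fun v => a v u)]
      exact Finset.sum_le_sum_of_subset_of_nonneg (Finset.subset_univ U)
        (fun i _ _ => hnn i u)
    exact add_le_add e1 e2
  · have e1 : ∑ u : {x // x ∈ U}, dp (fun u v : {x // x ∈ U} => a u v) u
        = ∑ u ∈ U, ∑ v ∈ U, a u v := hs2 a
    rw [e1]
    refine le_trans (le_of_eq ?_) himb
    rw [← hs1 (fun u => |∑ v ∈ U, a u v - ∑ v ∈ U, a v u|)]
    apply Finset.sum_congr rfl
    intro u _
    unfold dp dm
    rw [hs1 (fun v => a u v), hs1 (fun v => a v u)]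
  · have e1 : ∑ u : {x // x ∈ U}, dp (fun u v : {x // x ∈ U} => a u v) u
        = ∑ u ∈ U, ∑ v ∈ U, a u v := hs2 a
    rw [e1]
    exact hone

end Pool.Agent.HLow
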