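import Pool.Agent.HLow.Targets

set_option autoImplicit false

/-!
# Counting in the ordered graph (job HLO-CORE)
-/

namespace Pool.Agent.HLow

open Finset

theorem CORE_sum {V : Type} [Fintype V] (a : V → V → ℝ) : ∑ u, dm a u = ∑ u, dp a u := by
  unfold dm dp
  exact Finset.sum_comm

theorem p_CORE (hA : T_COREA) (hB : T_COREB) (hC : T_COREC) : T_CORE := by
  intro V _ _ a pos d1 hD hd1 himb hN
  classical
  by_contra hcon
  push Not at hcon
  set E : ℝ := ∑ u, dp a u with hE
  have hdp0 : ∀ u, 0 ≤ dp a u := fun u => Finset.sum_nonneg fun v _ => hD.nonneg u v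
  have hdm0 : ∀ u, 0 ≤ dm a u := fun u => Finset.sum_nonneg fun v _ => hD.nonneg v u
  set D : V → ℝ := fun u => dp a u + dm a u with hDdef
  have hD0 : ∀ u, 0 ≤ D u := fun u => add_nonneg (hdp0 u) (hdm0 u)
  have hE0 : 0 ≤ E := Finset.sum_nonneg fun u _ => hdp0 u
  have hsumD : ∑ u, D u = 2 * E := by
    simp only [hDdef, Finset.sum_add_distrib, CORE_sum]
    rw [← hE]; ring
  have hadj := hD.adj
  have hnb : ∀ u, ((nb (sy a) u).card : ℝ) = D u := fun u => by
    rw [← hadj.deg u, sy_deg]
  set B := Br (sy a) (1 / 10 ^ 6) d1 with hBr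
  have hEpos : 0 < E := by
    rcases hE0.lt_or_eq with h | h
    · exact h
    · exfalso
      rw [← h, zero_div] at hcon
      exact absurd hcon (not_lt.2 (Finset.sum_nonneg fun u _ => hD0 u))
  -- the sets
  set Tt : Finset V := univ.filter (fun u => d1 ≤ D u ∧ u ∉ B) with hTt
  set Bal : Finset V := univ.filter (fun u => |dp a u - dm a u| ≤ D u / 20) with hBal
  have h1 : ∑ u ∈ univ.filter (fun u => u ∉ Tt), D u ≤ 11 / 1000 * E := by
    have e1 : ∑ u ∈ univ.filter (fun u => u ∉ Tt), D u ≤ ∑ u ∈ B, D u + ∑ _u : V, d1 := by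
      calc ∑ u ∈ univ.filter (fun u => u ∉ Tt), D u
          = ∑ u : V, if u ∉ Tt then D u else 0 := by rw [Finset.sum_filter]
        _ ≤ ∑ u : V, ((if u ∈ B then D u else 0) + d1) := by
            refine Finset.sum_le_sum fun u _ => ?_
            have hDu := hD0 u
            by_cases hT : u ∈ Tt
            · rw [if_neg (not_not.2 hT)]
              have : (0 : ℝ) ≤ if u ∈ B then D u else 0 := by
                by_cases hu : u ∈ B
                · rw [if_pos hu]; exact hDu
                · rw [if_neg hu]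
              linarith
            · rw [if_pos hT]
              by_cases hu : u ∈ B
              · rw [if_pos hu]; linarith
              · rw [if_neg hu, zero_add]
                by_contra h'
                push Not at h'
                exact hT (by rw [hTt, Finset.mem_filter]; exact ⟨Finset.mem_univ _, h'.le, hu⟩)
        _ = ∑ u ∈ B, D u + ∑ _u : V, d1 := by
            rw [Finset.sum_add_distrib, Finset.sum_ite_mem, Finset.univ_inter]
    have e2 : ∑ _u : V, d1 = (Fintype.card V : ℝ) * d1 := by
      rw [Finset.sum_const, Finset.card_univ, nsmul_eq_mul]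
    rw [e2] at e1
    have e3 : ∑ u ∈ B, D u < E / 100 := hcon
    linarith
  have h2 : ∑ u ∈ univ.filter (fun u => u ∉ Bal), D u ≤ 20 / 1000 * E := by
    have e1 : ∑ u ∈ univ.filter (fun u => u ∉ Bal), D u ≤ ∑ u : V, 20 * |dp a u - dm a u| := by
      rw [Finset.sum_filter]
      refine Finset.sum_le_sum fun u _ => ?_
      by_cases h : u ∈ Bal
      · rw [if_neg (not_not.2 h)]
        positivity
      · rw [if_pos h]
        by_contra h'
        push Not at h'
        exact h (by
          rw [hBal, Finset.mem_filter]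
          exact ⟨Finset.mem_univ _, by linarith⟩)
    rw [← Finset.mul_sum] at e1
    linarith
  -- the last half of the out-neighbours
  set L : V → Finset V := fun u => univ.filter (fun v => a u v ≠ 0 ∧
    dp a u ≤ 2 * ((univ.filter (fun z => a u z ≠ 0 ∧ pos z < pos v)).card : ℝ) + 1) with hL
  have hLc : ∀ u, dp a u / 2 ≤ ((L u).card : ℝ) := fun u => hC V a pos hD u
  -- lower bound
  set P : ℝ := ∑ u ∈ Tt ∩ Bal, ((L u).card : ℝ) with hP
  have hPlow : 4 / 10 * E ≤ P := by
    have e1 : ∑ u ∈ Tt ∩ Bal, (19 / 80) * D u ≤ P := by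
      refine Finset.sum_le_sum fun u hu => ?_
      have hub := (Finset.mem_filter.1 (Finset.mem_inter.1 hu).2).2
      have e2 := abs_le.1 hub
      have e3 := hLc u
      have e4 : D u = dp a u + dm a u := rfl
      have : dm a u - dp a u ≤ D u / 20 := by linarith [e2.1]
      linarith
    have e5 : 2 * E ≤ ∑ u ∈ Tt ∩ Bal, D u + 11 / 1000 * E + 20 / 1000 * E := by
      rw [← hsumD]
      calc ∑ u, D u ≤ ∑ u : V, ((if u ∈ Tt ∩ Bal then D u else 0) +
            (if u ∉ Tt then D u else 0) + (if u ∉ Bal then D u else 0)) := by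
            refine Finset.sum_le_sum fun u _ => ?_
            by_cases hu1 : u ∈ Tt
            · by_cases hu2 : u ∈ Bal
              · rw [if_pos (Finset.mem_inter.2 ⟨hu1, hu2⟩)]
                simp [hu1, hu2]
              · have : u ∉ Tt ∩ Bal := fun h => hu2 (Finset.mem_inter.1 h).2
                rw [if_neg this]
                simp [hu1, hu2]
            · have : u ∉ Tt ∩ Bal := fun h => hu1 (Finset.mem_inter.1 h).1
              rw [if_neg this, if_pos hu1]
              have := hD0 u
              split_ifs <;> linarith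
        _ = ∑ u ∈ Tt ∩ Bal, D u + ∑ u ∈ univ.filter (fun u => u ∉ Tt), D u +
            ∑ u ∈ univ.filter (fun u => u ∉ Bal), D u := by
            rw [Finset.sum_add_distrib, Finset.sum_add_distrib, Finset.sum_ite_mem,
              Finset.univ_inter, Finset.sum_filter, Finset.sum_filter]
        _ ≤ ∑ u ∈ Tt ∩ Bal, D u + 11 / 1000 * E + 20 / 1000 * E := by linarith
    rw [← Finset.mul_sum] at e1
    linarith
  -- upper bound
  set F : V → Finset V := fun u => (nb (sy a) u).filter (fun v =>
    ((nb (sy a) u ∩ nb (sy a) v).card : ℝ) < (1 - 1 / 1000) * ((nb (sy a) u).card : ℝ)) with hF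
  have hFc : ∀ u ∈ Tt, ((F u).card : ℝ) ≤ 1 / 1000 * D u := by
    intro u hu
    have hu' := (Finset.mem_filter.1 hu).2
    have e1 : (1 - 1 / 10 ^ 6) * ((nb (sy a) u).card : ℝ) ^ 2 ≤
        ee (sy a) (nb (sy a) u) (nb (sy a) u) := by
      by_contra h
      push Not at h
      refine hu'.2 ?_
      rw [hBr]
      unfold Br
      rw [Finset.mem_filter]
      exact ⟨Finset.mem_univ _, by rw [hnb]; exact hu'.1, h.le⟩
    have e2 := hB V (sy a) hadj u e1
    rw [← hnb u]
    exact e2
  have hpt : ∀ u v : V, (if u ∈ Tt ∩ Bal ∧ v ∈ L u then (1 : ℝ) else 0) ≤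
      (if v ∉ Bal then a u v else 0) + (if v ∉ Tt then a u v else 0) +
      (if u ∈ Tt ∧ v ∈ F u then 1 else 0) + (if v ∈ Tt ∧ u ∈ F v then 1 else 0) := by
    intro u v
    have z1 : (0 : ℝ) ≤ (if v ∉ Bal then a u v else 0) := by
      by_cases h : v ∈ Bal
      · rw [if_neg (not_not.2 h)]
      · rw [if_pos h]; exact hD.nonneg u v
    have z2 : (0 : ℝ) ≤ (if v ∉ Tt then a u v else 0) := by
      by_cases h : v ∈ Tt
      · rw [if_neg (not_not.2 h)]
      · rw [if_pos h]; exact hD.nonneg u v
    have z3 : (0 : ℝ) ≤ (if u ∈ Tt ∧ v ∈ F u then 1 else 0) := by split_ifs <;> norm_num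
    have z4 : (0 : ℝ) ≤ (if v ∈ Tt ∧ u ∈ F v then 1 else 0) := by split_ifs <;> norm_num
    by_cases hI : u ∈ Tt ∩ Bal ∧ v ∈ L u
    · rw [if_pos hI]
      obtain ⟨huTB, hv⟩ := hI
      obtain ⟨huT, huB⟩ := Finset.mem_inter.1 huTB
      obtain ⟨-, hav, hlast⟩ := Finset.mem_filter.1 hv
      have hav1 : a u v = 1 := (hD.zo u v).resolve_left hav
      have hbal := (Finset.mem_filter.1 huB).2
      have hvu : v ∈ nb (sy a) u := by
        rw [mem_nb]
        unfold sy
        rw [hav1, hD.anti u v hav]; norm_num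
      have huv : u ∈ nb (sy a) v := by
        rw [mem_nb]
        unfold sy
        rw [hav1, hD.anti u v hav]; norm_num
      by_cases hvB : v ∈ Bal
      · have hvb := (Finset.mem_filter.1 hvB).2
        by_cases c1 : (1 - 1 / 1000) * (dp a u + dm a u) ≤
            ((nb (sy a) u ∩ nb (sy a) v).card : ℝ)
        · by_cases c2 : (1 - 1 / 1000) * (dp a v + dm a v) ≤
              ((nb (sy a) u ∩ nb (sy a) v).card : ℝ)
          · exact absurd (hA V a pos hD u v hav hbal hlast c1 c2) (not_lt.2 hvb)
          · by_cases hvT : v ∈ Tt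
            · have : u ∈ F v := by
                rw [hF, Finset.mem_filter, hnb, Finset.inter_comm]
                exact ⟨huv, not_le.1 c2⟩
              rw [if_pos (⟨hvT, this⟩ : v ∈ Tt ∧ u ∈ F v)]
              linarith
            · rw [if_pos hvT]
              linarith
        · have : v ∈ F u := by
            rw [hF, Finset.mem_filter, hnb]
            exact ⟨hvu, not_le.1 c1⟩
          rw [if_pos (⟨huT, this⟩ : u ∈ Tt ∧ v ∈ F u)]
          linarith
      · rw [if_pos hvB]
        linarith
    · rw [if_neg hI]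
      linarith
  have hPup : P ≤ 20 / 1000 * E + 11 / 1000 * E + 2 / 1000 * E + 2 / 1000 * E := by
    have e0 : P = ∑ u : V, ∑ v : V, (if u ∈ Tt ∩ Bal ∧ v ∈ L u then (1 : ℝ) else 0) := by
      rw [hP, ← Finset.univ_inter (Tt ∩ Bal), ← Finset.sum_ite_mem]
      refine Finset.sum_congr rfl fun u _ => ?_
      by_cases hu : u ∈ Tt ∩ Bal
      · rw [if_pos hu]
        simp [hu]
      · rw [if_neg hu]
        simp [hu]
    have e1 : ∑ u : V, ∑ v : V, (if v ∉ Bal then a u v else 0) ≤ 20 / 1000 * E := by
      rw [Finset.sum_comm]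
      refine le_trans ?_ h2
      rw [Finset.sum_filter]
      refine Finset.sum_le_sum fun v _ => ?_
      by_cases hv : v ∈ Bal
      · simp [hv]
      · simp only [hv, not_false_eq_true, if_true]
        have : dm a v ≤ D v := by linarith [hdp0 v, show D v = dp a v + dm a v from rfl]
        exact this
    have e2 : ∑ u : V, ∑ v : V, (if v ∉ Tt then a u v else 0) ≤ 11 / 1000 * E := by
      rw [Finset.sum_comm]
      refine le_trans ?_ h1
      rw [Finset.sum_filter]
      refine Finset.sum_le_sum fun v _ => ?_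
      by_cases hv : v ∈ Tt
      · simp [hv]
      · simp only [hv, not_false_eq_true, if_true]
        have : dm a v ≤ D v := by linarith [hdp0 v, show D v = dp a v + dm a v from rfl]
        exact this
    have e3 : ∑ u : V, ∑ v : V, (if u ∈ Tt ∧ v ∈ F u then (1 : ℝ) else 0) ≤ 2 / 1000 * E := by
      calc ∑ u : V, ∑ v : V, (if u ∈ Tt ∧ v ∈ F u then (1 : ℝ) else 0)
          ≤ ∑ u : V, 1 / 1000 * D u := by
            refine Finset.sum_le_sum fun u _ => ?_
            by_cases hu : u ∈ Tt
            · simp only [hu, true_and]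
              rw [Finset.sum_ite_mem, Finset.univ_inter, Finset.sum_const, nsmul_eq_mul, mul_one]
              exact hFc u hu
            · simp only [hu, false_and, if_false, Finset.sum_const_zero]
              have := hD0 u
              positivity
        _ = 2 / 1000 * E := by rw [← Finset.mul_sum, hsumD]; ring
    have e4 : ∑ u : V, ∑ v : V, (if v ∈ Tt ∧ u ∈ F v then (1 : ℝ) else 0) ≤ 2 / 1000 * E := by
      rw [Finset.sum_comm]
      exact e3
    calc P = ∑ u : V, ∑ v : V, (if u ∈ Tt ∩ Bal ∧ v ∈ L u then (1 : ℝ) else 0) := e0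
      _ ≤ ∑ u : V, ∑ v : V, ((if v ∉ Bal then a u v else 0) + (if v ∉ Tt then a u v else 0) +
          (if u ∈ Tt ∧ v ∈ F u then 1 else 0) + (if v ∈ Tt ∧ u ∈ F v then 1 else 0)) :=
          Finset.sum_le_sum fun u _ => Finset.sum_le_sum fun v _ => hpt u v
      _ = ∑ u : V, ∑ v : V, (if v ∉ Bal then a u v else 0) +
          ∑ u : V, ∑ v : V, (if v ∉ Tt then a u v else 0) +
          ∑ u : V, ∑ v : V, (if u ∈ Tt ∧ v ∈ F u then (1 : ℝ) else 0) +
          ∑ u : V, ∑ v : V, (if v ∈ Tt ∧ u ∈ F v then (1 : ℝ) else 0) := by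
          simp only [Finset.sum_add_distrib]
      _ ≤ _ := by linarith
  linarith

end Pool.Agent.HLow
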