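import Pool.Agent.HLow.Targets

set_option autoImplicit false

namespace Pool.Agent.HLow

open Finset

lemma COREA_card {V : Type} [Fintype V] (f : V → ℝ) (h : ∀ z, f z = 0 ∨ f z = 1) :
    ∑ z, f z = ((univ.filter (fun z => f z ≠ 0)).card : ℝ) := by
  rw [Finset.card_filter]
  push_cast
  refine sum_congr rfl fun z _ => ?_
  rcases h z with e | e <;> simp [e]

theorem p_COREA : T_COREA := by
  intro V _ _ a pos hD u v huv hbal hrank hcu hcv
  -- out- and in-neighbourhoods
  have hdp : dp a u = ((univ.filter (fun z => a u z ≠ 0)).card : ℝ) :=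
    COREA_card _ fun z => hD.zo u z
  have hdmu : dm a u = ((univ.filter (fun z => a z u ≠ 0)).card : ℝ) :=
    COREA_card _ fun z => hD.zo z u
  have hdmv : dm a v = ((univ.filter (fun z => a z v ≠ 0)).card : ℝ) :=
    COREA_card _ fun z => hD.zo z v
  have hdu : ((nb (sy a) u).card : ℝ) = dp a u + dm a u := by
    rw [← hD.adj.deg u, sy_deg]
  have hsy : ∀ x z, z ∈ nb (sy a) x ↔ (a x z ≠ 0 ∨ a z x ≠ 0) := by
    intro x z
    rw [mem_nb]
    unfold sy
    constructor
    · intro h
      by_contra hcon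
      push Not at hcon
      exact h (by rw [hcon.1, hcon.2]; norm_num)
    · intro h hs
      have h1 := hD.nonneg x z
      have h2 := hD.nonneg z x
      rcases h with h | h
      · exact h (by linarith)
      · exact h (by linarith)
  set R := univ.filter (fun z => a u z ≠ 0 ∧ pos z < pos v) with hR
  set Mu := univ.filter (fun z => a z u ≠ 0) with hMu
  set Mv := univ.filter (fun z => a z v ≠ 0) with hMv
  have hdisj : Disjoint R Mu := by
    rw [Finset.disjoint_left]
    intro z hz hz'
    rw [hR, mem_filter] at hz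
    rw [hMu, mem_filter] at hz'
    exact hz'.2 (hD.anti u z hz.2.1)
  have hcardRM : ((R ∪ Mu).card : ℝ) = R.card + Mu.card := by
    rw [card_union_of_disjoint hdisj]
    push_cast
    ring
  have hsub : R ∪ Mu ⊆ nb (sy a) u := by
    intro z hz
    rw [hsy]
    rcases mem_union.1 hz with h | h
    · exact Or.inl (mem_filter.1 h).2.1
    · exact Or.inr (mem_filter.1 h).2
  have hpos : ∀ z ∈ R ∪ Mu, pos z < pos v := by
    intro z hz
    rcases mem_union.1 hz with h | h
    · exact (mem_filter.1 h).2.2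
    · exact (hD.lt z u (mem_filter.1 h).2).trans (hD.lt u v huv)
  have hins : insert u ((R ∪ Mu) ∩ nb (sy a) v) ⊆ Mv := by
    intro z hz
    rw [mem_insert] at hz
    rw [hMv, mem_filter]
    refine ⟨mem_univ _, ?_⟩
    rcases hz with rfl | hz
    · exact huv
    · rw [mem_inter] at hz
      have h1 := hpos z hz.1
      rcases (hsy v z).1 hz.2 with h | h
      · exact absurd (hD.lt v z h) (by omega)
      · exact h
  have hu : u ∉ (R ∪ Mu) ∩ nb (sy a) v := by
    intro h
    have h1 := hsub (mem_inter.1 h).1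
    rw [hsy] at h1
    rcases h1 with h1 | h1 <;> exact h1 (hD.loop u)
  have hc1 : (((R ∪ Mu) ∩ nb (sy a) v).card : ℝ) + 1 ≤ Mv.card := by
    have := card_le_card hins
    rw [card_insert_of_notMem hu] at this
    exact_mod_cast this
  have hc2 : ((R ∪ Mu).card : ℝ) ≤ (((R ∪ Mu) ∩ nb (sy a) v).card : ℝ) +
      (((nb (sy a) u).card : ℝ) - ((nb (sy a) u ∩ nb (sy a) v).card : ℝ)) := by
    have e1 : (((R ∪ Mu) ∩ nb (sy a) v).card : ℝ) + (((R ∪ Mu) \ nb (sy a) v).card : ℝ) =
        ((R ∪ Mu).card : ℝ) := by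
      exact_mod_cast card_inter_add_card_sdiff (R ∪ Mu) (nb (sy a) v)
    have e2 : (((nb (sy a) u) ∩ nb (sy a) v).card : ℝ) +
        (((nb (sy a) u) \ nb (sy a) v).card : ℝ) = ((nb (sy a) u).card : ℝ) := by
      exact_mod_cast card_inter_add_card_sdiff (nb (sy a) u) (nb (sy a) v)
    have e3 : (((R ∪ Mu) \ nb (sy a) v).card : ℝ) ≤ (((nb (sy a) u) \ nb (sy a) v).card : ℝ) := by
      exact_mod_cast card_le_card (sdiff_subset_sdiff hsub (le_refl _))
    linarith
  have hcod : ((nb (sy a) u ∩ nb (sy a) v).card : ℝ) ≤ dp a u + dm a u := by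
    rw [← hdu]
    exact_mod_cast card_le_card inter_subset_left
  have hbal' := abs_le.1 hbal
  have hdpv : 0 ≤ dp a v := sum_nonneg fun z _ => hD.nonneg v z
  have hlow : (dp a v + dm a v) / 20 < dm a v - dp a v := by
    linarith [hbal'.1, hbal'.2]
  calc (dp a v + dm a v) / 20 < dm a v - dp a v := hlow
    _ ≤ |dp a v - dm a v| := by
        rw [abs_sub_comm]
        exact le_abs_self _

end Pool.Agent.HLow
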