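import Pool.Agent.HLow.Targets

set_option autoImplicit false

/-!
# A tight vertex has few neighbours with small codegree (job HLow-COREB)
-/

namespace Pool.Agent.HLow

open Finset

theorem COREB_row {V : Type} [Fintype V] [DecidableEq V] {A : V → V → ℝ} (hA : Adj A)
    (N : Finset V) (v : V) : ∑ w ∈ N, A v w = ((N ∩ nb A v).card : ℝ) := by
  have h1 : ∀ w ∈ N, A v w = if w ∈ nb A v then 1 else 0 := by
    intro w _
    by_cases hw : w ∈ nb A v
    · rw [if_pos hw, hA.eq_one hw]
    · rw [if_neg hw]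
      rw [mem_nb] at hw
      push Not at hw
      exact hw
  rw [sum_congr rfl h1, ← sum_filter, sum_const, nsmul_eq_mul, mul_one, filter_mem_eq_inter]

theorem p_COREB : T_COREB := by
  intro V _ _ A hA u hu
  set N := nb A u with hN
  set B := N.filter (fun v => ((N ∩ nb A v).card : ℝ) < (1 - 1 / 1000) * (N.card : ℝ)) with hB
  rcases N.eq_empty_or_nonempty with h0 | h0
  · rw [hB, h0]
    simp
  have hD : (0 : ℝ) < N.card := by exact_mod_cast h0.card_pos
  have h1 : ee A N N ≤ (N.card : ℝ) * (N.card : ℝ) - (B.card : ℝ) * ((N.card : ℝ) / 1000) := by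
    have h2 : ∀ v ∈ N, ∑ w ∈ N, A v w ≤ (N.card : ℝ) -
        (if ((N ∩ nb A v).card : ℝ) < (1 - 1 / 1000) * (N.card : ℝ) then (N.card : ℝ) / 1000
          else 0) := by
      intro v _
      rw [COREB_row hA]
      split_ifs with h
      · linarith
      · have h3 : ((N ∩ nb A v).card : ℝ) ≤ N.card := by
          exact_mod_cast card_le_card inter_subset_left
        linarith
    calc ee A N N ≤ ∑ v ∈ N, ((N.card : ℝ) -
        (if ((N ∩ nb A v).card : ℝ) < (1 - 1 / 1000) * (N.card : ℝ) then (N.card : ℝ) / 1000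
          else 0)) := sum_le_sum h2
      _ = (N.card : ℝ) * (N.card : ℝ) - (B.card : ℝ) * ((N.card : ℝ) / 1000) := by
          rw [sum_sub_distrib, sum_const, nsmul_eq_mul, ← sum_filter, sum_const, nsmul_eq_mul]
  have h2 : (B.card : ℝ) * ((N.card : ℝ) / 1000) ≤ 1 / 10 ^ 6 * (N.card : ℝ) ^ 2 := by
    nlinarith
  have h3 : (B.card : ℝ) * (N.card : ℝ) ≤ 1 / 1000 * (N.card : ℝ) * (N.card : ℝ) := by
    nlinarith
  exact le_of_mul_le_mul_right h3 hD

end Pool.Agent.HLow
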