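import Pool.Agent.HLow.Targets

set_option autoImplicit false

namespace Pool.Agent.HLow

open Finset

/-- the last half of the out-neighbours -/
theorem p_COREC : T_COREC := by
  intro V _ _ a pos hD u
  set O : Finset V := univ.filter (fun v => a u v ≠ 0) with hO
  set rk : V → ℕ := fun v => (univ.filter (fun z => a u z ≠ 0 ∧ pos z < pos v)).card with hrk
  have hk : dp a u = (O.card : ℝ) := by
    unfold dp
    exact hD.zo u |> fun h01 => by
      have h1 : ∀ v, a u v = if v ∈ O then 1 else 0 := by
        intro v
        by_cases hv : v ∈ O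
        · rw [if_pos hv]
          rw [hO, mem_filter] at hv
          exact (h01 v).resolve_left hv.2
        · rw [if_neg hv]
          rw [hO, mem_filter] at hv
          by_contra h
          exact hv ⟨mem_univ _, h⟩
      rw [sum_congr rfl fun v _ => h1 v]
      simp
  have hmono : ∀ v ∈ O, ∀ w ∈ O, pos v < pos w → rk v < rk w := by
    intro v hv w hw hvw
    rw [hrk]
    dsimp only
    apply card_lt_card
    rw [ssubset_iff_of_subset]
    · refine ⟨v, ?_, ?_⟩
      · rw [mem_filter]
        exact ⟨mem_univ _, (mem_filter.1 hv).2, hvw⟩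
      · rw [mem_filter]
        intro h
        exact absurd h.2.2 (lt_irrefl _)
    · intro z hz
      rw [mem_filter] at hz ⊢
      exact ⟨mem_univ _, hz.2.1, hz.2.2.trans hvw⟩
  have hinj : Set.InjOn rk O := by
    intro v hv w hw h
    rcases lt_trichotomy (pos v) (pos w) with h1 | h1 | h1
    · exact absurd h (hmono v hv w hw h1).ne
    · exact hD.inj h1
    · exact absurd h.symm (hmono w hw v hv h1).ne
  set good := univ.filter (fun v => a u v ≠ 0 ∧
    dp a u ≤ 2 * ((univ.filter (fun z => a u z ≠ 0 ∧ pos z < pos v)).card : ℝ) + 1) with hgood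
  set bad := O.filter (fun v => rk v < O.card / 2) with hbad
  have hbc : bad.card ≤ O.card / 2 := by
    have h1 : (bad.image rk).card = bad.card :=
      card_image_of_injOn (hinj.mono fun v hv => (mem_filter.1 hv).1)
    rw [← h1]
    have h2 : bad.image rk ⊆ range (O.card / 2) := by
      intro n hn
      rw [mem_image] at hn
      obtain ⟨v, hv, rfl⟩ := hn
      rw [mem_range]
      exact (mem_filter.1 hv).2
    have h3 := card_le_card h2
    rwa [card_range] at h3
  have hsub : O \ bad ⊆ good := by
    intro v hv
    rw [mem_sdiff] at hv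
    rw [hgood, mem_filter]
    refine ⟨mem_univ _, (mem_filter.1 hv.1).2, ?_⟩
    have h1 : ¬ rk v < O.card / 2 := fun h => hv.2 (mem_filter.2 ⟨hv.1, h⟩)
    have h2 : O.card ≤ 2 * rk v + 1 := by omega
    rw [hk]
    have h3 : (O.card : ℝ) ≤ ((2 * rk v + 1 : ℕ) : ℝ) := by exact_mod_cast h2
    push_cast at h3
    exact h3
  have hc := card_le_card hsub
  have hbO : bad ⊆ O := filter_subset _ _
  rw [card_sdiff_of_subset hbO] at hc
  have hbO' := card_le_card hbO
  have h4 : O.card ≤ 2 * good.card := by omega
  have h5 : (O.card : ℝ) ≤ 2 * (good.card : ℝ) := by exact_mod_cast h4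
  rw [hk] at *
  linarith

end Pool.Agent.HLow
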