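import Pool.Agent.HLow.Targets

set_option autoImplicit false

namespace Pool.Agent.HLow

open Finset

/-- sums over a subtype -/
lemma DENSE_sum {V : Type} [Fintype V] [DecidableEq V] (S : Finset V) (g : V → ℝ) :
    ∑ w : {u // u ∈ S}, g w.1 = ∑ u ∈ S, g u := by
  rw [← Finset.sum_coe_sort S g]

lemma DENSE_low {V : Type} [Fintype V] [DecidableEq V] {A : V → V → ℝ} {K : ℝ} (S : Finset V)
    (h : Low A K) : Low (fun u v : {u // u ∈ S} => A u.1 v.1) K := by
  intro x
  set y : V → ℝ := fun u => if hu : u ∈ S then x ⟨u, hu⟩ else 0 with hy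
  have hyS : ∀ w : {u // u ∈ S}, y w.1 = x w := by
    intro w
    rw [hy]
    simp only
    rw [dif_pos w.2]
  have hy0 : ∀ u, u ∉ S → y u = 0 := by
    intro u hu
    rw [hy]
    simp only
    rw [dif_neg hu]
  have h1 := h y
  have h2 : ∑ u, y u ^ 2 = ∑ w : {u // u ∈ S}, x w ^ 2 := by
    calc ∑ u, y u ^ 2 = ∑ u ∈ S, y u ^ 2 := by
          symm
          refine Finset.sum_subset (Finset.subset_univ S) fun u _ hu => ?_
          rw [hy0 u hu]
          norm_num
      _ = ∑ w : {u // u ∈ S}, y w.1 ^ 2 := (DENSE_sum S fun u => y u ^ 2).symm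
      _ = ∑ w : {u // u ∈ S}, x w ^ 2 := Finset.sum_congr rfl fun w _ => by rw [hyS]
  have h3 : ∑ u, ∑ v, A u v * (y u * y v) =
      ∑ u : {u // u ∈ S}, ∑ v : {u // u ∈ S}, A u.1 v.1 * (x u * x v) := by
    calc ∑ u, ∑ v, A u v * (y u * y v) = ∑ u ∈ S, ∑ v ∈ S, A u v * (y u * y v) := by
          symm
          rw [← Finset.sum_subset (Finset.subset_univ S)]
          · refine Finset.sum_congr rfl fun u _ => ?_
            refine Finset.sum_subset (Finset.subset_univ S) fun v _ hv => ?_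
            rw [hy0 v hv]
            ring
          · intro u _ hu
            refine Finset.sum_eq_zero fun v _ => ?_
            rw [hy0 u hu]
            ring
      _ = ∑ u : {u // u ∈ S}, ∑ v : {u // u ∈ S}, A u.1 v.1 * (y u.1 * y v.1) := by
          rw [← DENSE_sum S fun u => ∑ v ∈ S, A u v * (y u * y v)]
          refine Finset.sum_congr rfl fun u _ => ?_
          rw [← DENSE_sum S fun v => A u.1 v * (y u.1 * y v)]
      _ = _ := Finset.sum_congr rfl fun u _ => Finset.sum_congr rfl fun v _ => by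
          rw [hyS, hyS]
  rw [h2, h3] at h1
  exact h1

theorem p_DENSE (h1 : T_DNA) (h2 : T_DNB) : T_DENSE := by
  classical
  intro V _ _ A K hA hL hK hN hE
  set N : ℝ := (Fintype.card V : ℝ) with hNdef
  have hK3 : 1 ≤ K ^ 3 := one_le_pow₀ hK
  have hKK3 : K ≤ K ^ 3 := by nlinarith [sq_nonneg (K - 1), hK]
  have hNpos : 0 < N := by linarith
  -- the good vertices
  set S : Finset V := univ.filter (fun u => N - ((nb A u).card : ℝ) ≤ N / 20) with hS
  have hEsum : ee A univ univ = ∑ u, ((nb A u).card : ℝ) := by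
    unfold ee
    exact Finset.sum_congr rfl fun u _ => hA.deg u
  have hdegle : ∀ u, ((nb A u).card : ℝ) ≤ N := by
    intro u
    rw [hNdef]
    exact_mod_cast Finset.card_le_univ _
  have hdef : ∑ u : V, (N - ((nb A u).card : ℝ)) ≤ N ^ 2 / 400 := by
    rw [Finset.sum_sub_distrib, ← hEsum, Finset.sum_const, Finset.card_univ, nsmul_eq_mul,
      ← hNdef]
    nlinarith
  have hmem : ∀ u, u ∈ S ↔ N - ((nb A u).card : ℝ) ≤ N / 20 := by
    intro u
    rw [hS, Finset.mem_filter]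
    exact ⟨fun h => h.2, fun h => ⟨Finset.mem_univ _, h⟩⟩
  have hScompl : ((Sᶜ).card : ℝ) ≤ N / 20 := by
    have h3 : ((Sᶜ).card : ℝ) * (N / 20) ≤ ∑ u : V, (N - ((nb A u).card : ℝ)) := by
      calc ((Sᶜ).card : ℝ) * (N / 20)
          = ∑ u ∈ Sᶜ, (N / 20) := by
            rw [Finset.sum_const, nsmul_eq_mul]
        _ ≤ ∑ u ∈ Sᶜ, (N - ((nb A u).card : ℝ)) := by
            refine Finset.sum_le_sum fun u hu => ?_
            rw [Finset.mem_compl, hmem] at hu
            exact (not_le.1 hu).le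
        _ ≤ ∑ u : V, (N - ((nb A u).card : ℝ)) :=
            Finset.sum_le_univ_sum_of_nonneg fun u => by linarith [hdegle u]
    have h4 := h3.trans hdef
    have h5 : 0 < N / 20 := by positivity
    by_contra hcon
    rw [not_le] at hcon
    have h6 : N / 20 * (N / 20) < ((Sᶜ).card : ℝ) * (N / 20) :=
      mul_lt_mul_of_pos_right hcon h5
    nlinarith
  have hcard : (S.card : ℝ) + ((Sᶜ).card : ℝ) = N := by
    rw [Finset.card_compl, Nat.cast_sub (Finset.card_le_univ S), ← hNdef]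
    ring
  have hSge : 19 / 20 * N ≤ (S.card : ℝ) := by linarith
  -- the subtype
  have hcW : (Fintype.card {u // u ∈ S} : ℝ) = (S.card : ℝ) := by
    rw [Fintype.card_coe]
  have hA' : Adj (fun u v : {u // u ∈ S} => A u.1 v.1) :=
    ⟨fun u v => hA.zo _ _, fun u v => hA.sym _ _, fun u => hA.dg _⟩
  have hL' := DENSE_low S hL
  have hdeg' : ∀ u : {u // u ∈ S}, ((nb A u.1).card : ℝ) ≤
      ((nb (fun u v : {u // u ∈ S} => A u.1 v.1) u).card : ℝ) + (N - (S.card : ℝ)) := by
    intro u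
    rw [← hA'.deg u, ← hA.deg u.1, DENSE_sum S fun v => A u.1 v]
    have h3 : ∑ v, A u.1 v = ∑ v ∈ S, A u.1 v + ∑ v ∈ Sᶜ, A u.1 v :=
      (Finset.sum_add_sum_compl S _).symm
    have h4 : ∑ v ∈ Sᶜ, A u.1 v ≤ ∑ v ∈ Sᶜ, (1 : ℝ) :=
      Finset.sum_le_sum fun v _ => hA.le_one _ _
    have h5 : ∑ v ∈ Sᶜ, (1 : ℝ) = N - (S.card : ℝ) := by
      rw [Finset.sum_const, nsmul_eq_mul, mul_one, Finset.card_compl,
        Nat.cast_sub (Finset.card_le_univ S), ← hNdef]
    linarith
  have hb1 : 100 * K ≤ (Fintype.card {u // u ∈ S} : ℝ) := by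
    rw [hcW]
    linarith
  have hb2 : ∀ u : {u // u ∈ S}, (Fintype.card {u // u ∈ S} : ℝ) -
      ((nb (fun u v : {u // u ∈ S} => A u.1 v.1) u).card : ℝ) ≤
      (Fintype.card {u // u ∈ S} : ℝ) / 19 := by
    intro u
    rw [hcW]
    have h3 := hdeg' u
    have h4 : N - ((nb A u.1).card : ℝ) ≤ N / 20 := (hmem u.1).1 u.2
    linarith
  have h3 := h1 {u // u ∈ S} (fun u v => A u.1 v.1) K hA' hL' hK hb1 hb2
  obtain ⟨Q, hQ1, hQ2⟩ := h2 {u // u ∈ S} (fun u v => A u.1 v.1) K hA' hK h3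
  refine ⟨Q.map (Function.Embedding.subtype _), ?_, ?_⟩
  · intro u hu v hv huv
    rw [Finset.mem_map] at hu hv
    obtain ⟨u', hu', rfl⟩ := hu
    obtain ⟨v', hv', rfl⟩ := hv
    exact hQ1 u' hu' v' hv' fun h => huv (by rw [h])
  · rw [Finset.card_map]
    rw [hcW] at hQ2
    have h4 : 0 ≤ K ^ 3 * (Q.card : ℝ) := by positivity
    nlinarith

end Pool.Agent.HLow
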