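import Mathlib
import Pool.Agent.HLow.Defs

set_option autoImplicit false

namespace Pool.Agent.HLow

open Finset

variable {V : Type} [Fintype V] [DecidableEq V]

lemma ee_ind (A : V → V → ℝ) (S T : Finset V) :
    ∑ u, ∑ v, A u v * ((if u ∈ S then (1 : ℝ) else 0) * (if v ∈ T then (1 : ℝ) else 0)) = ee A S T := by
  unfold ee
  rw [← Finset.sum_filter_add_sum_filter_not univ (fun u => u ∈ S)]
  have h2 : ∑ u ∈ univ.filter (fun u => ¬ u ∈ S), ∑ v, A u v *
      ((if u ∈ S then (1 : ℝ) else 0) * (if v ∈ T then (1 : ℝ) else 0)) = 0 := by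
    apply sum_eq_zero; intro u hu
    apply sum_eq_zero; intro v _
    rw [if_neg (mem_filter.mp hu).2]; ring
  rw [h2, add_zero, filter_mem_eq_inter, univ_inter]
  apply sum_congr rfl; intro u hu
  rw [← Finset.sum_filter_add_sum_filter_not univ (fun v => v ∈ T)]
  have h3 : ∑ v ∈ univ.filter (fun v => ¬ v ∈ T), A u v *
      ((if u ∈ S then (1 : ℝ) else 0) * (if v ∈ T then (1 : ℝ) else 0)) = 0 := by
    apply sum_eq_zero; intro v hv
    rw [if_neg (mem_filter.mp hv).2]; ring
  rw [h3, add_zero, filter_mem_eq_inter, univ_inter]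
  apply sum_congr rfl; intro v hv
  rw [if_pos hu, if_pos hv]; ring

lemma ee_comm {A : V → V → ℝ} (hA : ∀ u v, A u v = A v u) (S T : Finset V) : ee A S T = ee A T S := by
  unfold ee
  rw [sum_comm]
  exact sum_congr rfl (fun u _ => sum_congr rfl (fun v _ => hA v u))

/-- the quadratic form at a combination of three indicator functions of disjoint sets -/
lemma low3 {A : V → V → ℝ} {K : ℝ} (hA : ∀ u v, A u v = A v u) (hL : Low A K) (S T R : Finset V)
    (hST : Disjoint S T) (hSR : Disjoint S R) (hTR : Disjoint T R) (α β γ : ℝ) :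
    -(K * (α ^ 2 * (S.card : ℝ) + β ^ 2 * (T.card : ℝ) + γ ^ 2 * (R.card : ℝ)))
      ≤ α ^ 2 * ee A S S + β ^ 2 * ee A T T + γ ^ 2 * ee A R R
        + 2 * α * β * ee A S T + 2 * α * γ * ee A S R + 2 * β * γ * ee A T R := by
  have h := hL (fun u => α * (if u ∈ S then (1 : ℝ) else 0) + β * (if u ∈ T then (1 : ℝ) else 0)
    + γ * (if u ∈ R then (1 : ℝ) else 0))
  have h1 : ∑ u, (α * (if u ∈ S then (1 : ℝ) else 0) + β * (if u ∈ T then (1 : ℝ) else 0)
      + γ * (if u ∈ R then (1 : ℝ) else 0)) ^ 2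
      = α ^ 2 * (S.card : ℝ) + β ^ 2 * (T.card : ℝ) + γ ^ 2 * (R.card : ℝ) := by
    have h2 : ∀ u, (α * (if u ∈ S then (1 : ℝ) else 0) + β * (if u ∈ T then (1 : ℝ) else 0)
      + γ * (if u ∈ R then (1 : ℝ) else 0)) ^ 2 = α ^ 2 * (if u ∈ S then (1 : ℝ) else 0)
        + β ^ 2 * (if u ∈ T then (1 : ℝ) else 0) + γ ^ 2 * (if u ∈ R then (1 : ℝ) else 0) := by
      intro u
      by_cases g1 : u ∈ S
      · have g2 : u ∉ T := disjoint_left.mp hST g1
        have g3 : u ∉ R := disjoint_left.mp hSR g1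
        simp [g1, g2, g3]
      · by_cases g2 : u ∈ T
        · have g3 : u ∉ R := disjoint_left.mp hTR g2
          simp [g1, g2, g3]
        · by_cases g3 : u ∈ R
          · simp [g1, g2, g3]
          · simp [g1, g2, g3]
    rw [sum_congr rfl (fun u _ => h2 u), sum_add_distrib, sum_add_distrib, ← mul_sum, ← mul_sum,
      ← mul_sum]
    simp
  have h3 : ∑ u, ∑ v, A u v * ((α * (if u ∈ S then (1 : ℝ) else 0) + β * (if u ∈ T then (1 : ℝ) else 0)
      + γ * (if u ∈ R then (1 : ℝ) else 0)) * (α * (if v ∈ S then (1 : ℝ) else 0)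
      + β * (if v ∈ T then (1 : ℝ) else 0) + γ * (if v ∈ R then (1 : ℝ) else 0)))
      = α ^ 2 * ee A S S + β ^ 2 * ee A T T + γ ^ 2 * ee A R R
        + 2 * α * β * ee A S T + 2 * α * γ * ee A S R + 2 * β * γ * ee A T R := by
    have e1 := ee_comm hA T S
    have e2 := ee_comm hA R S
    have e3 := ee_comm hA R T
    have : α ^ 2 * ee A S S + β ^ 2 * ee A T T + γ ^ 2 * ee A R R
        + 2 * α * β * ee A S T + 2 * α * γ * ee A S R + 2 * β * γ * ee A T R
        = α ^ 2 * ee A S S + β ^ 2 * ee A T T + γ ^ 2 * ee A R R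
        + α * β * ee A S T + α * β * ee A T S + α * γ * ee A S R + α * γ * ee A R S
        + β * γ * ee A T R + β * γ * ee A R T := by
      rw [e1, e2, e3]; ring
    rw [this]
    rw [← ee_ind A S S, ← ee_ind A T T, ← ee_ind A R R, ← ee_ind A S T, ← ee_ind A T S,
      ← ee_ind A S R, ← ee_ind A R S, ← ee_ind A T R, ← ee_ind A R T]
    simp only [mul_sum, ← sum_add_distrib]
    apply sum_congr rfl; intro u _
    apply sum_congr rfl; intro v _
    ring
  rw [h1, h3] at h
  exact h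

end Pool.Agent.HLow
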