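import Mathlib
import Pool.Agent.HLow.Targets
import Pool.Agent.HLow.Low3

set_option autoImplicit false

namespace Pool.Agent.HLow

open Finset

theorem p_DICH : T_DICH := by
  intro V _ _ A K hA hL hK C w hC hw
  by_contra hcon
  push Not at hcon
  obtain ⟨h1, h2⟩ := hcon
  set P := C.filter (fun z => A w z ≠ 0) with hP
  set Q := C.filter (fun z => A w z = 0) with hQ
  have hPQ : Disjoint P Q := by
    rw [disjoint_left]; intro z hz1 hz2
    exact (mem_filter.mp hz1).2 (mem_filter.mp hz2).2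
  have hPw : Disjoint P {w} := by
    rw [disjoint_singleton_right]; intro h; exact hw (mem_filter.mp h).1
  have hQw : Disjoint Q {w} := by
    rw [disjoint_singleton_right]; intro h; exact hw (mem_filter.mp h).1
  have hK0 : 0 < K := by linarith
  have ha : 0 < (P.card : ℝ) := lt_of_le_of_lt (by positivity) h1
  have hb : 0 < (Q.card : ℝ) := lt_of_le_of_lt (by positivity) h2
  have h := low3 hA.sym hL P Q {w} hPQ hPw hQw (1 / (P.card : ℝ)) (-(1 / (Q.card : ℝ))) (-(1 / K))
  have cl : ∀ S : Finset V, S ⊆ C → ee A S S = (S.card : ℝ) ^ 2 - (S.card : ℝ) := by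
    intro S hS
    unfold ee
    have : ∀ u ∈ S, ∑ v ∈ S, A u v = (S.card : ℝ) - 1 := by
      intro u hu
      rw [← Finset.add_sum_erase S _ hu, hA.dg, zero_add]
      have : ∀ v ∈ S.erase u, A u v = 1 := fun v hv =>
        hC u (hS hu) v (hS (mem_of_mem_erase hv)) (ne_of_mem_erase hv).symm
      rw [sum_congr rfl this]
      rw [sum_const, card_erase_of_mem hu, nsmul_eq_mul, mul_one]
      have : 1 ≤ S.card := card_pos.mpr ⟨u, hu⟩
      push_cast [Nat.cast_sub this]; ring
    rw [sum_congr rfl this, sum_const, nsmul_eq_mul]; ring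
  have e1 := cl P (filter_subset _ _)
  have e2 := cl Q (filter_subset _ _)
  have e3 : ee A {w} {w} = 0 := by unfold ee; simp [hA.dg]
  have e4 : ee A P Q = (P.card : ℝ) * (Q.card : ℝ) := by
    unfold ee
    have : ∀ u ∈ P, ∑ v ∈ Q, A u v = (Q.card : ℝ) := by
      intro u hu
      have : ∀ v ∈ Q, A u v = 1 := fun v hv =>
        hC u (mem_filter.mp hu).1 v (mem_filter.mp hv).1 (by
          intro h; subst h; exact disjoint_left.mp hPQ hu hv)
      rw [sum_congr rfl this]; simp
    rw [sum_congr rfl this]; simp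
  have e5 : ee A P {w} = (P.card : ℝ) := by
    unfold ee
    have : ∀ v ∈ P, ∑ z ∈ ({w} : Finset V), A v z = 1 := by
      intro v hv
      rw [sum_singleton, hA.sym]
      exact (hA.zo w v).resolve_left (mem_filter.mp hv).2
    rw [sum_congr rfl this]; simp
  have e6 : ee A Q {w} = 0 := by
    unfold ee
    apply sum_eq_zero; intro v hv
    rw [sum_singleton, hA.sym]
    exact (mem_filter.mp hv).2
  rw [e1, e2, e3, e4, e5, e6] at h
  simp only [card_singleton, Nat.cast_one] at h
  set p : ℝ := (P.card : ℝ) with hp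
  set q : ℝ := (Q.card : ℝ) with hq
  have h3 : 1 / K ≤ (K - 1) * (1 / p + 1 / q) := by
    have g1 : (1 / p) ^ 2 * (p ^ 2 - p) = 1 - 1 / p := by field_simp
    have g2 : (-(1 / q)) ^ 2 * (q ^ 2 - q) = 1 - 1 / q := by field_simp
    have g3 : 2 * (1 / p) * (-(1 / q)) * (p * q) = -2 := by field_simp
    have g4 : 2 * (1 / p) * (-(1 / K)) * p = -2 * (1 / K) := by field_simp
    have g5 : (1 / p) ^ 2 * p = 1 / p := by field_simp
    have g6 : (-(1 / q)) ^ 2 * q = 1 / q := by field_simp
    have g7 : K * ((-(1 / K)) ^ 2 * 1) = 1 / K := by field_simp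
    rw [g1, g2, g3, g4, g5, g6] at h
    nlinarith
  have h4 : 1 / p < 1 / (2 * K ^ 2) := one_div_lt_one_div_of_lt (by positivity) h1
  have h5 : 1 / q < 1 / (2 * K ^ 2) := one_div_lt_one_div_of_lt (by positivity) h2
  have h6 : (K - 1) * (1 / p + 1 / q) ≤ (K - 1) * (1 / K ^ 2) := by
    apply mul_le_mul_of_nonneg_left _ (by linarith)
    have : 1 / (2 * K ^ 2) + 1 / (2 * K ^ 2) = 1 / K ^ 2 := by field_simp; norm_num
    linarith
  have h7 : (K - 1) * (1 / K ^ 2) < 1 / K := by
    rw [mul_one_div, div_lt_div_iff₀ (by positivity) hK0]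
    nlinarith
  linarith

end Pool.Agent.HLow
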