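import Mathlib
import Pool.Agent.HLow.Targets

set_option autoImplicit false

namespace Pool.Agent.HLow

open Finset

/-- removing the rank one part keeps the matrix positive semidefinite -/
lemma DNA_low {V : Type} [Fintype V] [DecidableEq V] {A : V → V → ℝ} {K s : ℝ} {r : V → ℝ}
    (hA : Adj A) (hlow : Low A K) (hr : ∀ u, r u = (∑ v, A u v) + K) (hs : s = ∑ u, r u)
    (hs0 : 0 < s) :
    Low (fun u w => A u w + (if u = w then K else 0) - r u * r w / s) 0 := by
  intro x
  set t : ℝ := (∑ u, r u * x u) / s with ht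
  have h1 := hlow (fun u => x u - t)
  have e1 : ∑ u, ∑ v, A u v * ((x u - t) * (x v - t)) =
      ∑ u, ∑ v, A u v * (x u * x v) - 2 * t * ∑ u, x u * ∑ v, A u v +
        t ^ 2 * ∑ u, ∑ v, A u v := by
    have a1 : ∑ u, ∑ v, A u v * (x v * t) = t * ∑ u, x u * ∑ v, A u v := by
      rw [sum_comm, mul_sum]
      refine sum_congr rfl fun u _ => ?_
      rw [mul_sum, mul_sum]
      refine sum_congr rfl fun v _ => ?_
      rw [hA.sym v u]; ring
    have a2 : ∑ u, ∑ v, A u v * (x u * t) = t * ∑ u, x u * ∑ v, A u v := by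
      rw [mul_sum]
      refine sum_congr rfl fun u _ => ?_
      rw [mul_sum, mul_sum]
      refine sum_congr rfl fun v _ => ?_
      ring
    have a3 : ∑ u, ∑ v, A u v * t ^ 2 = t ^ 2 * ∑ u, ∑ v, A u v := by
      rw [mul_sum]
      refine sum_congr rfl fun u _ => ?_
      rw [mul_sum]
      exact sum_congr rfl fun v _ => by ring
    have a4 : ∑ u, ∑ v, A u v * ((x u - t) * (x v - t)) =
        ∑ u, ∑ v, A u v * (x u * x v) - ∑ u, ∑ v, A u v * (x u * t) -
          ∑ u, ∑ v, A u v * (x v * t) + ∑ u, ∑ v, A u v * t ^ 2 := by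
      simp only [← sum_sub_distrib, ← sum_add_distrib]
      exact sum_congr rfl fun u _ => sum_congr rfl fun v _ => by ring
    rw [a4, a1, a2, a3]
    ring
  have e2 : ∑ u, (x u - t) ^ 2 = ∑ u, x u ^ 2 - 2 * t * ∑ u, x u + t ^ 2 * Fintype.card V := by
    have : ∀ u, (x u - t) ^ 2 = x u ^ 2 - 2 * t * x u + t ^ 2 := fun u => by ring
    rw [sum_congr rfl fun u _ => this u, sum_add_distrib, sum_sub_distrib, ← mul_sum]
    simp
    ring
  rw [e1, e2] at h1
  have e3 : ∑ u, r u * x u = ∑ u, x u * ∑ v, A u v + K * ∑ u, x u := by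
    rw [mul_sum, ← sum_add_distrib]
    exact sum_congr rfl fun u _ => by rw [hr]; ring
  have e4 : s = ∑ u, ∑ v, A u v + K * Fintype.card V := by
    rw [hs, sum_congr rfl fun u _ => hr u, sum_add_distrib]
    simp
    ring
  have e5 : ∑ u, ∑ w, (A u w + (if u = w then K else 0) - r u * r w / s) * (x u * x w) =
      ∑ u, ∑ v, A u v * (x u * x v) + K * ∑ u, x u ^ 2 - (∑ u, r u * x u) ^ 2 / s := by
    have b1 : ∑ u, ∑ w, (if u = w then K else 0) * (x u * x w) = K * ∑ u, x u ^ 2 := by
      rw [mul_sum]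
      refine sum_congr rfl fun u _ => ?_
      simp only [ite_mul, zero_mul, sum_ite_eq, mem_univ, if_true]
      ring
    have b2 : ∑ u, ∑ w, r u * r w / s * (x u * x w) = (∑ u, r u * x u) ^ 2 / s := by
      rw [sq, sum_mul_sum, sum_div]
      refine sum_congr rfl fun u _ => ?_
      rw [sum_div]
      exact sum_congr rfl fun w _ => by ring
    rw [← b1, ← b2]
    simp only [← sum_sub_distrib, ← sum_add_distrib]
    exact sum_congr rfl fun u _ => sum_congr rfl fun v _ => by ring
  rw [e5, zero_mul, neg_zero]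
  have e6 : (∑ u, r u * x u) ^ 2 / s = 2 * t * (∑ u, r u * x u) - t ^ 2 * s := by
    rw [ht]; field_simp; ring
  rw [e6]
  have e7 : 2 * t * (∑ u, r u * x u) =
      2 * t * (∑ u, x u * ∑ v, A u v) + 2 * t * (K * ∑ u, x u) := by rw [e3]; ring
  rw [e7, e4]
  nlinarith [h1]

theorem p_DNA (hCUBE : T_CUBE) : T_DNA := by
  intro V _ _ A K hA hlow hK hN hdeg
  set N : ℝ := (Fintype.card V : ℝ) with hNdef
  have hN0 : 0 < N := by linarith
  set r : V → ℝ := fun u => (∑ v, A u v) + K with hr
  set s : ℝ := ∑ u, r u with hs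
  have hd : ∀ u, ∑ v, A u v = ((nb A u).card : ℝ) := fun u => hA.deg u
  have hcard : ∀ u, ((nb A u).card : ℝ) ≤ N := by
    intro u
    rw [hNdef]
    exact_mod_cast card_le_univ (nb A u)
  have hr_lo : ∀ u, 18 / 19 * N ≤ r u := by
    intro u
    have h1 := hdeg u
    show 18 / 19 * N ≤ (∑ v, A u v) + K
    rw [hd]
    linarith
  have hr_hi : ∀ u, r u ≤ 101 / 100 * N := by
    intro u
    show (∑ v, A u v) + K ≤ 101 / 100 * N
    rw [hd]
    have := hcard u
    linarith
  have hconst : ∀ c : ℝ, ∑ _u : V, c = N * c := by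
    intro c
    simp [hNdef]
  have hs_lo : 18 / 19 * N ^ 2 ≤ s := by
    have h1 : ∑ _u : V, 18 / 19 * N ≤ s := sum_le_sum fun u _ => hr_lo u
    rw [hconst] at h1
    linarith
  have hs_hi : s ≤ 101 / 100 * N ^ 2 := by
    have h1 : s ≤ ∑ _u : V, 101 / 100 * N := sum_le_sum fun u _ => hr_hi u
    rw [hconst] at h1
    linarith
  have hs0 : 0 < s := by
    have : 0 < 18 / 19 * N ^ 2 := by positivity
    linarith
  set th : V → V → ℝ := fun u w => r u * r w / s with hth
  have hrp : ∀ u, 0 < r u := fun u => lt_of_lt_of_le (by positivity) (hr_lo u)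
  have hth_lo : ∀ u w, 888 / 1000 ≤ th u w := by
    intro u w
    show 888 / 1000 ≤ r u * r w / s
    rw [le_div_iff₀ hs0]
    have h1 : (18 / 19 * N) * (18 / 19 * N) ≤ r u * r w :=
      mul_le_mul (hr_lo u) (hr_lo w) (by positivity) (hrp u).le
    nlinarith
  have hth_hi : ∀ u w, th u w ≤ 1077 / 1000 := by
    intro u w
    show r u * r w / s ≤ 1077 / 1000
    rw [div_le_iff₀ hs0]
    have h1 : r u * r w ≤ (101 / 100 * N) * (101 / 100 * N) :=
      mul_le_mul (hr_hi u) (hr_hi w) (hrp w).le (by positivity)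
    nlinarith
  have hcube := hCUBE V (fun u w => A u w + (if u = w then K else 0) - th u w)
    (by
      intro u w
      show A u w + (if u = w then K else 0) - r u * r w / s =
        A w u + (if w = u then K else 0) - r w * r u / s
      rw [hA.sym u w, mul_comm (r u) (r w)]
      by_cases h : u = w
      · simp [h]
      · rw [if_neg h, if_neg (fun h' => h h'.symm)])
    (DNA_low hA hlow (fun u => rfl) rfl hs0)
  have hpt : ∀ u w, (A u w + (if u = w then K else 0) - th u w) ^ 3 ≤
      (if u = w then K ^ 3 else 0) + 126 / 10000 * |1 - th u w| -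
        7 / 10 * (1 - A u w - (if u = w then 1 else 0)) := by
    intro u w
    have h1 := hth_lo u w
    have h2 := hth_hi u w
    set T := th u w with hT
    have habs := abs_nonneg (1 - T)
    by_cases huw : u = w
    · subst huw
      rw [hA.dg, if_pos rfl, if_pos rfl, if_pos rfl]
      have h3 : (0 + K - T) ^ 3 ≤ K ^ 3 := by
        have h4 : K - T ≤ K := by linarith
        have h5 : (K - T) ^ 3 ≤ K ^ 3 := by
          exact (Odd.strictMono_pow (by decide : Odd 3)).monotone h4
        rw [zero_add]; exact h5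
      linarith
    · rw [if_neg huw, if_neg huw, if_neg huw]
      rcases hA.zo u w with e | e
      · rw [e]
        have h3 : (0 + 0 - T) ^ 3 ≤ -(7 / 10) := by
          have h4 : (888 / 1000 : ℝ) ^ 3 ≤ T ^ 3 := pow_le_pow_left₀ (by norm_num) h1 3
          have h5 : (7 / 10 : ℝ) ≤ (888 / 1000 : ℝ) ^ 3 := by norm_num
          have h6 : (0 + 0 - T) ^ 3 = -(T ^ 3) := by ring
          rw [h6]; linarith
        linarith
      · rw [e]
        have h3 : (1 + 0 - T) ^ 3 ≤ 126 / 10000 * |1 - T| := by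
          have h4 : (1 + 0 - T) ^ 3 = (1 - T) ^ 2 * (1 - T) := by ring
          have h5 : (1 - T) ^ 2 ≤ 126 / 10000 := by nlinarith
          rw [h4]
          calc (1 - T) ^ 2 * (1 - T) ≤ (1 - T) ^ 2 * |1 - T| :=
                mul_le_mul_of_nonneg_left (le_abs_self _) (sq_nonneg _)
            _ ≤ 126 / 10000 * |1 - T| := mul_le_mul_of_nonneg_right h5 habs
        linarith
  have hsum : (0 : ℝ) ≤ ∑ u, ∑ w, ((if u = w then K ^ 3 else 0) + 126 / 10000 * |1 - th u w| -
        7 / 10 * (1 - A u w - (if u = w then 1 else 0))) :=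
    hcube.trans (sum_le_sum fun u _ => sum_le_sum fun w _ => hpt u w)
  set e2 : ℝ := ee A univ univ with he2
  have hsplit : ∑ u, ∑ w, ((if u = w then K ^ 3 else 0) + 126 / 10000 * |1 - th u w| -
        7 / 10 * (1 - A u w - (if u = w then 1 else 0))) =
      N * K ^ 3 + 126 / 10000 * (∑ u, ∑ w, |1 - th u w|) - 7 / 10 * (N ^ 2 - e2 - N) := by
    have c1 : ∑ u : V, ∑ w : V, (if u = w then K ^ 3 else 0) = N * K ^ 3 := by
      simp [hNdef]
    have c2 : ∑ u : V, ∑ w : V, (if u = w then (1 : ℝ) else 0) = N := by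
      simp [hNdef]
    have c3 : ∑ u : V, ∑ w : V, (1 : ℝ) = N ^ 2 := by
      rw [hconst, hconst]; ring
    have c4 : 126 / 10000 * (∑ u, ∑ w, |1 - th u w|) = ∑ u, ∑ w, 126 / 10000 * |1 - th u w| := by
      rw [mul_sum]
      exact sum_congr rfl fun u _ => mul_sum _ _ _
    have c5 : 7 / 10 * (N ^ 2 - e2 - N) =
        ∑ u, ∑ w, 7 / 10 * (1 - A u w - (if u = w then 1 else 0)) := by
      have : ∑ u, ∑ w, 7 / 10 * (1 - A u w - (if u = w then 1 else 0)) =
          7 / 10 * (∑ u : V, ∑ w : V, (1 : ℝ) - ∑ u, ∑ w, A u w -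
            ∑ u : V, ∑ w : V, (if u = w then (1 : ℝ) else 0)) := by
        simp only [← sum_sub_distrib, mul_sum]
      rw [this, c2, c3]
      rfl
    rw [← c1, c4, c5]
    simp only [← sum_sub_distrib, ← sum_add_distrib]
  rw [hsplit] at hsum
  -- the bound of the sum of `|1 - th|`
  set g : V → ℝ := fun u => N - r u with hg
  set G : ℝ := ∑ u, |g u| with hG
  have hgb : ∀ u, |g u| ≤ N / 19 := by
    intro u
    rw [abs_le]
    have h1 := hr_lo u
    have h2 := hr_hi u
    constructor
    · show -(N / 19) ≤ N - r u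
      linarith
    · show N - r u ≤ N / 19
      linarith
  have hG0 : 0 ≤ G := sum_nonneg fun u _ => abs_nonneg _
  have hGle : G ≤ (N ^ 2 - e2) + K * N := by
    have h1 : G ≤ ∑ u : V, ((N - ∑ v, A u v) + K) := by
      refine sum_le_sum fun u _ => ?_
      rw [abs_le]
      have h2 := hcard u
      rw [← hd] at h2
      constructor
      · show -((N - ∑ v, A u v) + K) ≤ N - ((∑ v, A u v) + K)
        linarith
      · show N - ((∑ v, A u v) + K) ≤ (N - ∑ v, A u v) + K
        linarith
    rw [sum_add_distrib, sum_sub_distrib, hconst, hconst] at h1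
    have h3 : ∑ u, ∑ v, A u v = e2 := rfl
    rw [h3] at h1
    linarith
  have hsg : s = N ^ 2 - ∑ u, g u := by
    have : ∑ u, g u = ∑ _u : V, N - ∑ u, r u := by rw [← sum_sub_distrib]
    rw [this, hconst, ← hs]; ring
  have hone : ∀ u w, s * |1 - th u w| ≤ N * |g u| + N * |g w| + G + N / 19 * |g u| := by
    intro u w
    have h1 : s * (1 - th u w) = N * g u + N * g w - ∑ u, g u - g u * g w := by
      have h2 : s * th u w = r u * r w := by
        show s * (r u * r w / s) = r u * r w
        field_simp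
      have h3 : r u = N - g u := by show r u = N - (N - r u); ring
      have h4 : r w = N - g w := by show r w = N - (N - r w); ring
      rw [mul_sub, mul_one, h2, h3, h4, hsg]
      ring
    have h2 : s * |1 - th u w| = |s * (1 - th u w)| := by rw [abs_mul, abs_of_pos hs0]
    rw [h2, h1]
    have h3 : |∑ u, g u| ≤ G := abs_sum_le_sum_abs _ _
    have h4 : |g u * g w| ≤ N / 19 * |g u| := by
      rw [abs_mul, mul_comm]
      exact mul_le_mul_of_nonneg_right (hgb w) (abs_nonneg _)
    have h5 : |N * g u| = N * |g u| := by rw [abs_mul, abs_of_pos hN0]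
    have h6 : |N * g w| = N * |g w| := by rw [abs_mul, abs_of_pos hN0]
    calc |N * g u + N * g w - ∑ u, g u - g u * g w|
        ≤ |N * g u| + |N * g w| + |∑ u, g u| + |g u * g w| := by
          refine (abs_sub _ _).trans ?_
          refine add_le_add_left ((abs_sub _ _).trans ?_) _
          exact add_le_add_left (abs_add_le _ _) _
      _ ≤ N * |g u| + N * |g w| + G + N / 19 * |g u| := by
          rw [h5, h6]; linarith
  have hS1 : s * (∑ u, ∑ w, |1 - th u w|) ≤ 58 / 19 * N ^ 2 * G := by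
    have h1 : s * (∑ u, ∑ w, |1 - th u w|) ≤
        ∑ u, ∑ w, (N * |g u| + N * |g w| + G + N / 19 * |g u|) := by
      rw [mul_sum]
      refine sum_le_sum fun u _ => ?_
      rw [mul_sum]
      exact sum_le_sum fun w _ => hone u w
    refine h1.trans (le_of_eq ?_)
    have h2 : ∀ u, ∑ w, (N * |g u| + N * |g w| + G + N / 19 * |g u|) =
        N * (N * |g u|) + N * G + N * G + N * (N / 19 * |g u|) := by
      intro u
      rw [sum_add_distrib, sum_add_distrib, sum_add_distrib, hconst, hconst, hconst, ← mul_sum]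
    rw [sum_congr rfl fun u _ => h2 u, sum_add_distrib, sum_add_distrib, sum_add_distrib, hconst,
      ← mul_sum, ← mul_sum, ← mul_sum, ← mul_sum]
    ring
  have hS2 : (∑ u, ∑ w, |1 - th u w|) ≤ 33 / 10 * G := by
    have h0 : (0 : ℝ) ≤ ∑ u, ∑ w, |1 - th u w| :=
      sum_nonneg fun u _ => sum_nonneg fun w _ => abs_nonneg _
    have h1 : 18 / 19 * N ^ 2 * (∑ u, ∑ w, |1 - th u w|) ≤ 58 / 19 * N ^ 2 * G :=
      (mul_le_mul_of_nonneg_right hs_lo h0).trans hS1
    have h2 : 0 < N ^ 2 := by positivity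
    have h3 : N ^ 2 * (18 * (∑ u, ∑ w, |1 - th u w|)) ≤ N ^ 2 * (58 * G) := by linarith
    have h4 := le_of_mul_le_mul_left h3 h2
    linarith
  have hK3 : 1 ≤ K ^ 3 := one_le_pow₀ hK
  have hKK : K ≤ K ^ 3 := by nlinarith [sq_nonneg (K - 1)]
  have hNK : N ≤ K ^ 3 * N := le_mul_of_one_le_left hN0.le hK3
  have hNK2 : K * N ≤ K ^ 3 * N := mul_le_mul_of_nonneg_right hKK hN0.le
  nlinarith

end Pool.Agent.HLow
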