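import Mathlib
import Pool.Agent.HLow.Targets

set_option autoImplicit false

namespace Pool.Agent.HLow

open Finset

lemma DNB_card {V : Type} [Fintype V] [DecidableEq V] {A : V → V → ℝ} (_ : Adj A) (u : V) :
    ((univ.filter (fun v => A u v = 0)).card : ℝ) =
      (Fintype.card V : ℝ) - ((nb A u).card : ℝ) := by
  have h1 : (univ.filter (fun v => A u v = 0)).card + (nb A u).card = Fintype.card V := by
    unfold nb
    exact card_filter_add_card_filter_not _
  have h2 : ((univ.filter (fun v => A u v = 0)).card : ℝ) + ((nb A u).card : ℝ) =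
      (Fintype.card V : ℝ) := by exact_mod_cast h1
  linarith

theorem p_DNB : T_DNB := by
  classical
  intro V _ _ A K hA hK hE
  set N : ℝ := (Fintype.card V : ℝ) with hN
  have hK3 : 0 < K ^ 3 := by positivity
  set W : Finset V := univ.filter (fun u => N - ((nb A u).card : ℝ) ≤ 10 * K ^ 3) with hW
  -- half of the vertices are in W
  have hsum : ∑ u : V, (N - ((nb A u).card : ℝ)) = N ^ 2 - ee A univ univ := by
    rw [sum_sub_distrib, sum_const, card_univ, nsmul_eq_mul, ← hN]
    unfold ee
    rw [sum_congr rfl (fun u _ => hA.deg u)]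
    ring
  have hpos : ∀ u : V, 0 ≤ N - ((nb A u).card : ℝ) := by
    intro u
    rw [hN, ← DNB_card hA u]
    positivity
  have hWc : (10 * K ^ 3) * ((univ \ W).card : ℝ) ≤ 5 * K ^ 3 * N := by
    have h1 : (10 * K ^ 3) * ((univ \ W).card : ℝ) ≤ ∑ u ∈ univ \ W, (N - ((nb A u).card : ℝ)) := by
      rw [mul_comm, ← nsmul_eq_mul]
      refine card_nsmul_le_sum _ _ _ ?_
      intro u hu
      rw [mem_sdiff, hW, mem_filter] at hu
      have := hu.2
      push Not at this
      exact (this (mem_univ _)).le
    have h2 : ∑ u ∈ univ \ W, (N - ((nb A u).card : ℝ)) ≤ ∑ u : V, (N - ((nb A u).card : ℝ)) :=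
      sum_le_sum_of_subset_of_nonneg (subset_univ _) (fun u _ _ => hpos u)
    linarith
  have hWN : N / 2 ≤ (W.card : ℝ) := by
    have h1 : (univ \ W).card + W.card = Fintype.card V := by
      rw [card_sdiff_add_card_eq_card (subset_univ _), card_univ]
    have h2 : ((univ \ W).card : ℝ) + (W.card : ℝ) = N := by rw [hN]; exact_mod_cast h1
    have h3 : ((univ \ W).card : ℝ) ≤ N / 2 := by
      by_contra hlt
      push Not at hlt
      nlinarith
    linarith
  -- maximal clique in W
  have hne : ((powerset W).filter (fun Q => Clq A Q)).Nonempty := by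
    refine ⟨∅, ?_⟩
    rw [mem_filter]
    refine ⟨empty_mem_powerset _, ?_⟩
    intro u hu
    exact absurd hu (notMem_empty u)
  obtain ⟨Q, hQ, hmax⟩ := exists_max_image _ Finset.card hne
  rw [mem_filter, mem_powerset] at hQ
  obtain ⟨hQW, hQc⟩ := hQ
  refine ⟨Q, hQc, ?_⟩
  have hcov : W ⊆ Q.biUnion (fun q => univ.filter (fun v => A q v = 0)) := by
    intro v hv
    rw [mem_biUnion]
    by_cases hvQ : v ∈ Q
    · exact ⟨v, hvQ, by rw [mem_filter]; exact ⟨mem_univ _, hA.dg v⟩⟩
    · by_contra hno
      push Not at hno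
      have h1 : ∀ q ∈ Q, A q v = 1 := by
        intro q hq
        rcases hA.zo q v with e | e
        · exact absurd (by rw [mem_filter]; exact ⟨mem_univ _, e⟩) (hno q hq)
        · exact e
      have h2 : insert v Q ∈ (powerset W).filter (fun Q => Clq A Q) := by
        rw [mem_filter, mem_powerset]
        refine ⟨insert_subset hv hQW, ?_⟩
        intro a ha b hb hab
        rw [mem_insert] at ha hb
        rcases ha with rfl | ha
        · rcases hb with rfl | hb
          · exact absurd rfl hab
          · rw [hA.sym]; exact h1 b hb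
        · rcases hb with rfl | hb
          · exact h1 a ha
          · exact hQc a ha b hb hab
      have h3 := hmax _ h2
      rw [card_insert_of_notMem hvQ] at h3
      omega
  have h4 : (W.card : ℝ) ≤ 10 * K ^ 3 * (Q.card : ℝ) := by
    have h5 : (W.card : ℝ) ≤ ∑ q ∈ Q, ((univ.filter (fun v => A q v = 0)).card : ℝ) := by
      exact_mod_cast (card_le_card hcov).trans card_biUnion_le
    refine h5.trans ?_
    rw [mul_comm (10 * K ^ 3), ← nsmul_eq_mul]
    refine sum_le_card_nsmul _ _ _ ?_
    intro q hq
    rw [DNB_card hA q, ← hN]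
    have := hQW hq
    rw [hW, mem_filter] at this
    exact this.2
  linarith

end Pool.Agent.HLow
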