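import Mathlib
import Pool.Agent.HLow.Targets

set_option autoImplicit false

namespace Pool.Agent.HLow

open Finset

variable {V : Type} [Fintype V] [DecidableEq V]

/-- diagonal matrices -/
def DUAL_diag (D : V → ℝ) : V → V → ℝ := fun u w => if u = w then D u else 0

/-- matrix units -/
def DUAL_E (a b : V) : V → V → ℝ := fun u w => if u = a ∧ w = b then 1 else 0

lemma DUAL_expand (M : V → V → ℝ) : M = ∑ a, ∑ b, M a b • DUAL_E a b := by
  funext u w
  simp only [Finset.sum_apply, Pi.smul_apply, smul_eq_mul, DUAL_E]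
  have h1 : ∀ a, ∑ b, M a b * (if u = a ∧ w = b then (1 : ℝ) else 0)
      = if u = a then M a w else 0 := by
    intro a
    by_cases h : u = a
    · subst h; simp
    · simp [h]
  rw [sum_congr rfl (fun a _ => h1 a)]
  simp

lemma DUAL_lin (f : StrongDual ℝ (V → V → ℝ)) (M : V → V → ℝ) :
    f M = ∑ a, ∑ b, M a b * f (DUAL_E a b) := by
  conv_lhs => rw [DUAL_expand M]
  rw [map_sum]
  refine sum_congr rfl (fun a _ => ?_)
  rw [map_sum]
  refine sum_congr rfl (fun b _ => ?_)
  rw [map_smul, smul_eq_mul]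

lemma DUAL_diag_form (D x : V → ℝ) :
    ∑ u, ∑ w, DUAL_diag D u w * (x u * x w) = ∑ u, D u * x u ^ 2 := by
  refine sum_congr rfl (fun u _ => ?_)
  unfold DUAL_diag
  rw [sum_eq_single u]
  · rw [if_pos rfl]; ring
  · intro b _ hb
    rw [if_neg (Ne.symm hb)]; ring
  · intro h; exact absurd (mem_univ u) h

/-- the compact convex set -/
def DUAL_S1 (A : V → V → ℝ) (γ : ℝ) : Set (V → V → ℝ) :=
  (fun D : V → ℝ => A + DUAL_diag D) '' {D | (∀ u, 0 ≤ D u) ∧ ∑ u, D u ≤ γ}

/-- the closed convex cone -/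
def DUAL_S2 (V : Type) [Fintype V] : Set (V → V → ℝ) :=
  {P | ∀ x : V → ℝ, 0 ≤ ∑ u, ∑ w, P u w * (x u * x w)}

omit [DecidableEq V] in
lemma DUAL_compact0 (γ : ℝ) : IsCompact {D : V → ℝ | (∀ u, 0 ≤ D u) ∧ ∑ u, D u ≤ γ} := by
  have hsub : {D : V → ℝ | (∀ u, 0 ≤ D u) ∧ ∑ u, D u ≤ γ} ⊆ Set.Icc (fun _ => 0) (fun _ => γ) := by
    rintro D ⟨h1, h2⟩
    refine ⟨fun u => h1 u, fun u => ?_⟩
    exact le_trans (single_le_sum (f := D) (fun i _ => h1 i) (mem_univ u)) h2
  refine IsCompact.of_isClosed_subset isCompact_Icc ?_ hsub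
  have h1 : IsClosed {D : V → ℝ | ∀ u, 0 ≤ D u} := by
    have : {D : V → ℝ | ∀ u, 0 ≤ D u} = ⋂ u, {D : V → ℝ | 0 ≤ D u} := by
      ext D; simp
    rw [this]
    exact isClosed_iInter (fun u => isClosed_le continuous_const (continuous_apply u))
  have h2 : IsClosed {D : V → ℝ | ∑ u, D u ≤ γ} :=
    isClosed_le (continuous_finsetSum _ (fun u _ => continuous_apply u)) continuous_const
  exact h1.inter h2

lemma DUAL_compact (A : V → V → ℝ) (γ : ℝ) : IsCompact (DUAL_S1 A γ) := by
  refine (DUAL_compact0 γ).image ?_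
  refine continuous_const.add ?_
  refine continuous_pi (fun u => continuous_pi (fun w => ?_))
  unfold DUAL_diag
  by_cases h : u = w
  · simp only [if_pos h]; exact continuous_apply u
  · simp only [if_neg h]; exact continuous_const

lemma DUAL_convex1 (A : V → V → ℝ) (γ : ℝ) : Convex ℝ (DUAL_S1 A γ) := by
  rintro _ ⟨D, ⟨hD1, hD2⟩, rfl⟩ _ ⟨D', ⟨hD1', hD2'⟩, rfl⟩ s t hs ht hst
  refine ⟨fun u => s * D u + t * D' u, ⟨fun u => ?_, ?_⟩, ?_⟩
  · exact add_nonneg (mul_nonneg hs (hD1 u)) (mul_nonneg ht (hD1' u))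
  · rw [sum_add_distrib, ← mul_sum, ← mul_sum]
    calc s * ∑ u, D u + t * ∑ u, D' u ≤ s * γ + t * γ :=
          add_le_add (mul_le_mul_of_nonneg_left hD2 hs) (mul_le_mul_of_nonneg_left hD2' ht)
      _ = γ := by rw [← add_mul, hst, one_mul]
  · funext u w
    simp only [Pi.add_apply, Pi.smul_apply, smul_eq_mul, DUAL_diag]
    split_ifs
    · linear_combination (-(A u w)) * hst
    · linear_combination (-(A u w)) * hst

omit [DecidableEq V] in
lemma DUAL_convex2 : Convex ℝ (DUAL_S2 V) := by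
  intro P hP Q hQ s t hs ht _ x
  have h1 : ∑ u, ∑ w, (s • P + t • Q) u w * (x u * x w)
      = s * ∑ u, ∑ w, P u w * (x u * x w) + t * ∑ u, ∑ w, Q u w * (x u * x w) := by
    rw [mul_sum, mul_sum, ← sum_add_distrib]
    refine sum_congr rfl (fun u _ => ?_)
    rw [mul_sum, mul_sum, ← sum_add_distrib]
    refine sum_congr rfl (fun w _ => ?_)
    simp only [Pi.add_apply, Pi.smul_apply, smul_eq_mul]
    ring
  rw [h1]
  exact add_nonneg (mul_nonneg hs (hP x)) (mul_nonneg ht (hQ x))

omit [DecidableEq V] in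
lemma DUAL_closed2 : IsClosed (DUAL_S2 V) := by
  have : DUAL_S2 V = ⋂ x : V → ℝ, {P : V → V → ℝ | 0 ≤ ∑ u, ∑ w, P u w * (x u * x w)} := by
    ext P; simp [DUAL_S2]
  rw [this]
  refine isClosed_iInter (fun x => isClosed_le continuous_const ?_)
  refine continuous_finsetSum _ (fun u _ => continuous_finsetSum _ (fun w _ => ?_))
  exact (continuous_apply_apply (ρ := fun _ _ => ℝ) u w).mul continuous_const

theorem p_DUAL (h1 : T_SPEC) : T_DUAL := by
  intro V _ _ A γ hA hγ hB
  by_cases hdis : Disjoint (DUAL_S1 A γ) (DUAL_S2 V)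
  swap
  · rw [Set.not_disjoint_iff] at hdis
    obtain ⟨P, ⟨D, ⟨hD1, hD2⟩, rfl⟩, hP⟩ := hdis
    refine ⟨D, hD1, hD2, fun x => ?_⟩
    have h2 := hP x
    have h3 : ∑ u, ∑ w, (A + DUAL_diag D) u w * (x u * x w)
        = ∑ u, D u * x u ^ 2 + ∑ u, ∑ v, A u v * (x u * x v) := by
      rw [← DUAL_diag_form D x, ← sum_add_distrib]
      refine sum_congr rfl (fun u _ => ?_)
      rw [← sum_add_distrib]
      refine sum_congr rfl (fun w _ => ?_)
      simp only [Pi.add_apply]
      ring
    rw [← h3]; exact h2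
  exfalso
  obtain ⟨f, u0, v0, hf1, huv, hf2⟩ := geometric_hahn_banach_compact_closed
    (DUAL_convex1 A γ) (DUAL_compact A γ) DUAL_convex2 DUAL_closed2 hdis
  have hv0 : v0 < 0 := by
    have := hf2 0 (by intro x; simp)
    rwa [map_zero] at this
  have hcone : ∀ P ∈ DUAL_S2 V, 0 ≤ f P := by
    intro P hP
    by_contra hneg
    push Not at hneg
    have h2 : (v0 / f P) • P ∈ DUAL_S2 V := by
      intro x
      have h3 : ∑ u, ∑ w, ((v0 / f P) • P) u w * (x u * x w)
          = (v0 / f P) * ∑ u, ∑ w, P u w * (x u * x w) := by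
        rw [mul_sum]
        refine sum_congr rfl (fun u _ => ?_)
        rw [mul_sum]
        refine sum_congr rfl (fun w _ => ?_)
        simp only [Pi.smul_apply, smul_eq_mul]
        ring
      rw [h3]
      exact mul_nonneg (div_nonneg_of_nonpos hv0.le hneg.le) (hP x)
    have h3 := hf2 _ h2
    rw [map_smul, smul_eq_mul, div_mul_cancel₀ _ hneg.ne] at h3
    exact lt_irrefl _ h3
  obtain ⟨F, hF⟩ : ∃ F : V → V → ℝ, F = fun a b => f (DUAL_E a b) := ⟨_, rfl⟩
  have hfF : ∀ M : V → V → ℝ, f M = ∑ a, ∑ b, M a b * F a b := by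
    intro M; rw [DUAL_lin f M, hF]
  obtain ⟨X, hX⟩ : ∃ X : V → V → ℝ, X = fun a b => (F a b + F b a) / 2 := ⟨_, rfl⟩
  -- symmetric matrices see only the symmetrization
  have hfX : ∀ M : V → V → ℝ, (∀ a b, M a b = M b a) → f M = ∑ a, ∑ b, M a b * X a b := by
    intro M hM
    have h2 : ∑ a, ∑ b, M a b * F b a = ∑ a, ∑ b, M a b * F a b := by
      rw [sum_comm]
      refine sum_congr rfl (fun a _ => sum_congr rfl (fun b _ => ?_))
      rw [hM b a]
    have h3 : ∑ a, ∑ b, M a b * X a b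
        = (∑ a, ∑ b, M a b * F a b + ∑ a, ∑ b, M a b * F b a) / 2 := by
      rw [← sum_add_distrib, sum_div]
      refine sum_congr rfl (fun a _ => ?_)
      rw [← sum_add_distrib, sum_div]
      refine sum_congr rfl (fun b _ => ?_)
      rw [hX]; ring
    rw [h3, h2, hfF]; ring
  have hXsym : ∀ a b, X a b = X b a := by
    intro a b; rw [hX]; ring
  have hXlow : Low X 0 := by
    intro x
    rw [zero_mul, neg_zero]
    have h2 : (fun a b => x a * x b : V → V → ℝ) ∈ DUAL_S2 V := by
      intro y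
      have h3 : ∑ u, ∑ w, (x u * x w) * (y u * y w) = (∑ u, x u * y u) * (∑ w, x w * y w) := by
        rw [sum_mul_sum]
        refine sum_congr rfl (fun u _ => sum_congr rfl (fun w _ => ?_))
        ring
      rw [h3]; exact mul_self_nonneg _
    have h3 := hcone _ h2
    rw [hfX _ (fun a b => mul_comm _ _)] at h3
    refine le_trans h3 (le_of_eq ?_)
    refine sum_congr rfl (fun u _ => sum_congr rfl (fun w _ => ?_))
    ring
  obtain ⟨lam, v, hS⟩ := h1 V X 0 hXsym hXlow
  have hlam : ∀ i, 0 ≤ lam i := fun i => by simpa using hS.low i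
  -- the maximal diagonal entry
  have hfA : f A < v0 := by
    refine lt_trans (hf1 A ⟨0, ⟨fun _ => le_refl _, by simpa using hγ⟩, ?_⟩) huv
    funext a b
    simp [DUAL_diag]
  rcases isEmpty_or_nonempty V with hV | hV
  · rw [hfF] at hfA
    simp at hfA
    linarith
  obtain ⟨a0, ha0⟩ := Finite.exists_max (fun a => X a a)
  have hmu0 : 0 ≤ X a0 a0 := by
    rw [hS.dec]
    exact sum_nonneg (fun i _ => mul_nonneg (hlam i) (mul_self_nonneg _))
  -- the separating functional at `A + γ e_{a0}`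
  have hfD : f A + γ * X a0 a0 < v0 := by
    have h2 : A + DUAL_diag (fun a => if a = a0 then γ else 0) ∈ DUAL_S1 A γ := by
      refine ⟨fun a => if a = a0 then γ else 0, ⟨fun a => ?_, ?_⟩, rfl⟩
      · show (0 : ℝ) ≤ if a = a0 then γ else 0
        split_ifs
        · exact hγ
        · exact le_refl _
      · simp
    have h3 := lt_trans (hf1 _ h2) huv
    rw [map_add] at h3
    have h4 : f (DUAL_diag (fun a => if a = a0 then γ else 0)) = γ * X a0 a0 := by
      rw [hfX]
      · rw [sum_eq_single a0, sum_eq_single a0]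
        · simp [DUAL_diag]
        · intro b _ hb
          simp [DUAL_diag, Ne.symm hb]
        · intro h; exact absurd (mem_univ _) h
        · intro b _ hb
          refine sum_eq_zero (fun c _ => ?_)
          simp [DUAL_diag, hb]
        · intro h; exact absurd (mem_univ _) h
      · intro a b
        unfold DUAL_diag
        by_cases h : a = b
        · subst h; rfl
        · rw [if_neg h, if_neg (Ne.symm h)]
    rw [h4] at h3
    exact h3
  -- the Gram vectors
  have hgram : ∀ ε : ℝ, 0 < ε → -(γ * (X a0 a0 + ε)) ≤ f A := by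
    intro ε hε
    have hpos : 0 < X a0 a0 + ε := by linarith
    have hprod : ∀ a b i, (Real.sqrt (lam i / (X a0 a0 + ε)) * v i a)
        * (Real.sqrt (lam i / (X a0 a0 + ε)) * v i b)
        = lam i * (v i a * v i b) / (X a0 a0 + ε) := by
      intro a b i
      have h2 := Real.mul_self_sqrt (div_nonneg (hlam i) hpos.le)
      calc (Real.sqrt (lam i / (X a0 a0 + ε)) * v i a)
          * (Real.sqrt (lam i / (X a0 a0 + ε)) * v i b)
          = (Real.sqrt (lam i / (X a0 a0 + ε)) * Real.sqrt (lam i / (X a0 a0 + ε)))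
            * (v i a * v i b) := by ring
        _ = _ := by rw [h2]; ring
    have hsum : ∀ a b, ∑ i, (Real.sqrt (lam i / (X a0 a0 + ε)) * v i a)
        * (Real.sqrt (lam i / (X a0 a0 + ε)) * v i b) = X a b / (X a0 a0 + ε) := by
      intro a b
      rw [sum_congr rfl (fun i _ => hprod a b i), ← sum_div, ← hS.dec]
    have h3 := hB (fun a i => Real.sqrt (lam i / (X a0 a0 + ε)) * v i a) (fun a => by
      have h4 : ∑ j, (Real.sqrt (lam j / (X a0 a0 + ε)) * v j a) ^ 2
          = X a a / (X a0 a0 + ε) := by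
        rw [← hsum a a]
        exact sum_congr rfl (fun i _ => by ring)
      show ∑ j, (Real.sqrt (lam j / (X a0 a0 + ε)) * v j a) ^ 2 ≤ 1
      rw [h4, div_le_one hpos]
      have : X a a ≤ X a0 a0 := ha0 a
      linarith)
    have h5 : ∑ u, ∑ w, A u w * ∑ j, (Real.sqrt (lam j / (X a0 a0 + ε)) * v j u)
        * (Real.sqrt (lam j / (X a0 a0 + ε)) * v j w) = f A / (X a0 a0 + ε) := by
      rw [hfX A hA, sum_div]
      refine sum_congr rfl (fun a _ => ?_)
      rw [sum_div]
      refine sum_congr rfl (fun b _ => ?_)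
      rw [hsum]; ring
    have h6 : -γ ≤ f A / (X a0 a0 + ε) := by rw [← h5]; exact h3
    rw [le_div_iff₀ hpos] at h6
    linarith
  have h7 := hgram (-v0 / (γ + 1)) (div_pos (by linarith) (by linarith))
  have h8 : γ * (-v0 / (γ + 1)) ≤ -v0 := by
    rw [mul_div_assoc', div_le_iff₀ (by linarith)]
    nlinarith
  have h9 : γ * (X a0 a0 + -v0 / (γ + 1)) = γ * X a0 a0 + γ * (-v0 / (γ + 1)) := by ring
  rw [h9] at h7
  linarith

end Pool.Agent.HLow
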