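import Pool.Agent.HLow.Targets

/-!
# HLO-FIN: the conclusion for one digraph with small surplus
-/

set_option autoImplicit false

namespace Pool.Agent.HLow

open Finset

/-- the arcs which do not lie inside `U` -/
lemma FIN_lost {V : Type} [Fintype V] [DecidableEq V] (a : V → V → ℝ)
    (h0 : ∀ u v, 0 ≤ a u v) (U : Finset V) :
    ∑ u, dp a u ≤ (∑ u ∈ U, ∑ v ∈ U, a u v) + ∑ u ∈ Uᶜ, (dp a u + dm a u) := by
  have h1 : ∑ u, dp a u = ∑ u ∈ U, dp a u + ∑ u ∈ Uᶜ, dp a u :=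
    (Finset.sum_add_sum_compl U _).symm
  have h2 : ∑ u ∈ U, dp a u = ∑ u ∈ U, ∑ v ∈ U, a u v + ∑ u ∈ U, ∑ v ∈ Uᶜ, a u v := by
    rw [← Finset.sum_add_distrib]
    refine Finset.sum_congr rfl fun u _ => ?_
    unfold dp
    exact (Finset.sum_add_sum_compl U _).symm
  have h3 : ∑ u ∈ U, ∑ v ∈ Uᶜ, a u v ≤ ∑ v ∈ Uᶜ, dm a v := by
    rw [Finset.sum_comm]
    refine Finset.sum_le_sum fun v _ => ?_
    unfold dm
    exact Finset.sum_le_sum_of_subset_of_nonneg (Finset.subset_univ _) fun u _ _ => h0 u v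
  rw [h1, h2, Finset.sum_add_distrib]
  linarith

lemma FIN_imb {V : Type} [Fintype V] [DecidableEq V] (a : V → V → ℝ)
    (h0 : ∀ u v, 0 ≤ a u v) (U : Finset V) :
    ∑ u ∈ U, |∑ v ∈ U, a u v - ∑ v ∈ U, a v u| ≤
      ∑ u ∈ U, |dp a u - dm a u| + ∑ u ∈ Uᶜ, (dp a u + dm a u) := by
  have h1 : ∀ u ∈ U, |∑ v ∈ U, a u v - ∑ v ∈ U, a v u| ≤
      |dp a u - dm a u| + ∑ v ∈ Uᶜ, (a u v + a v u) := by
    intro u _
    have e1 : dp a u = ∑ v ∈ U, a u v + ∑ v ∈ Uᶜ, a u v :=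
      (Finset.sum_add_sum_compl U _).symm
    have e2 : dm a u = ∑ v ∈ U, a v u + ∑ v ∈ Uᶜ, a v u :=
      (Finset.sum_add_sum_compl U _).symm
    have e3 : ∑ v ∈ U, a u v - ∑ v ∈ U, a v u =
        (dp a u - dm a u) - (∑ v ∈ Uᶜ, a u v - ∑ v ∈ Uᶜ, a v u) := by
      rw [e1, e2]; ring
    have p1 : 0 ≤ ∑ v ∈ Uᶜ, a u v := Finset.sum_nonneg fun v _ => h0 u v
    have p2 : 0 ≤ ∑ v ∈ Uᶜ, a v u := Finset.sum_nonneg fun v _ => h0 v u
    rw [e3, Finset.sum_add_distrib]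
    have h2 : |∑ v ∈ Uᶜ, a u v - ∑ v ∈ Uᶜ, a v u| ≤ ∑ v ∈ Uᶜ, a u v + ∑ v ∈ Uᶜ, a v u := by
      rw [abs_le]; constructor <;> linarith
    exact (abs_sub _ _).trans (by linarith)
  refine (Finset.sum_le_sum h1).trans ?_
  rw [Finset.sum_add_distrib]
  have h3 : ∑ u ∈ U, ∑ v ∈ Uᶜ, (a u v + a v u) ≤ ∑ u ∈ Uᶜ, (dp a u + dm a u) := by
    rw [Finset.sum_comm]
    refine Finset.sum_le_sum fun v _ => ?_
    have h4 : ∑ u ∈ U, (a u v + a v u) ≤ ∑ u, (a u v + a v u) :=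
      Finset.sum_le_sum_of_subset_of_nonneg (Finset.subset_univ _)
        fun u _ _ => add_nonneg (h0 u v) (h0 v u)
    have h5 : ∑ u, (a u v + a v u) = dp a v + dm a v := by
      unfold dp dm; rw [Finset.sum_add_distrib]; ring
    rw [h5] at h4
    exact h4
  linarith

theorem p_FIN (hLEN : T_LEN) (hIMB : T_IMB) (hROUND : T_ROUND) (hDUAL : T_DUAL)
    (hCOMBU : T_COMBU) : T_FIN := by
  classical
  obtain ⟨C', hC'1, hC'⟩ := hCOMBU
  set C : ℝ := 10 ^ 6 + C' with hC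
  have hC'0 : (0 : ℝ) ≤ C' := Nat.cast_nonneg _
  have hC6 : (10 : ℝ) ^ 6 ≤ C := by rw [hC]; linarith
  have hC1 : 1 ≤ C := le_trans (by norm_num) hC6
  refine ⟨C, hC1, 5 * (9 + 6 * C'), ?_⟩
  intro V _ _ a G m ρ D hzo hm hm1 hρ hG
  have hlog : 0 ≤ Real.log m := Real.log_nonneg hm1
  have hρC : C ≤ ρ := by nlinarith
  have hρ6 : (10 : ℝ) ^ 6 ≤ ρ := hC6.trans hρC
  have hρ1 : 1 ≤ ρ := hC1.trans hρC
  have hCρ1 : 1 ≤ C * ρ := by nlinarith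
  have hCρ2 : 2 ≤ C * ρ := by nlinarith
  -- small m
  by_cases hm2 : m < 2
  · have h1 : C * ρ ≤ (C * ρ) ^ (5 * (9 + 6 * C')) := le_self_pow₀ hCρ1 (by omega)
    linarith
  push Not at hm2
  set q : ℝ := m ^ (1 / 5 : ℝ) with hq
  have hm0 : 0 ≤ m := by linarith
  have hq5 : q ^ 5 = m := by
    rw [hq, ← Real.rpow_natCast, ← Real.rpow_mul hm0]; norm_num
  have hq3 : m ^ (3 / 5 : ℝ) = q ^ 3 := by
    rw [hq, ← Real.rpow_natCast, ← Real.rpow_mul hm0]; norm_num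
  have hq1 : 1 ≤ q := Real.one_le_rpow hm1 (by norm_num)
  rw [hq3] at hG
  have h0 : ∀ u v, 0 ≤ a u v := fun u v => D.nonneg u v
  have hdp0 : ∀ u, 0 ≤ dp a u := fun u => Finset.sum_nonneg fun v _ => h0 u v
  have hdm0 : ∀ u, 0 ≤ dm a u := fun u => Finset.sum_nonneg fun v _ => h0 v u
  obtain ⟨pos, hpos0, hpos1, hpos2⟩ := Dicut.exists_pos D
  have hn := Dicut.card_UU_le D
  set n : ℝ := ((Dicut.UU a).card : ℝ) with hndef
  have hn0 : 0 ≤ n := Nat.cast_nonneg _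
  have hG0 : 0 ≤ G := by linarith
  set gam : ℝ := (8 * Real.log m + 2) * G + 8 with hgam
  have hgam0 : 0 ≤ gam := by positivity
  obtain ⟨DD, hDD0, hDDs, hDDq⟩ := hDUAL V (sy a) gam (fun u v => by unfold sy; ring) hgam0
    (hROUND V a G m hzo D.H hG0 hm hm1)
  set K : ℝ := ρ ^ 6 with hK
  set Δ : ℝ := q ^ 2 * ρ ^ 4 with hΔ
  have hK1 : 1 ≤ K := one_le_pow₀ hρ1
  have hΔ0 : 0 < Δ := by positivity
  set U : Finset V := (Dicut.UU a).filter (fun u => DD u ≤ K ∧ dp a u + dm a u ≤ Δ) with hU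
  have hUm : ∀ u ∈ U, u ∈ Dicut.UU a ∧ DD u ≤ K ∧ dp a u + dm a u ≤ Δ := fun u hu =>
    Finset.mem_filter.1 hu
  have hUn : (U.card : ℝ) ≤ n := by
    rw [hndef]; exact_mod_cast Finset.card_le_card (Finset.filter_subset _ _)
  -- lost arcs
  set lost : ℝ := ∑ u ∈ Uᶜ, (dp a u + dm a u) with hlost
  have hdeg0 : ∀ u, 0 ≤ dp a u + dm a u := fun u => add_nonneg (hdp0 u) (hdm0 u)
  have hmpos : 0 < ∑ u, dp a u := by rw [hm]; linarith
  have hlen := hLEN V a G pos D hzo hpos0 hpos1 hpos2 hmpos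
  rw [hm] at hlen
  have hGm : Real.sqrt (G * m) ≤ q ^ 4 * ρ := by
    rw [Real.sqrt_le_left (by positivity)]
    have h1 : G * m ≤ (q ^ 3 * ρ) * q ^ 5 := by
      rw [← hq5]; gcongr
    have h2 : (q ^ 3 * ρ) * q ^ 5 ≤ (q ^ 4 * ρ) ^ 2 := by
      have h3 : (q ^ 4 * ρ) ^ 2 = (q ^ 3 * ρ * q ^ 5) * ρ := by ring
      rw [h3]
      exact le_mul_of_one_le_right (by positivity) hρ1
    linarith
  have hdegsq : ∑ u, (dp a u + dm a u) ^ 2 ≤ 24 * q ^ 7 * ρ ^ 2 := by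
    calc ∑ u, (dp a u + dm a u) ^ 2 ≤ 8 * n * Real.sqrt (G * m) := hlen
      _ ≤ 8 * (3 * (q ^ 3 * ρ)) * (q ^ 4 * ρ) := by
          have : n ≤ 3 * (q ^ 3 * ρ) := by linarith
          gcongr
      _ = 24 * q ^ 7 * ρ ^ 2 := by ring
  have hlost1 : lost ≤ 24 * q ^ 5 / ρ ^ 2 + Δ * (gam / K) := by
    have hpt : ∀ u ∈ Uᶜ, dp a u + dm a u ≤
        (dp a u + dm a u) ^ 2 / Δ + Δ * (DD u / K) := by
      intro u hu
      have hu' : u ∉ U := Finset.mem_compl.1 hu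
      have p1 : 0 ≤ (dp a u + dm a u) ^ 2 / Δ := by positivity
      have p2 : 0 ≤ Δ * (DD u / K) :=
        mul_nonneg hΔ0.le (div_nonneg (hDD0 u) (by linarith))
      by_cases hUU : u ∈ Dicut.UU a
      · by_cases hd : dp a u + dm a u ≤ Δ
        · have hDK : K < DD u := by
            by_contra hcon
            push Not at hcon
            exact hu' (Finset.mem_filter.2 ⟨hUU, hcon, hd⟩)
          have h1 : 1 ≤ DD u / K := by
            rw [le_div_iff₀ (by linarith)]; linarith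
          have h2 : Δ * 1 ≤ Δ * (DD u / K) := mul_le_mul_of_nonneg_left h1 hΔ0.le
          linarith
        · push Not at hd
          have h1 : dp a u + dm a u ≤ (dp a u + dm a u) ^ 2 / Δ := by
            rw [le_div_iff₀ hΔ0]
            have := hdeg0 u
            nlinarith
          linarith
      · have e1 : ∀ v, a u v = 0 := fun v => by
          by_contra h; exact hUU (Dicut.mem_UU_left h)
        have e2 : ∀ v, a v u = 0 := fun v => by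
          by_contra h; exact hUU (Dicut.mem_UU_right h)
        have e3 : dp a u = 0 := Finset.sum_eq_zero fun v _ => e1 v
        have e4 : dm a u = 0 := Finset.sum_eq_zero fun v _ => e2 v
        linarith
    have h1 : lost ≤ ∑ u ∈ Uᶜ, ((dp a u + dm a u) ^ 2 / Δ + Δ * (DD u / K)) :=
      Finset.sum_le_sum hpt
    have h2 : ∑ u ∈ Uᶜ, ((dp a u + dm a u) ^ 2 / Δ + Δ * (DD u / K)) ≤
        ∑ u, ((dp a u + dm a u) ^ 2 / Δ + Δ * (DD u / K)) :=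
      Finset.sum_le_sum_of_subset_of_nonneg (Finset.subset_univ _) fun u _ _ =>
        add_nonneg (by positivity) (mul_nonneg hΔ0.le (div_nonneg (hDD0 u) (by linarith)))
    have h3 : ∑ u, ((dp a u + dm a u) ^ 2 / Δ + Δ * (DD u / K)) =
        (∑ u, (dp a u + dm a u) ^ 2) / Δ + Δ * ((∑ u, DD u) / K) := by
      rw [Finset.sum_add_distrib, Finset.sum_div, ← Finset.mul_sum, Finset.sum_div]
    have h4 : (∑ u, (dp a u + dm a u) ^ 2) / Δ ≤ 24 * q ^ 5 / ρ ^ 2 := by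
      rw [div_le_div_iff₀ hΔ0 (by positivity), hΔ]
      calc (∑ u, (dp a u + dm a u) ^ 2) * ρ ^ 2 ≤ (24 * q ^ 7 * ρ ^ 2) * ρ ^ 2 := by gcongr
        _ = 24 * q ^ 5 * (q ^ 2 * ρ ^ 4) := by ring
    have h5 : Δ * ((∑ u, DD u) / K) ≤ Δ * (gam / K) := by gcongr
    linarith
  have hlost2 : lost ≤ m / 10 ^ 4 := by
    -- first term
    have a1 : 24 * q ^ 5 / ρ ^ 2 ≤ m / (5 * 10 ^ 4) := by
      rw [hq5, div_le_div_iff₀ (by positivity) (by norm_num)]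
      have : (10 : ℝ) ^ 12 ≤ ρ ^ 2 := by nlinarith
      nlinarith
    -- second term
    have a2 : gam ≤ 8 * (1 + Real.log m) * (q ^ 3 * ρ) + 8 := by
      rw [hgam]
      have h1 : (8 * Real.log m + 2) * G ≤ (8 * Real.log m + 2) * (q ^ 3 * ρ) := by gcongr
      have h2 : (8 * Real.log m + 2) * (q ^ 3 * ρ) ≤ (8 * (1 + Real.log m)) * (q ^ 3 * ρ) := by
        gcongr; linarith
      linarith
    have a3 : 1 + Real.log m ≤ ρ / 10 ^ 6 := by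
      rw [le_div_iff₀ (by norm_num)]
      calc (1 + Real.log m) * 10 ^ 6 ≤ (1 + Real.log m) * C := by gcongr
        _ ≤ ρ := by linarith
    have a4 : gam ≤ 8 / 10 ^ 6 * (q ^ 3 * ρ ^ 2) + 8 := by
      calc gam ≤ 8 * (1 + Real.log m) * (q ^ 3 * ρ) + 8 := a2
        _ ≤ 8 * (ρ / 10 ^ 6) * (q ^ 3 * ρ) + 8 := by gcongr
        _ = 8 / 10 ^ 6 * (q ^ 3 * ρ ^ 2) + 8 := by ring
    have a5 : Δ * (gam / K) ≤ 8 / 10 ^ 6 * m + 8 * (m / ρ ^ 2) := by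
      have h1 : Δ * (gam / K) = q ^ 2 * gam / ρ ^ 2 := by
        rw [hΔ, hK]; field_simp
      rw [h1]
      have h2 : q ^ 2 * gam / ρ ^ 2 ≤ q ^ 2 * (8 / 10 ^ 6 * (q ^ 3 * ρ ^ 2) + 8) / ρ ^ 2 := by
        gcongr
      have h3 : q ^ 2 * (8 / 10 ^ 6 * (q ^ 3 * ρ ^ 2) + 8) / ρ ^ 2 =
          8 / 10 ^ 6 * q ^ 5 + 8 * (q ^ 2 / ρ ^ 2) := by
        field_simp
      have h4 : q ^ 2 ≤ m := by
        rw [← hq5]; exact pow_le_pow_right₀ hq1 (by norm_num)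
      have h5 : q ^ 2 / ρ ^ 2 ≤ m / ρ ^ 2 := by gcongr
      rw [h3, hq5] at h2
      linarith
    have a6 : m / ρ ^ 2 ≤ m / 10 ^ 12 := by
      have : (10 : ℝ) ^ 12 ≤ ρ ^ 2 := by nlinarith
      gcongr
    have a7 : m / 10 ^ 12 * 8 + 8 / 10 ^ 6 * m + m / (5 * 10 ^ 4) ≤ m / 10 ^ 4 := by
      norm_num
      linarith
    linarith
  -- the arcs inside U
  set EU : ℝ := ∑ u ∈ U, ∑ v ∈ U, a u v with hEU
  have hEUm : m - m / 10 ^ 4 ≤ EU := by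
    have := FIN_lost a h0 U
    rw [hm] at this
    linarith
  -- imbalances
  set S : ℝ := ∑ u ∈ U, |dp a u - dm a u| with hS
  have hSsq : S ^ 2 ≤ (3 * (q ^ 4 * ρ ^ 3)) ^ 2 := by
    have h1 : S ^ 2 ≤ (U.card : ℝ) * ∑ u ∈ U, |dp a u - dm a u| ^ 2 := by
      rw [hS]; exact sq_sum_le_card_mul_sum_sq
    have h2 : ∑ u ∈ U, |dp a u - dm a u| ^ 2 ≤ 2 * Δ * G := by
      refine le_trans ?_ (hIMB V a G Δ hzo D.H hΔ0)
      simp_rw [sq_abs]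
      refine Finset.sum_le_sum_of_subset_of_nonneg ?_ fun u _ _ => sq_nonneg _
      intro u hu
      exact Finset.mem_filter.2 ⟨Finset.mem_univ _, (hUm u hu).2.2⟩
    have h3 : 0 ≤ ∑ u ∈ U, |dp a u - dm a u| ^ 2 := Finset.sum_nonneg fun u _ => sq_nonneg _
    calc S ^ 2 ≤ (U.card : ℝ) * ∑ u ∈ U, |dp a u - dm a u| ^ 2 := h1
      _ ≤ (3 * (q ^ 3 * ρ)) * (2 * Δ * (q ^ 3 * ρ)) := by
          have : (U.card : ℝ) ≤ 3 * (q ^ 3 * ρ) := by linarith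
          have h4 : ∑ u ∈ U, |dp a u - dm a u| ^ 2 ≤ 2 * Δ * (q ^ 3 * ρ) := by
            refine h2.trans ?_
            gcongr
          gcongr
      _ = 6 * (q ^ 4 * ρ ^ 3) ^ 2 := by rw [hΔ]; ring
      _ ≤ (3 * (q ^ 4 * ρ ^ 3)) ^ 2 := by nlinarith [sq_nonneg (q ^ 4 * ρ ^ 3)]
  have hS1 : S ≤ 3 * (q ^ 4 * ρ ^ 3) :=
    (le_abs_self S).trans (abs_le_of_sq_le_sq hSsq (by positivity))
  by_cases hbig : m / 10 ^ 4 < 3 * (q ^ 4 * ρ ^ 3)
  · -- m is small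
    have h1 : q < 3 * 10 ^ 4 * ρ ^ 3 := by
      rw [← hq5, div_lt_iff₀ (by norm_num)] at hbig
      have h2 : q ^ 4 * q < q ^ 4 * (3 * 10 ^ 4 * ρ ^ 3) := by
        calc q ^ 4 * q = q ^ 5 := by ring
          _ < 3 * (q ^ 4 * ρ ^ 3) * 10 ^ 4 := hbig
          _ = q ^ 4 * (3 * 10 ^ 4 * ρ ^ 3) := by ring
      exact lt_of_mul_lt_mul_left h2 (by positivity)
    have h2 : 3 * 10 ^ 4 * ρ ^ 3 ≤ (C * ρ) ^ 3 := by
      rw [mul_pow]
      have h3 : 3 * 10 ^ 4 ≤ C ^ 3 := by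
        calc (3 : ℝ) * 10 ^ 4 ≤ 10 ^ 6 := by norm_num
          _ ≤ C := hC6
          _ ≤ C ^ 3 := le_self_pow₀ hC1 (by norm_num)
      gcongr
    calc m = q ^ 5 := hq5.symm
      _ ≤ ((C * ρ) ^ 3) ^ 5 := by
          have h5 : q ≤ (C * ρ) ^ 3 := by linarith
          gcongr
      _ = (C * ρ) ^ 15 := by ring
      _ ≤ (C * ρ) ^ (5 * (9 + 6 * C')) := pow_le_pow_right₀ hCρ1 (by omega)
  push Not at hbig
  -- apply COMBU
  have hfin := hC' V a pos U K Δ hzo hpos0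
    (fun u hu v hv h => hpos2 u (hUm u hu).1 v (hUm v hv).1 h) hK1
    (by
      intro x hx
      have h1 := hDDq x
      have h2 : ∑ u, DD u * x u ^ 2 ≤ K * ∑ u, x u ^ 2 := by
        rw [Finset.mul_sum]
        refine Finset.sum_le_sum fun u _ => ?_
        by_cases hu : u ∈ U
        · exact mul_le_mul_of_nonneg_right (hUm u hu).2.1 (sq_nonneg _)
        · rw [hx u hu]; simp
      linarith)
    (fun u hu => (hUm u hu).2.2)
    (by
      have h1 := FIN_imb a h0 U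
      linarith)
    (by linarith)
  have h6 : (m / 2) ^ 3 ≤ ((C' : ℝ) * K) ^ C' * Δ * (3 * (q ^ 3 * ρ)) ^ 4 := by
    calc (m / 2) ^ 3 ≤ EU ^ 3 := by
          have : m / 2 ≤ EU := by linarith
          gcongr
      _ ≤ ((C' : ℝ) * K) ^ C' * Δ * (U.card : ℝ) ^ 4 := hfin
      _ ≤ ((C' : ℝ) * K) ^ C' * Δ * (3 * (q ^ 3 * ρ)) ^ 4 := by
          have : (U.card : ℝ) ≤ 3 * (q ^ 3 * ρ) := by linarith
          gcongr
  -- numerical conclusion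
  have h7 : q ≤ (C * ρ) ^ (9 + 6 * C') := by
    have h8 : q ^ 14 * q ≤ q ^ 14 * (648 * (((C' : ℝ) * K) ^ C' * ρ ^ 8)) := by
      calc q ^ 14 * q = 8 * (m / 2) ^ 3 := by rw [← hq5]; ring
        _ ≤ 8 * (((C' : ℝ) * K) ^ C' * Δ * (3 * (q ^ 3 * ρ)) ^ 4) := by gcongr
        _ = q ^ 14 * (648 * (((C' : ℝ) * K) ^ C' * ρ ^ 8)) := by rw [hΔ]; ring
    have h9 : q ≤ 648 * (((C' : ℝ) * K) ^ C' * ρ ^ 8) :=
      le_of_mul_le_mul_left h8 (by positivity)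
    have h10 : (C' : ℝ) * K ≤ (C * ρ) ^ 6 := by
      rw [mul_pow, hK]
      have h11 : (C' : ℝ) ≤ C ^ 6 := by
        calc (C' : ℝ) ≤ C := by rw [hC]; norm_num
          _ ≤ C ^ 6 := le_self_pow₀ hC1 (by norm_num)
      gcongr
    have h12 : ((C' : ℝ) * K) ^ C' ≤ (C * ρ) ^ (6 * C') := by
      rw [pow_mul]
      exact pow_le_pow_left₀ (by positivity) h10 _
    have h13 : ρ ^ 8 ≤ (C * ρ) ^ 8 := by
      have : ρ ≤ C * ρ := by nlinarith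
      gcongr
    have h14 : (648 : ℝ) ≤ C * ρ := by nlinarith
    calc q ≤ 648 * (((C' : ℝ) * K) ^ C' * ρ ^ 8) := h9
      _ ≤ (C * ρ) * ((C * ρ) ^ (6 * C') * (C * ρ) ^ 8) := by gcongr
      _ = (C * ρ) ^ (9 + 6 * C') := by rw [pow_add]; ring
  calc m = q ^ 5 := hq5.symm
    _ ≤ ((C * ρ) ^ (9 + 6 * C')) ^ 5 := by gcongr
    _ = (C * ρ) ^ (5 * (9 + 6 * C')) := by rw [← pow_mul]; congr 1; ring

end Pool.Agent.HLow
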