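import Pool.Agent.HLow.Targets

set_option autoImplicit false

namespace Pool.Agent.HLow

open Finset

/-- FU: pigeonhole for a vertex -/
theorem p_FU : T_FU := by
  intro V _ _ A q ξ hA hq hξ h
  by_contra hcon
  push Not at hcon
  have h1 : ∀ u, ee A (nb A u) (nb A u) ≤
      q * ((nb A u).card : ℝ) ^ 2 + ξ ^ 2 * (Fintype.card V : ℝ) ^ 2 := by
    intro u
    by_cases hu : ξ * (Fintype.card V : ℝ) ≤ ((nb A u).card : ℝ)
    · have := hcon u hu
      have h2 : 0 ≤ ξ ^ 2 * (Fintype.card V : ℝ) ^ 2 := by positivity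
      linarith
    · push Not at hu
      have h2 := ee_le hA (nb A u) (nb A u)
      have h3 : ((nb A u).card : ℝ) * ((nb A u).card : ℝ) ≤
          (ξ * (Fintype.card V : ℝ)) * (ξ * (Fintype.card V : ℝ)) :=
        mul_self_le_mul_self (Nat.cast_nonneg _) hu.le
      have h4 : 0 ≤ q * ((nb A u).card : ℝ) ^ 2 := by positivity
      nlinarith
  have h2 := Finset.sum_le_sum (s := (univ : Finset V)) fun u _ => h1 u
  rw [Finset.sum_add_distrib, ← Finset.mul_sum, Finset.sum_const, nsmul_eq_mul,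
    Finset.card_univ] at h2
  have h3 : (Fintype.card V : ℝ) * (ξ ^ 2 * (Fintype.card V : ℝ) ^ 2) =
      ξ ^ 2 * (Fintype.card V : ℝ) ^ 3 := by ring
  rw [h3] at h2
  exact absurd (lt_of_lt_of_le h h2) (lt_irrefl _)

end Pool.Agent.HLow
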