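import Pool.Agent.HLow.Targets

set_option autoImplicit false

namespace Pool.Agent.HLow

open Finset

lemma IMB_Gf {V : Type} [Fintype V] [DecidableEq V] (a : V → V → ℝ)
    (h01 : ∀ u v, a u v = 0 ∨ a u v = 1) (x : V → ℝ) :
    ∑ u, ((dp a u - dm a u) * x u - 1 / 2 * (dp a u + dm a u) * x u ^ 2) ≤ Dicut.Gf a x := by
  have h0 : ∀ u v, 0 ≤ a u v := by
    intro u v
    rcases h01 u v with h | h <;> rw [h] <;> norm_num
  have e1 : ∑ u, ((dp a u - dm a u) * x u - 1 / 2 * (dp a u + dm a u) * x u ^ 2) =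
      ∑ u, ∑ v, a u v * (x u - x v - (x u ^ 2 + x v ^ 2) / 2) := by
    have e2 : ∑ u, ∑ v, a u v * (x u - x v - (x u ^ 2 + x v ^ 2) / 2) =
        ∑ u, ∑ v, (a u v * (x u - x u ^ 2 / 2)) + ∑ u, ∑ v, (a u v * (- x v - x v ^ 2 / 2)) := by
      rw [← sum_add_distrib]
      refine sum_congr rfl fun u _ => ?_
      rw [← sum_add_distrib]
      exact sum_congr rfl fun v _ => by ring
    rw [e2]
    rw [sum_comm (f := fun u v => a u v * (- x v - x v ^ 2 / 2)), ← sum_add_distrib]
    refine sum_congr rfl fun u _ => ?_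
    rw [← sum_mul, ← sum_mul]
    unfold dp dm
    ring
  rw [e1]
  unfold Dicut.Gf
  refine sum_le_sum fun u _ => sum_le_sum fun v _ => mul_le_mul_of_nonneg_left ?_ (h0 u v)
  nlinarith [sq_nonneg (x u - x v)]

/-- test vector for the imbalances -/
theorem p_IMB : T_IMB := by
  intro V _ _ a G Δ h01 hG hΔ
  have h0 : ∀ u v, 0 ≤ a u v := by
    intro u v
    rcases h01 u v with h | h <;> rw [h] <;> norm_num
  have hdp : ∀ u, 0 ≤ dp a u := fun u => sum_nonneg fun v _ => h0 u v
  have hdm : ∀ u, 0 ≤ dm a u := fun u => sum_nonneg fun v _ => h0 v u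
  set x : V → ℝ := fun u => if dp a u + dm a u ≤ Δ then (dp a u - dm a u) / Δ else 0 with hx
  have hx1 : ∀ v, |x v| ≤ 1 := by
    intro u
    rw [hx]
    dsimp only
    split_ifs with h
    · rw [abs_div, abs_of_pos hΔ, div_le_one hΔ, abs_le]
      constructor
      · linarith [hdp u, hdm u]
      · linarith [hdp u, hdm u]
    · simp
  have h1 := (IMB_Gf a h01 x).trans (hG x hx1)
  have h2 : ∑ u ∈ univ.filter (fun u => dp a u + dm a u ≤ Δ), (dp a u - dm a u) ^ 2 / (2 * Δ) ≤
      ∑ u, ((dp a u - dm a u) * x u - 1 / 2 * (dp a u + dm a u) * x u ^ 2) := by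
    rw [sum_filter]
    refine sum_le_sum fun u _ => ?_
    rw [hx]
    dsimp only
    by_cases h : dp a u + dm a u ≤ Δ
    · rw [if_pos h, if_pos h]
      have e1 : (dp a u - dm a u) * ((dp a u - dm a u) / Δ) -
          1 / 2 * (dp a u + dm a u) * ((dp a u - dm a u) / Δ) ^ 2 =
          (dp a u - dm a u) ^ 2 / (2 * Δ) +
          (dp a u - dm a u) ^ 2 * (Δ - (dp a u + dm a u)) / (2 * Δ ^ 2) := by
        field_simp
        ring
      rw [e1]
      have e2 : 0 ≤ (dp a u - dm a u) ^ 2 * (Δ - (dp a u + dm a u)) / (2 * Δ ^ 2) :=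
        div_nonneg (mul_nonneg (sq_nonneg _) (by linarith)) (by positivity)
      linarith
    · rw [if_neg h, if_neg h]
      simp
  have h3 := h2.trans h1
  rw [← sum_div, div_le_iff₀ (by positivity)] at h3
  linarith

end Pool.Agent.HLow
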