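import Mathlib
import Pool.Agent.HLow.Targets

set_option autoImplicit false

namespace Pool.Agent.HLow

open Finset

lemma INC1_pow {L L0 : ℕ} {K N : ℝ} (hK : 1 ≤ K) (hL0 : 1 ≤ L0) (hL : L0 ≤ L)
    (h : ((L : ℝ) * K) ^ L ≤ N) : ((L0 : ℝ) * K) ^ L0 ≤ N := by
  have h1 : (1 : ℝ) ≤ L0 := by exact_mod_cast hL0
  have h2 : (L0 : ℝ) ≤ L := by exact_mod_cast hL
  have h3 : (1 : ℝ) ≤ (L : ℝ) * K := by nlinarith
  refine le_trans ?_ h
  calc ((L0 : ℝ) * K) ^ L0 ≤ ((L : ℝ) * K) ^ L0 :=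
        pow_le_pow_left₀ (by positivity) (mul_le_mul_of_nonneg_right h2 (by linarith)) _
    _ ≤ ((L : ℝ) * K) ^ L := pow_le_pow_right₀ h3 hL

lemma INC1_TT {r : ℝ} (hr : 0 < r) :
    (1 - 2 / (4 : ℝ))⁻¹ * (4 * (512 / r ^ 8)) ^ (1 / 4 : ℝ) ≤ 14 / r ^ 2 := by
  have h1 : (4 * (512 / r ^ 8)) ^ (1 / 4 : ℝ) ≤ 7 / r ^ 2 := by
    have h2 : (7 / r ^ 2 : ℝ) = ((7 / r ^ 2) ^ (4 : ℝ)) ^ (1 / 4 : ℝ) := by
      rw [← Real.rpow_mul (by positivity)]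
      norm_num
    rw [h2]
    refine Real.rpow_le_rpow (by positivity) ?_ (by norm_num)
    have h3 : ((7 / r ^ 2) ^ (4 : ℝ) : ℝ) = 2401 / r ^ 8 := by
      have : ((4 : ℝ)) = ((4 : ℕ) : ℝ) := by norm_num
      rw [this, Real.rpow_natCast, div_pow, ← pow_mul]
      norm_num
    rw [h3, ← mul_div_assoc]
    exact div_le_div_of_nonneg_right (by norm_num) (by positivity)
  have h4 : (1 - 2 / (4 : ℝ))⁻¹ = 2 := by norm_num
  rw [h4]
  have h5 : (14 / r ^ 2 : ℝ) = 2 * (7 / r ^ 2) := by ring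
  rw [h5]
  linarith

lemma INC1_TL {r : ℝ} (hr : 0 < r) :
    2 * ((1 - 2 / (4 : ℝ))⁻¹ * (4 : ℝ) ^ (1 / 4 : ℝ)) / Real.sqrt (512 / r ^ 8) ≤ r ^ 4 / 4 := by
  have h4 : (1 - 2 / (4 : ℝ))⁻¹ = 2 := by norm_num
  rw [h4]
  set a : ℝ := (4 : ℝ) ^ (1 / 4 : ℝ) with ha
  have ha0 : 0 < a := by positivity
  have ha2 : a ^ 2 = 2 := by
    rw [ha, ← Real.rpow_natCast, ← Real.rpow_mul (by norm_num)]
    have h5 : (1 / 4 : ℝ) * ((2 : ℕ) : ℝ) = 1 / 2 := by norm_num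
    rw [h5, ← Real.sqrt_eq_rpow]
    have : (4 : ℝ) = 2 ^ 2 := by norm_num
    rw [this, Real.sqrt_sq (by norm_num)]
  have hs : Real.sqrt (512 / r ^ 8) = 16 * a / r ^ 4 := by
    have h6 : (512 / r ^ 8 : ℝ) = (16 * a / r ^ 4) ^ 2 := by
      rw [div_pow, mul_pow, ha2, ← pow_mul]
      norm_num
    rw [h6, Real.sqrt_sq (by positivity)]
  rw [hs]
  have : 2 * (2 * a) / (16 * a / r ^ 4) = r ^ 4 / 4 := by
    field_simp
    norm_num
  rw [this]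

theorem p_INC1 (hSPEC : T_SPEC) (hTR : T_TR) (hTX : T_TX) (hYL : T_YL) (hXU : T_XU)
    (hFU : T_FU) (hPOW : T_POW) (hN : T_INC1N) : T_INC1 := by
  obtain ⟨L0, hL0, hP⟩ := hPOW (1 / 4) (by norm_num)
  refine ⟨max L0 100, le_trans hL0 (le_max_left _ _), ?_⟩
  intro V _ _ A K r hA hlow hK hLN hr hr1 hKr he2
  set N : ℝ := (Fintype.card V : ℝ) with hNdef
  have hP1 : ((L0 : ℝ) * K) ^ L0 ≤ N := INC1_pow hK hL0 (le_max_left _ _) hLN
  have hP2 : (((100 : ℕ) : ℝ) * K) ^ 100 ≤ N :=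
    INC1_pow hK (by norm_num) (le_max_right _ _) hLN
  have hP3 : (100 * K) ^ 6 ≤ N := by
    refine le_trans ?_ hP2
    push_cast
    exact pow_le_pow_right₀ (by linarith) (by norm_num)
  have hN1 : 1 ≤ N := le_trans (one_le_pow₀ (by linarith)) hP3
  have hN0 : 0 < N := by linarith
  have hcard : 1 ≤ Fintype.card V := by
    have : (1 : ℝ) ≤ (Fintype.card V : ℝ) := hN1
    exact_mod_cast this
  obtain ⟨lam, v, hS⟩ := hSPEC V A K hA.sym hlow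
  obtain ⟨-, hs2, hs3⟩ := hTR V A K lam v hA hS
  obtain ⟨hTT, hTL⟩ := hTX V A K 4 (1 / 4) lam v hA hS hK hcard le_rfl (by norm_num) le_rfl
    (hP K N 4 hK (by norm_num) hP1)
  set x : ℝ := 512 / r ^ 8 with hx
  have hr8 : r ^ 8 ≤ 1 := pow_le_one₀ hr.le (by linarith)
  have hx4 : 4 ≤ x := by
    rw [hx, le_div_iff₀ (by positivity)]
    linarith
  have hx0 : 0 < x := by linarith
  set τ : ℝ := N / x with hτ
  have hτ0 : 0 < τ := div_pos hN0 hx0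
  have htt : TT lam τ ≤ N * (14 / r ^ 2) :=
    (hTT x (by linarith)).trans (mul_le_mul_of_nonneg_left (INC1_TT hr) hN0.le)
  have htl : TL lam τ ≤ N ^ 2 * (r ^ 4 / 4) :=
    (hTL x hx4).trans (mul_le_mul_of_nonneg_left (INC1_TL hr) (by positivity))
  have htt0 : 0 ≤ TT lam τ := by
    refine sum_nonneg fun i _ => ?_
    split_ifs with h
    · linarith
    · exact le_rfl
  have hY0 : 0 ≤ ∑ u, ee A (nb A u) (nb A u) := sum_nonneg fun u _ => ee_nonneg hA _ _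
  have hX0 : 0 ≤ ∑ u, ((nb A u).card : ℝ) ^ 2 := sum_nonneg fun u _ => sq_nonneg _
  have hK0 : 0 ≤ K := by linarith
  have hyl := hYL V lam K τ hK0 hτ0 hS.low
  rw [hs2, hs3, he2] at hyl
  have hxu := hXU V A K hA hlow hK0
  rw [he2] at hxu
  have hKN : 1000 * K ^ 3 ≤ r ^ 10 * N := by
    have h1 : r ^ 12 ≤ r ^ 10 := pow_le_pow_of_le_one hr.le (by linarith) (by norm_num)
    have h2 : 1 ≤ 64 * K ^ 3 * r ^ 12 := by
      have : 1 ≤ (4 * K * r ^ 4) ^ 3 := one_le_pow₀ hKr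
      calc (1 : ℝ) ≤ (4 * K * r ^ 4) ^ 3 := this
        _ = 64 * K ^ 3 * r ^ 12 := by ring
    have h3 : 64000 * K ^ 6 ≤ N := by
      refine le_trans ?_ hP3
      have : (100 * K) ^ 6 = 1000000000000 * K ^ 6 := by ring
      rw [this]
      have : 0 ≤ K ^ 6 := by positivity
      linarith
    have h4 : 1000 * K ^ 3 ≤ r ^ 12 * N := by
      have h5 : 64 * K ^ 3 * (1000 * K ^ 3) ≤ 64 * K ^ 3 * (r ^ 12 * N) := by
        calc 64 * K ^ 3 * (1000 * K ^ 3) = 64000 * K ^ 6 := by ring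
          _ ≤ N := h3
          _ ≤ (64 * K ^ 3 * r ^ 12) * N := le_mul_of_one_le_left hN0.le h2
          _ = 64 * K ^ 3 * (r ^ 12 * N) := by ring
      exact le_of_mul_le_mul_left h5 (by positivity)
    exact h4.trans (mul_le_mul_of_nonneg_right h1 hN0.le)
  have key := hN r K N (∑ u, ee A (nb A u) (nb A u)) (∑ u, ((nb A u).card : ℝ) ^ 2)
    (TT lam τ) (TL lam τ) hr hr1 hK hN1 hKN hX0 hY0 htt0 htt htl hyl hxu
  obtain ⟨u, hu1, hu2⟩ := hFU V A (r ^ 3 / 32) (r ^ 5 / 12) hA (by positivity) (by positivity) key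
  exact ⟨u, hu1, hu2.le⟩

end Pool.Agent.HLow
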