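import Pool.Agent.HLow.Targets

/-!
# HLO-INC1N: numerical part of the first density increment
-/

set_option autoImplicit false

namespace Pool.Agent.HLow

theorem p_INC1N : T_INC1N := by
  intro r K N Y X tt tl hr hr1 hK hN hKN hX hY htt0 htt htl hinc hXX
  have hr1' : r ≤ 1 := by linarith [show (1 : ℝ) / 1024 ≤ 1 by norm_num]
  have hN0 : 0 < N := by linarith
  have hK0 : 0 < K := by linarith
  have hr4 : 0 < r ^ 4 := by positivity
  have hr10 : 0 < r ^ 10 := by positivity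
  have hr41 : r ^ 4 ≤ 1 := pow_le_one₀ hr.le hr1'
  have hr104 : r ^ 10 ≤ r ^ 4 := pow_le_pow_of_le_one hr.le hr1' (by norm_num)
  have hK23 : K ^ 2 ≤ K ^ 3 := pow_le_pow_right₀ hK (by norm_num)
  have hK13 : K ≤ K ^ 3 := by
    calc K = K ^ 1 := (pow_one K).symm
      _ ≤ K ^ 3 := pow_le_pow_right₀ hK (by norm_num)
  -- the quantities `a` and `b`
  set a : ℝ := r ^ 4 * N ^ 2 with ha
  set b : ℝ := r ^ 10 * N ^ 3 with hb
  have ha0 : 0 < a := by positivity
  have hb0 : 0 < b := by positivity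
  have hrN : r ^ 10 * N ≤ r ^ 4 * N := mul_le_mul_of_nonneg_right hr104 hN0.le
  have h1 : 1000 * (K ^ 2 * N) ≤ a := by
    have h : 1000 * K ^ 2 ≤ r ^ 4 * N := by linarith
    calc 1000 * (K ^ 2 * N) = (1000 * K ^ 2) * N := by ring
      _ ≤ (r ^ 4 * N) * N := mul_le_mul_of_nonneg_right h hN0.le
      _ = a := by rw [ha]; ring
  have h2 : 1000 * (K * N) ≤ a := by
    have h : 1000 * K ≤ r ^ 4 * N := by linarith
    calc 1000 * (K * N) = (1000 * K) * N := by ring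
      _ ≤ (r ^ 4 * N) * N := mul_le_mul_of_nonneg_right h hN0.le
      _ = a := by rw [ha]; ring
  have h3 : 1000 * (K ^ 3 * N) ≤ b := by
    have hNN : N * N ≤ N ^ 3 := by
      calc N * N = N ^ 2 := by ring
        _ ≤ N ^ 3 := pow_le_pow_right₀ hN (by norm_num)
    calc 1000 * (K ^ 3 * N) = (1000 * K ^ 3) * N := by ring
      _ ≤ (r ^ 10 * N) * N := mul_le_mul_of_nonneg_right hKN hN0.le
      _ = r ^ 10 * (N * N) := by ring
      _ ≤ r ^ 10 * N ^ 3 := mul_le_mul_of_nonneg_left hNN hr10.le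
      _ = b := hb.symm
  have h4 : 1000 * (K * a) ≤ b := by
    have h : 1000 * K ≤ r ^ 10 * N := by linarith
    calc 1000 * (K * a) = (1000 * K) * a := by ring
      _ ≤ (r ^ 10 * N) * a := mul_le_mul_of_nonneg_right h ha0.le
      _ = r ^ 4 * b := by rw [ha, hb]; ring
      _ ≤ 1 * b := mul_le_mul_of_nonneg_right hr41 hb0.le
      _ = b := one_mul b
  have htl' : tl ≤ a / 4 := by
    calc tl ≤ N ^ 2 * (r ^ 4 / 4) := htl
      _ = a / 4 := by rw [ha]; ring
  have h5 := hinc (by linarith)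
  have h6 : a / 2 ≤ a - tl - K ^ 2 * N := by linarith
  have h7 : (a / 2) ^ 2 ≤ (a - tl - K ^ 2 * N) ^ 2 := pow_le_pow_left₀ (by positivity) h6 2
  have hYK : 0 ≤ Y + K ^ 3 * N := by positivity
  have h8 : (a / 2) ^ 2 ≤ (Y + K ^ 3 * N) * (N * (14 / r ^ 2)) :=
    (h7.trans h5).trans (mul_le_mul_of_nonneg_left htt hYK)
  have h9 : b ≤ 56 * (Y + K ^ 3 * N) := by
    have h10 : (a / 2) ^ 2 * r ^ 2 ≤ (Y + K ^ 3 * N) * (N * (14 / r ^ 2)) * r ^ 2 :=
      mul_le_mul_of_nonneg_right h8 (by positivity)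
    have h11 : (Y + K ^ 3 * N) * (N * (14 / r ^ 2)) * r ^ 2 = N * (14 * (Y + K ^ 3 * N)) := by
      field_simp
    have h12 : (a / 2) ^ 2 * r ^ 2 = N * (b / 4) := by
      rw [ha, hb]
      ring
    rw [h11, h12] at h10
    have h13 := le_of_mul_le_mul_left h10 hN0
    linarith
  have h10 : b / 64 ≤ Y := by linarith
  have h11 : K * a ≤ Y := by linarith
  have h12 : X ^ 2 ≤ 4 * a * N * Y := by
    calc X ^ 2 ≤ (a + K * N) * N * (Y + K * a) := hXX
      _ ≤ (2 * a) * N * (2 * Y) := by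
        apply mul_le_mul
        · apply mul_le_mul_of_nonneg_right _ hN0.le
          linarith
        · linarith
        · positivity
        · positivity
      _ = 4 * a * N * Y := by ring
  by_contra hc
  rw [not_lt] at hc
  have hc' : Y ≤ r ^ 3 / 32 * X + b / 144 := by
    calc Y ≤ r ^ 3 / 32 * X + (r ^ 5 / 12) ^ 2 * N ^ 3 := hc
      _ = r ^ 3 / 32 * X + b / 144 := by rw [hb]; ring
  have h13 : 5 / 9 * Y ≤ r ^ 3 / 32 * X := by linarith
  have hY0 : 0 < Y := by linarith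
  have h14 : (5 / 9 * Y) ^ 2 ≤ (r ^ 3 / 32 * X) ^ 2 := pow_le_pow_left₀ (by positivity) h13 2
  have h15 : (r ^ 3 / 32 * X) ^ 2 ≤ b / 256 * Y := by
    calc (r ^ 3 / 32 * X) ^ 2 = (r ^ 6 / 1024) * X ^ 2 := by ring
      _ ≤ (r ^ 6 / 1024) * (4 * a * N * Y) := mul_le_mul_of_nonneg_left h12 (by positivity)
      _ = b / 256 * Y := by rw [ha, hb]; ring
  have h16 : (25 / 81 * Y) * Y ≤ b / 256 * Y := by
    calc (25 / 81 * Y) * Y = (5 / 9 * Y) ^ 2 := by ring
      _ ≤ _ := h14.trans h15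
  have h17 := le_of_mul_le_mul_right h16 hY0
  linarith

end Pool.Agent.HLow
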