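import Pool.Agent.HLow.Targets

set_option autoImplicit false

namespace Pool.Agent.HLow

open Finset

theorem INC2_two_le (n : ℕ) (hn : 0 < n) : (2 : ℝ) ≤ (1 + 1 / (n : ℝ)) ^ n := by
  have hn' : (0 : ℝ) < n := by exact_mod_cast hn
  have h := one_add_mul_le_pow (a := 1 / (n : ℝ)) (by have := div_pos one_pos hn'; linarith) n
  have h2 : (n : ℝ) * (1 / (n : ℝ)) = 1 := by field_simp
  rw [h2] at h
  linarith

theorem INC2_root (n k : ℕ) (hn : 0 < n) (hk : 0 < k) (a : ℝ) (ha : 0 ≤ a)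
    (h : a ≤ 2 ^ k) : a ^ (((n * k : ℕ) : ℝ)⁻¹) ≤ 1 + 1 / (n : ℝ) := by
  have h1 : (2 : ℝ) ^ k ≤ (1 + 1 / (n : ℝ)) ^ (n * k) := by
    rw [pow_mul]
    exact pow_le_pow_left₀ (by norm_num) (INC2_two_le n hn) k
  have h2 : (0 : ℝ) ≤ 1 + 1 / (n : ℝ) := by positivity
  calc a ^ (((n * k : ℕ) : ℝ)⁻¹) ≤ ((1 + 1 / (n : ℝ)) ^ (n * k)) ^ (((n * k : ℕ) : ℝ)⁻¹) :=
        Real.rpow_le_rpow ha (h.trans h1) (by positivity)
    _ = 1 + 1 / (n : ℝ) := Real.pow_rpow_inv_natCast h2 (Nat.mul_pos hn hk).ne'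

theorem INC2_num (a : ℝ) (ha : 0 ≤ a) (h : a ≤ 10 ^ 42) (c : ℝ) (hc : c = 1 / 10 ^ 7) :
    a ^ c ≤ 1 + 1 / 50000 := by
  have h1 := INC2_root 50000 200 (by norm_num) (by norm_num) a ha (h.trans (by norm_num))
  have h2 : (((50000 * 200 : ℕ) : ℝ))⁻¹ = c := by rw [hc]; norm_num
  have h3 : ((50000 : ℕ) : ℝ) = 50000 := by norm_num
  rw [h2, h3] at h1
  exact h1

theorem p_INC2 (h1 : T_SPEC) (h2 : T_TR) (h3 : T_TX) (h4 : T_YL) (h5 : T_XU) (h6 : T_FU)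
    (h7 : T_POW) (h8 : T_INC2N) : T_INC2 := by
  obtain ⟨c, hc⟩ : ∃ c : ℝ, c = 1 / 10 ^ 7 := ⟨_, rfl⟩
  have hc0 : 0 < c := by rw [hc]; norm_num
  have hc4 : c ≤ 1 / 4 := by rw [hc]; norm_num
  obtain ⟨L0, hL0, hpow⟩ := h7 c hc0
  refine ⟨max L0 200, le_trans hL0 (le_max_left _ _), ?_⟩
  intro V _ _ A K p hA hlow hK hL hp1 hp2 hee
  set N : ℝ := (Fintype.card V : ℝ) with hN
  have hLr1 : (L0 : ℝ) ≤ ((max L0 200 : ℕ) : ℝ) := by exact_mod_cast le_max_left _ _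
  have hLr2 : (200 : ℝ) ≤ ((max L0 200 : ℕ) : ℝ) := by exact_mod_cast le_max_right _ _
  have hL01 : (1 : ℝ) ≤ (L0 : ℝ) := by exact_mod_cast hL0
  have hLK : 1 ≤ ((max L0 200 : ℕ) : ℝ) * K := by nlinarith
  have hN1 : ((L0 : ℝ) * K) ^ L0 ≤ N := by
    have e1 : ((L0 : ℝ) * K) ^ L0 ≤ (((max L0 200 : ℕ) : ℝ) * K) ^ L0 :=
      pow_le_pow_left₀ (by positivity) (mul_le_mul_of_nonneg_right hLr1 (by linarith)) _
    have e2 : (((max L0 200 : ℕ) : ℝ) * K) ^ L0 ≤ (((max L0 200 : ℕ) : ℝ) * K) ^ (max L0 200) :=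
      pow_le_pow_right₀ hLK (le_max_left _ _)
    exact (e1.trans e2).trans hL
  have hN2 : (200 * K) ^ 20 ≤ N := by
    have e1 : ((200 : ℝ) * K) ^ 20 ≤ (((max L0 200 : ℕ) : ℝ) * K) ^ 20 :=
      pow_le_pow_left₀ (by positivity) (mul_le_mul_of_nonneg_right hLr2 (by linarith)) _
    have e2 : (((max L0 200 : ℕ) : ℝ) * K) ^ 20 ≤ (((max L0 200 : ℕ) : ℝ) * K) ^ (max L0 200) :=
      pow_le_pow_right₀ hLK (le_trans (by norm_num) (le_max_right _ _))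
    exact (e1.trans e2).trans hL
  have hK20 : K ^ 3 ≤ K ^ 20 := pow_le_pow_right₀ hK (by norm_num)
  have hN3 : 100000 * (2 ^ 80 * K ^ 3) ≤ N := by
    have e1 : (200 * K) ^ 20 = 200 ^ 20 * K ^ 20 := by ring
    rw [e1] at hN2
    have hK3 : 0 ≤ K ^ 20 := by positivity
    have e2 : 100000 * (2 ^ 80 * K ^ 3) ≤ 200 ^ 20 * K ^ 20 := by
      calc 100000 * (2 ^ 80 * K ^ 3) ≤ 100000 * (2 ^ 80 * K ^ 20) := by
            apply mul_le_mul_of_nonneg_left _ (by norm_num)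
            exact mul_le_mul_of_nonneg_left hK20 (by norm_num)
        _ = (100000 * 2 ^ 80) * K ^ 20 := by ring
        _ ≤ 200 ^ 20 * K ^ 20 := by
            apply mul_le_mul_of_nonneg_right _ hK3
            norm_num
    exact e2.trans hN2
  have hNge1 : 1 ≤ N := by
    have hK3 : 1 ≤ K ^ 3 := one_le_pow₀ hK
    have e1 : (100000 * 2 ^ 80 : ℝ) * 1 ≤ 100000 * (2 ^ 80 * K ^ 3) := by
      nlinarith
    have e2 : (1 : ℝ) ≤ (100000 * 2 ^ 80 : ℝ) * 1 := by norm_num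
    linarith
  have hp0 : 0 < p := lt_of_lt_of_le (by norm_num) hp1
  have hp2K : 100000 * K ^ 3 ≤ p ^ 2 * N := by
    have e1 : (1 / 2 ^ 40 : ℝ) ^ 2 ≤ p ^ 2 := pow_le_pow_left₀ (by norm_num) hp1 2
    have e2 : (1 / 2 ^ 40 : ℝ) ^ 2 = 1 / 2 ^ 80 := by norm_num
    rw [e2] at e1
    have e3 : 1 / 2 ^ 80 * N ≤ p ^ 2 * N := mul_le_mul_of_nonneg_right e1 (by linarith)
    have e4 : 100000 * K ^ 3 ≤ 1 / 2 ^ 80 * N := by
      have e5 : 1 / 2 ^ 80 * (100000 * (2 ^ 80 * K ^ 3)) ≤ 1 / 2 ^ 80 * N :=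
        mul_le_mul_of_nonneg_left hN3 (by norm_num)
      have e6 : 1 / 2 ^ 80 * (100000 * (2 ^ 80 * K ^ 3)) = 100000 * K ^ 3 := by ring
      linarith
    exact e4.trans e3
  obtain ⟨lam, v, hspec⟩ := h1 V A K hA.sym hlow
  obtain ⟨hs1, hs2, hs3⟩ := h2 V A K lam v hA hspec
  have hcard : 1 ≤ Fintype.card V := by
    rw [hN] at hNge1
    exact_mod_cast hNge1
  have hKpow := hpow K N (10 ^ 6) hK (by norm_num) hN1
  obtain ⟨hTT, hTL⟩ := h3 V A K (10 ^ 6) c lam v hA hspec hK hcard (by norm_num)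
    hc0 hc4 hKpow
  have hTT1 := hTT (10 ^ 36) (by norm_num)
  have hTL1 := hTL (10 ^ 36) (by norm_num)
  rw [← hN] at hTT1 hTL1
  have hb1 : ((1 : ℝ) - 2 / 10 ^ 6)⁻¹ ≤ 1 + 3 / 10 ^ 6 := by
    rw [inv_le_comm₀ (by norm_num) (by norm_num)]
    norm_num
  have hb0 : (0 : ℝ) ≤ ((1 : ℝ) - 2 / 10 ^ 6)⁻¹ := by norm_num
  have hr1 : ((10 : ℝ) ^ 6 * 10 ^ 36) ^ c ≤ 1 + 1 / 50000 :=
    INC2_num _ (by norm_num) (by norm_num) c hc
  have hr2 : ((10 : ℝ) ^ 6) ^ c ≤ 1 + 1 / 50000 :=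
    INC2_num _ (by norm_num) (by norm_num) c hc
  have hr10 : (0 : ℝ) ≤ ((10 : ℝ) ^ 6 * 10 ^ 36) ^ c :=
    Real.rpow_nonneg (by norm_num) _
  have hr20 : (0 : ℝ) ≤ ((10 : ℝ) ^ 6) ^ c := Real.rpow_nonneg (by norm_num) _
  have hTT2 : TT lam (N / 10 ^ 36) ≤ N * (1 + 1 / 40000) := by
    refine hTT1.trans (mul_le_mul_of_nonneg_left ?_ (by linarith))
    calc ((1 : ℝ) - 2 / 10 ^ 6)⁻¹ * ((10 : ℝ) ^ 6 * 10 ^ 36) ^ c ≤
        (1 + 3 / 10 ^ 6) * (1 + 1 / 50000) := mul_le_mul hb1 hr1 hr10 (by norm_num)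
      _ ≤ 1 + 1 / 40000 := by norm_num
  have hsqrt : Real.sqrt ((10 : ℝ) ^ 36) = 10 ^ 18 := by
    have : (10 : ℝ) ^ 36 = (10 ^ 18) ^ 2 := by norm_num
    rw [this, Real.sqrt_sq (by norm_num)]
  have hTL2 : TL lam (N / 10 ^ 36) ≤ N ^ 2 * (p / 40000) := by
    refine hTL1.trans (mul_le_mul_of_nonneg_left ?_ (by positivity))
    rw [hsqrt]
    have e1 : ((1 : ℝ) - 2 / 10 ^ 6)⁻¹ * ((10 : ℝ) ^ 6) ^ c ≤
        (1 + 3 / 10 ^ 6) * (1 + 1 / 50000) := mul_le_mul hb1 hr2 hr20 (by norm_num)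
    have e2 : (1 / 2 ^ 40 : ℝ) / 40000 ≤ p / 40000 := by
      apply div_le_div_of_nonneg_right hp1 (by norm_num)
    refine le_trans ?_ e2
    calc 2 * (((1 : ℝ) - 2 / 10 ^ 6)⁻¹ * ((10 : ℝ) ^ 6) ^ c) / 10 ^ 18
        ≤ 2 * ((1 + 3 / 10 ^ 6) * (1 + 1 / 50000)) / 10 ^ 18 := by
          apply div_le_div_of_nonneg_right _ (by norm_num)
          exact mul_le_mul_of_nonneg_left e1 (by norm_num)
      _ ≤ (1 / 2 ^ 40 : ℝ) / 40000 := by norm_num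
  have hτ : 0 < N / 10 ^ 36 := by positivity
  have hYL := h4 V lam K (N / 10 ^ 36) (by linarith) hτ hspec.low
  rw [hs2, hs3, hee, ← hN] at hYL
  have hXU := h5 V A K hA hlow (by linarith)
  rw [hee, ← hN] at hXU
  have hX0 : 0 ≤ ∑ u, ((nb A u).card : ℝ) ^ 2 := Finset.sum_nonneg fun u _ => by positivity
  have hY0 : 0 ≤ ∑ u, ee A (nb A u) (nb A u) := Finset.sum_nonneg fun u _ => ee_nonneg hA _ _
  have hTT0 : 0 ≤ TT lam (N / 10 ^ 36) := by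
    apply Finset.sum_nonneg
    intro i _
    split_ifs with h
    · exact le_trans hτ.le h
    · exact le_rfl
  have hmain := h8 p K N (∑ u, ee A (nb A u) (nb A u)) (∑ u, ((nb A u).card : ℝ) ^ 2)
    (TT lam (N / 10 ^ 36)) (TL lam (N / 10 ^ 36)) hp0 hp2 hK hNge1 hp2K hX0 hY0 hTT0 hTT2 hTL2
    hYL hXU
  obtain ⟨u, hu1, hu2⟩ := h6 V A ((1 + 1 / 1600) * p) (p / 250) hA (by positivity)
    (by positivity) (by rw [← hN]; exact hmain)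
  exact ⟨u, hu1, hu2.le⟩

end Pool.Agent.HLow
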