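import Pool.Agent.HLow.Targets

set_option autoImplicit false

/-! INC2N: numerical part of the second density increment. -/

namespace Pool.Agent.HLow

theorem p_INC2N : T_INC2N := by
  intro p K N Y X tt tl hp hp1 hK hN hKN hX hY htt0 htt htl hH hXX
  have hN0 : 0 < N := by linarith
  have hK0 : 0 < K := by linarith
  have hp1' : p ≤ 1 := by linarith
  have hK1 : K ≤ K ^ 3 := by
    have h1 : 1 ≤ K ^ 2 := one_le_pow₀ hK
    calc K = K * 1 := (mul_one K).symm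
      _ ≤ K * K ^ 2 := mul_le_mul_of_nonneg_left h1 hK0.le
      _ = K ^ 3 := by ring
  have hK2 : K ^ 2 ≤ K ^ 3 := by
    calc K ^ 2 = K ^ 2 * 1 := (mul_one _).symm
      _ ≤ K ^ 2 * K := mul_le_mul_of_nonneg_left hK (by positivity)
      _ = K ^ 3 := by ring
  have hp2 : p ^ 2 ≤ p := by
    calc p ^ 2 = p * p := by ring
      _ ≤ p * 1 := mul_le_mul_of_nonneg_left hp1' hp.le
      _ = p := mul_one p
  have hA0 : 0 < p ^ 2 * N ^ 3 := by positivity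
  have hpN2 : 0 < p * N ^ 2 := by positivity
  have hpN3 : 0 < p * N ^ 3 := by positivity
  -- K ^ 3 N
  have k3 : 100000 * (K ^ 3 * N) ≤ p ^ 2 * N ^ 2 := by
    have := mul_le_mul_of_nonneg_right hKN hN0.le
    calc 100000 * (K ^ 3 * N) = 100000 * K ^ 3 * N := by ring
      _ ≤ p ^ 2 * N * N := this
      _ = _ := by ring
  have k3' : 100000 * (K ^ 3 * N) ≤ p ^ 2 * N ^ 3 := by
    have h1 : N ^ 2 ≤ N ^ 3 := pow_le_pow_right₀ hN (by norm_num)
    have h2 : p ^ 2 * N ^ 2 ≤ p ^ 2 * N ^ 3 := mul_le_mul_of_nonneg_left h1 (by positivity)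
    linarith
  have k2 : 100000 * (K ^ 2 * N) ≤ p * N ^ 2 := by
    have h1 : K ^ 2 * N ≤ K ^ 3 * N := mul_le_mul_of_nonneg_right hK2 hN0.le
    have h2 : p ^ 2 * N ^ 2 ≤ p * N ^ 2 := mul_le_mul_of_nonneg_right hp2 (by positivity)
    linarith
  have h1 : tl + K ^ 2 * N ≤ 35 / 1000000 * (p * N ^ 2) := by
    have : N ^ 2 * (p / 40000) = p * N ^ 2 / 40000 := by ring
    linarith
  have h2 := hH (by linarith)
  have h3 : (1 - 35 / 1000000) * (p * N ^ 2) ≤ p * N ^ 2 - tl - K ^ 2 * N := by linarith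
  have h4 : ((1 - 35 / 1000000) * (p * N ^ 2)) ^ 2 ≤ (p * N ^ 2 - tl - K ^ 2 * N) ^ 2 :=
    pow_le_pow_left₀ (by positivity) h3 2
  have h5 : (Y + K ^ 3 * N) * tt ≤ (Y + K ^ 3 * N) * (N * (1 + 1 / 40000)) :=
    mul_le_mul_of_nonneg_left htt (by positivity)
  have h6 : ((1 - 35 / 1000000) ^ 2 * (p ^ 2 * N ^ 3)) * N ≤
      ((Y + K ^ 3 * N) * (1 + 1 / 40000)) * N := by
    calc ((1 - 35 / 1000000) ^ 2 * (p ^ 2 * N ^ 3)) * N =
        ((1 - 35 / 1000000) * (p * N ^ 2)) ^ 2 := by ring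
      _ ≤ (Y + K ^ 3 * N) * (N * (1 + 1 / 40000)) := h4.trans (h2.trans h5)
      _ = _ := by ring
  have h7 := le_of_mul_le_mul_right h6 hN0
  have hYlow : (1 - 107 / 1000000) * (p ^ 2 * N ^ 3) ≤ Y := by
    generalize p ^ 2 * N ^ 3 = A at *
    generalize K ^ 3 * N = R at *
    linarith
  have hAY : p ^ 2 * N ^ 3 ≤ (1 + 108 / 1000000) * Y := by
    generalize p ^ 2 * N ^ 3 = A at *
    linarith
  have hYpos : 0 < Y := by
    have : 0 < (1 - 107 / 1000000) * (p ^ 2 * N ^ 3) := by positivity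
    linarith
  -- X ^ 2
  have hKN1 : 100000 * K ≤ p ^ 2 * N := by linarith
  have x1 : (p * N ^ 2 + K * N) * N ≤ (1 + 1 / 100000) * (p * N ^ 3) := by
    have h8 : 100000 * (K * N ^ 2) ≤ p ^ 2 * N ^ 3 := by
      have := mul_le_mul_of_nonneg_right hKN1 (by positivity : 0 ≤ N ^ 2)
      calc 100000 * (K * N ^ 2) = 100000 * K * N ^ 2 := by ring
        _ ≤ p ^ 2 * N * N ^ 2 := this
        _ = _ := by ring
    have h9 : p ^ 2 * N ^ 3 ≤ p * N ^ 3 := mul_le_mul_of_nonneg_right hp2 (by positivity)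
    calc (p * N ^ 2 + K * N) * N = p * N ^ 3 + K * N ^ 2 := by ring
      _ ≤ _ := by linarith
  have x2 : Y + K * (p * N ^ 2) ≤ (1 + 11 / 1000000) * Y := by
    have h8 : 100000 * (K * (p * N ^ 2)) ≤ p ^ 2 * N ^ 3 := by
      have h9 := mul_le_mul_of_nonneg_right hKN1 hpN2.le
      have h10 : p * (p ^ 2 * N ^ 3) ≤ 1 * (p ^ 2 * N ^ 3) :=
        mul_le_mul_of_nonneg_right hp1' hA0.le
      calc 100000 * (K * (p * N ^ 2)) = 100000 * K * (p * N ^ 2) := by ring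
        _ ≤ p ^ 2 * N * (p * N ^ 2) := h9
        _ = p * (p ^ 2 * N ^ 3) := by ring
        _ ≤ _ := by linarith
    linarith
  have x3 : X ^ 2 ≤ ((1 + 1 / 100000) * (p * N ^ 3)) * ((1 + 11 / 1000000) * Y) :=
    hXX.trans (mul_le_mul x1 x2 (by positivity) (by positivity))
  by_contra hcon
  push Not at hcon
  have g0 : (p / 250) ^ 2 * N ^ 3 = p ^ 2 * N ^ 3 / 62500 := by ring
  rw [g0] at hcon
  have g1 : (1 - 161 / 10000000) * Y ≤ (1 + 1 / 1600) * p * X := by linarith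
  have g2 : ((1 - 161 / 10000000) * Y) ^ 2 ≤ ((1 + 1 / 1600) * p * X) ^ 2 :=
    pow_le_pow_left₀ (by positivity) g1 2
  have g3 : ((1 + 1 / 1600) * p * X) ^ 2 ≤ (1 + 1 / 1600) ^ 2 * p ^ 2 *
      (((1 + 1 / 100000) * (p * N ^ 3)) * ((1 + 11 / 1000000) * Y)) := by
    calc ((1 + 1 / 1600) * p * X) ^ 2 = (1 + 1 / 1600) ^ 2 * p ^ 2 * X ^ 2 := by ring
      _ ≤ _ := mul_le_mul_of_nonneg_left x3 (by positivity)
  have g4 : (1 + 1 / 1600) ^ 2 * p ^ 2 *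
      (((1 + 1 / 100000) * (p * N ^ 3)) * ((1 + 11 / 1000000) * Y)) =
      ((1 + 1 / 1600) ^ 2 * (1 + 1 / 100000) * (1 + 11 / 1000000) * (p * (p ^ 2 * N ^ 3))) * Y := by
    ring
  have g5 : p * (p ^ 2 * N ^ 3) ≤ (1 - 1 / 400) * ((1 + 108 / 1000000) * Y) :=
    mul_le_mul hp1 hAY hA0.le (by norm_num)
  have g6 : ((1 - 161 / 10000000) ^ 2 * Y) * Y ≤
      ((1 + 1 / 1600) ^ 2 * (1 + 1 / 100000) * (1 + 11 / 1000000) * (p * (p ^ 2 * N ^ 3))) * Y := by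
    calc ((1 - 161 / 10000000) ^ 2 * Y) * Y = ((1 - 161 / 10000000) * Y) ^ 2 := by ring
      _ ≤ _ := g2.trans (g3.trans g4.le)
  have g7 := le_of_mul_le_mul_right g6 hYpos
  generalize p * (p ^ 2 * N ^ 3) = Q at *
  linarith

end Pool.Agent.HLow
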