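import Pool.Agent.HLow.Targets

set_option autoImplicit false

namespace Pool.Agent.HLow

open Finset

lemma KEY_q {V : Type} [Fintype V] (mu : V → ℝ) (v : V → V → ℝ) (x : V → ℝ) :
    ∑ j, mu j * (∑ u, x u * v j u) ^ 2 =
      ∑ u, ∑ w, x u * x w * (∑ j, mu j * (v j u * v j w)) := by
  calc ∑ j, mu j * (∑ u, x u * v j u) ^ 2
      = ∑ j, ∑ u, ∑ w, x u * x w * (mu j * (v j u * v j w)) := by
        refine sum_congr rfl fun j _ => ?_
        rw [pow_two, sum_mul_sum, mul_sum]
        refine sum_congr rfl fun u _ => ?_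
        rw [mul_sum]
        exact sum_congr rfl fun w _ => by ring
    _ = ∑ u, ∑ j, ∑ w, x u * x w * (mu j * (v j u * v j w)) := sum_comm
    _ = ∑ u, ∑ w, ∑ j, x u * x w * (mu j * (v j u * v j w)) :=
        sum_congr rfl fun u _ => sum_comm
    _ = _ := by simp_rw [mul_sum]

lemma KEY_M {V : Type} [Fintype V] [DecidableEq V] {A : V → V → ℝ} {K : ℝ}
    {lam : V → ℝ} {v : V → V → ℝ} (h : Spec A K lam v) (u w : V) :
    ∑ i, (lam i + K) * (v i u * v i w) = A u w + K * (if u = w then 1 else 0) := by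
  rw [h.dec u w, ← h.col u w, mul_sum, ← sum_add_distrib]
  exact sum_congr rfl fun i _ => by ring

lemma KEY_c {V : Type} [Fintype V] [DecidableEq V] {A : V → V → ℝ} {K : ℝ}
    {lam : V → ℝ} {v : V → V → ℝ} (hA : Adj A) (h : Spec A K lam v) (f : V → ℝ) :
    ∑ i, ∑ j, (lam i + K) * (lam j + K) * (∑ u, f u * (v i u * v j u)) ^ 2 =
      (∑ u, ∑ w, f u * f w * A u w) + K ^ 2 * ∑ u, f u ^ 2 := by
  have h1 : ∀ i, ∑ j, (lam i + K) * (lam j + K) * (∑ u, f u * (v i u * v j u)) ^ 2 =
      ∑ u, ∑ w, (lam i + K) * (v i u * v i w) *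
        (f u * f w * (A u w + K * (if u = w then 1 else 0))) := by
    intro i
    have h2 := KEY_q (fun j => lam j + K) v (fun u => f u * v i u)
    have h3 : ∑ j, (lam i + K) * (lam j + K) * (∑ u, f u * (v i u * v j u)) ^ 2 =
        (lam i + K) * ∑ j, (lam j + K) * (∑ u, f u * v i u * v j u) ^ 2 := by
      rw [mul_sum]
      refine sum_congr rfl fun j _ => ?_
      have h4 : ∑ u, f u * (v i u * v j u) = ∑ u, f u * v i u * v j u :=
        sum_congr rfl fun u _ => by ring
      rw [h4]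
      ring
    rw [h3, h2, mul_sum]
    refine sum_congr rfl fun u _ => ?_
    rw [mul_sum]
    refine sum_congr rfl fun w _ => ?_
    rw [KEY_M h]
    ring
  rw [sum_congr rfl fun i _ => h1 i, sum_comm]
  have h5 : ∀ u, ∑ i, ∑ w, (lam i + K) * (v i u * v i w) *
        (f u * f w * (A u w + K * (if u = w then 1 else 0))) =
      (∑ w, f u * f w * A u w) + K ^ 2 * f u ^ 2 := by
    intro u
    rw [sum_comm]
    have h6 : ∀ w, ∑ i, (lam i + K) * (v i u * v i w) *
        (f u * f w * (A u w + K * (if u = w then 1 else 0))) =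
        f u * f w * A u w + (if u = w then K ^ 2 * f u ^ 2 else 0) := by
      intro w
      rw [← sum_mul, KEY_M h]
      split_ifs with huw
      · subst huw
        rw [hA.dg]
        ring
      · have := hA.sq u w
        linear_combination (f u * f w) * this
    rw [sum_congr rfl fun w _ => h6 w, sum_add_distrib]
    simp
  rw [sum_congr rfl fun u _ => h5 u, sum_add_distrib, ← mul_sum]

/-- the key inequality -/
theorem p_KEY (hO : T_ONB) : T_KEY := by
  intro V _ _ A K lam v hA hS hK τ τ' hτ hτ'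
  set I : Finset V := univ.filter (fun i => τ ≤ lam i) with hI
  obtain ⟨r, f, hr, hf, hpar, hbes⟩ := hO V ({i // i ∈ I} × {i // i ∈ I})
    (fun p u => v p.1 u * v p.2 u)
  have hRR : RR lam τ = (I.card : ℝ) := by
    unfold RR
    rw [hI, ← sum_filter]
    simp
  have hTT : TT lam τ = ∑ i ∈ I, lam i := by
    unfold TT
    rw [hI, ← sum_filter]
  -- the diagonal
  set l : V → ℝ := fun u => ∑ i ∈ I, lam i * (v i u * v i u) with hl
  have hsum : ∑ u, l u = TT lam τ := by
    rw [hTT, hl, sum_comm]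
    refine sum_congr rfl fun i _ => ?_
    rw [← mul_sum, hS.row i i, if_pos rfl, mul_one]
  have hCS : TT lam τ ^ 2 ≤ (Fintype.card V : ℝ) * ∑ u, l u ^ 2 := by
    rw [← hsum]
    exact sq_sum_le_card_mul_sum_sq
  have hlI : ∀ i, i ∈ I → τ ≤ lam i := fun i hi => (mem_filter.1 hi).2
  set S : V → V → ℝ := fun i j => ∑ k, (∑ u, f k u * (v i u * v j u)) ^ 2 with hSdef
  have hS0 : ∀ i j, 0 ≤ S i j := fun i j => sum_nonneg fun k _ => sq_nonneg _
  have hl2 : ∑ u, l u ^ 2 = ∑ i ∈ I, ∑ j ∈ I, lam i * lam j * S i j := by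
    have e1 : ∀ u, l u ^ 2 = ∑ i ∈ I, ∑ j ∈ I, lam i * lam j * (v i u * v j u) ^ 2 := by
      intro u
      rw [hl, pow_two, sum_mul_sum]
      refine sum_congr rfl fun i _ => sum_congr rfl fun j _ => by ring
    rw [sum_congr rfl fun u _ => e1 u, sum_comm]
    refine sum_congr rfl fun i hi => ?_
    rw [sum_comm]
    refine sum_congr rfl fun j hj => ?_
    rw [← mul_sum]
    congr 1
    exact (hpar (⟨i, hi⟩, ⟨j, hj⟩)).symm
  have hP : ∀ i j, 0 ≤ (lam i + K) * (lam j + K) * S i j := fun i j => by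
    have h1 := hS.low i
    have h2 := hS.low j
    exact mul_nonneg (mul_nonneg (by linarith) (by linarith)) (hS0 i j)
  have hle : ∑ i ∈ I, ∑ j ∈ I, lam i * lam j * S i j ≤
      ∑ i, ∑ j, (lam i + K) * (lam j + K) * S i j := by
    calc ∑ i ∈ I, ∑ j ∈ I, lam i * lam j * S i j
        ≤ ∑ i ∈ I, ∑ j ∈ I, (lam i + K) * (lam j + K) * S i j := by
          refine sum_le_sum fun i hi => sum_le_sum fun j hj => ?_
          refine mul_le_mul_of_nonneg_right ?_ (hS0 i j)
          have h1 := hlI i hi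
          have h2 := hlI j hj
          exact mul_le_mul (by linarith) (by linarith) (by linarith) (by linarith)
      _ ≤ ∑ i ∈ I, ∑ j, (lam i + K) * (lam j + K) * S i j :=
          sum_le_sum fun i _ => sum_le_univ_sum_of_nonneg fun j => hP i j
      _ ≤ _ := sum_le_univ_sum_of_nonneg fun i => sum_nonneg fun j _ => hP i j
  have hsw : ∑ i, ∑ j, (lam i + K) * (lam j + K) * S i j =
      ∑ k, ((∑ u, ∑ w, f k u * f k w * A u w) + K ^ 2 * ∑ u, f k u ^ 2) := by
    have e1 : ∀ i, ∑ j, (lam i + K) * (lam j + K) * S i j = ∑ k, ∑ j,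
        (lam i + K) * (lam j + K) * (∑ u, f k u * (v i u * v j u)) ^ 2 := by
      intro i
      rw [sum_comm]
      refine sum_congr rfl fun j _ => ?_
      rw [hSdef, mul_sum]
    rw [sum_congr rfl fun i _ => e1 i, sum_comm]
    exact sum_congr rfl fun k _ => KEY_c hA hS (f k)
  have hK2 : ∑ k : Fin r, K ^ 2 * ∑ u, f k u ^ 2 = K ^ 2 * r := by
    rw [sum_congr rfl fun k _ => by rw [hf k, mul_one]]
    simp [mul_comm]
  -- the quadratic form
  set ww : V → ℝ := fun i => ∑ k, (∑ u, f k u * v i u) ^ 2 with hww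
  have hww0 : ∀ i, 0 ≤ ww i := fun i => sum_nonneg fun k _ => sq_nonneg _
  have hww1 : ∀ i, ww i ≤ 1 := by
    intro i
    refine (hbes (v i)).trans (le_of_eq ?_)
    have := hS.row i i
    rw [if_pos rfl] at this
    rw [← this]
    exact sum_congr rfl fun u _ => by ring
  have hwsum : ∑ i, ww i = r := by
    rw [hww, sum_comm]
    have e1 : ∀ k : Fin r, ∑ i, (∑ u, f k u * v i u) ^ 2 = 1 := by
      intro k
      have h2 := KEY_q (fun _ => 1) v (f k)
      simp only [one_mul] at h2
      rw [h2, ← hf k]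
      refine sum_congr rfl fun u _ => ?_
      have h3 : ∀ w, f k u * f k w * ∑ i, v i u * v i w = if u = w then f k u ^ 2 else 0 := by
        intro w
        rw [hS.col u w]
        split_ifs with huw
        · subst huw
          ring
        · ring
      rw [sum_congr rfl fun w _ => h3 w]
      simp
    rw [sum_congr rfl fun k _ => e1 k]
    simp
  have hq : ∑ k, (∑ u, ∑ w, f k u * f k w * A u w) = ∑ i, lam i * ww i := by
    have e1 : ∀ k, (∑ u, ∑ w, f k u * f k w * A u w) =
        ∑ i, lam i * (∑ u, f k u * v i u) ^ 2 := by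
      intro k
      rw [KEY_q]
      exact sum_congr rfl fun u _ => sum_congr rfl fun w _ => by rw [← hS.dec u w]
    rw [sum_congr rfl fun k _ => e1 k, sum_comm]
    refine sum_congr rfl fun i _ => ?_
    rw [hww, mul_sum]
  have hq2 : ∑ i, lam i * ww i ≤ TT lam τ' + τ' * r := by
    rw [← hwsum]
    unfold TT
    rw [mul_sum, ← sum_add_distrib]
    refine sum_le_sum fun i _ => ?_
    split_ifs with hi
    · have h1 : lam i * ww i ≤ lam i := mul_le_of_le_one_right (hτ'.trans hi) (hww1 i)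
      have h2 := mul_nonneg hτ' (hww0 i)
      linarith
    · push Not at hi
      have := mul_le_mul_of_nonneg_right hi.le (hww0 i)
      linarith
  have hrI : (r : ℝ) ≤ (I.card : ℝ) ^ 2 := by
    have h1 : r ≤ I.card * I.card := by
      refine hr.trans (le_of_eq ?_)
      rw [Fintype.card_prod, Fintype.card_coe]
    rw [pow_two]
    exact_mod_cast h1
  have hfin : ∑ u, l u ^ 2 ≤ TT lam τ' + (τ' + K ^ 2) * RR lam τ ^ 2 := by
    rw [hl2]
    refine hle.trans ?_
    rw [hsw, sum_add_distrib, hK2, hq, hRR]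
    have h1 := mul_le_mul_of_nonneg_left hrI (add_nonneg hτ' (sq_nonneg K))
    nlinarith
  exact hCS.trans (mul_le_mul_of_nonneg_left hfin (Nat.cast_nonneg _))

end Pool.Agent.HLow
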