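import Pool.Agent.HLow.Targets

set_option autoImplicit false

/-!
LEN: lengths of arcs and initial cuts.
-/

namespace Pool.Agent.HLow

open Finset

lemma LEN_nat (T : Finset ℕ) : (∀ t ∈ T, 1 ≤ t) → T.card ^ 2 ≤ 2 * ∑ t ∈ T, t := by
  induction T using Finset.induction_on_max with
  | empty => intro _; simp
  | insert b s hs ih =>
    intro h
    have hb : b ∉ s := fun hb => lt_irrefl _ (hs b hb)
    have h1 := ih (fun t ht => h t (mem_insert_of_mem ht))
    have h2 : s.card ≤ b - 1 := by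
      have h3 : s ⊆ Ico 1 b := by
        intro t ht
        rw [mem_Ico]
        exact ⟨h t (mem_insert_of_mem ht), hs t ht⟩
      have h4 := card_le_card h3
      rwa [Nat.card_Ico] at h4
    have h5 : 1 ≤ b := h b (mem_insert_self _ _)
    rw [card_insert_of_notMem hb, sum_insert hb]
    have h6 : s.card + 1 ≤ b := by omega
    nlinarith

lemma LEN_inj {V : Type} [DecidableEq V] (S : Finset V) (f : V → ℕ) (h1 : ∀ v ∈ S, 1 ≤ f v)
    (h2 : ∀ v ∈ S, ∀ w ∈ S, f v = f w → v = w) :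
    (S.card : ℝ) ^ 2 ≤ 2 * ∑ v ∈ S, (f v : ℝ) := by
  have h3 := LEN_nat (S.image f) (by
    intro t ht
    obtain ⟨v, hv, rfl⟩ := mem_image.mp ht
    exact h1 v hv)
  rw [card_image_of_injOn (fun v hv w hw h => h2 v hv w hw h),
    sum_image (fun v hv w hw h => h2 v hv w hw h)] at h3
  exact_mod_cast h3

lemma LEN_deg {V : Type} [Fintype V] [DecidableEq V] (c : V → ℝ) (hc : ∀ v, c v = 0 ∨ c v = 1)
    (f : V → ℕ) (h1 : ∀ v, c v ≠ 0 → 1 ≤ f v)
    (h2 : ∀ v, c v ≠ 0 → ∀ w, c w ≠ 0 → f v = f w → v = w) :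
    (∑ v, c v) ^ 2 ≤ 2 * ∑ v, c v * (f v : ℝ) := by
  have h3 := LEN_inj (univ.filter (fun v => c v ≠ 0)) f
    (fun v hv => h1 v (mem_filter.mp hv).2)
    (fun v hv w hw => h2 v (mem_filter.mp hv).2 w (mem_filter.mp hw).2)
  have h4 : ∑ v, c v = ((univ.filter (fun v => c v ≠ 0)).card : ℝ) := by
    rw [card_eq_sum_ones, Nat.cast_sum, sum_filter]
    refine sum_congr rfl (fun v _ => ?_)
    rcases hc v with h | h
    · rw [if_neg (by simp [h]), h]
    · rw [if_pos (by rw [h]; norm_num), h]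
      norm_num
  have h5 : ∑ v, c v * (f v : ℝ) = ∑ v ∈ univ.filter (fun v => c v ≠ 0), (f v : ℝ) := by
    rw [sum_filter]
    refine sum_congr rfl (fun v _ => ?_)
    rcases hc v with h | h
    · rw [if_neg (by simp [h]), h, zero_mul]
    · rw [if_pos (by rw [h]; norm_num), h, one_mul]
  rw [h4, h5]
  exact h3

theorem p_LEN : T_LEN := by
  intro V _ _ a G pos D hzo hpos0 hpos1 hpos2 hE
  set E : ℝ := ∑ u, dp a u with hEdef
  have hw : ∑ v, ∑ u, a u v = E := by
    rw [hEdef]
    unfold dp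
    exact sum_comm
  set n := (Dicut.UU a).card with hn
  set cr : ℕ → ℝ := fun p => ∑ v, ∑ u, (if pos u ≤ p ∧ p < pos v then a u v else 0) with hcr
  set len : ℝ := ∑ v, ∑ u, a u v * ((pos v - pos u : ℕ) : ℝ) with hlen
  have hcrsum : len = ∑ p ∈ range n, cr p := by
    have e1 : ∑ p ∈ range n, cr p
        = ∑ v, ∑ u, ∑ p ∈ range n, (if pos u ≤ p ∧ p < pos v then a u v else 0) := by
      simp only [hcr]
      rw [sum_comm]
      apply sum_congr rfl; intro v _
      rw [sum_comm]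
    rw [e1, hlen]
    apply sum_congr rfl; intro v _
    apply sum_congr rfl; intro u _
    by_cases h0 : a u v = 0
    · rw [h0]; simp
    · have hvn := hpos1 v (Dicut.mem_UU_right h0)
      rw [← sum_filter, sum_const, nsmul_eq_mul]
      have h2 : (range n).filter (fun p => pos u ≤ p ∧ p < pos v) = Ico (pos u) (pos v) := by
        ext p
        simp only [mem_filter, mem_range, mem_Ico]
        omega
      rw [h2, Nat.card_Ico]
      ring
  have hcr1 : ∀ p, cr p ≤ Real.sqrt (G * E) := by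
    intro p
    have h1 := Dicut.prefix_sq D pos hpos0 E hw hE p
    exact Real.le_sqrt_of_sq_le h1
  have hlen1 : len ≤ (n : ℝ) * Real.sqrt (G * E) := by
    rw [hcrsum]
    calc ∑ p ∈ range n, cr p ≤ ∑ p ∈ range n, Real.sqrt (G * E) :=
          sum_le_sum (fun p _ => hcr1 p)
      _ = (n : ℝ) * Real.sqrt (G * E) := by
          rw [sum_const, card_range, nsmul_eq_mul]
  -- out-degrees
  have hdp : ∀ u, dp a u ^ 2 ≤ 2 * ∑ v, a u v * ((pos v - pos u : ℕ) : ℝ) := by
    intro u
    unfold dp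
    refine LEN_deg (fun v => a u v) (fun v => hzo u v) (fun v => pos v - pos u) ?_ ?_
    · intro v hv
      have := hpos0 u v hv
      omega
    · intro v hv w hw h
      have h1 := hpos0 u v hv
      have h2 := hpos0 u w hw
      exact hpos2 v (Dicut.mem_UU_right hv) w (Dicut.mem_UU_right hw) (by omega)
  have hdm : ∀ v, dm a v ^ 2 ≤ 2 * ∑ u, a u v * ((pos v - pos u : ℕ) : ℝ) := by
    intro v
    unfold dm
    refine LEN_deg (fun u => a u v) (fun u => hzo u v) (fun u => pos v - pos u) ?_ ?_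
    · intro u hu
      have := hpos0 u v hu
      omega
    · intro u hu w hw h
      have h1 := hpos0 u v hu
      have h2 := hpos0 w v hw
      exact hpos2 u (Dicut.mem_UU_left hu) w (Dicut.mem_UU_left hw) (by omega)
  have hs1 : ∑ u, dp a u ^ 2 ≤ 2 * len := by
    rw [hlen, sum_comm, mul_sum]
    exact sum_le_sum (fun u _ => hdp u)
  have hs2 : ∑ v, dm a v ^ 2 ≤ 2 * len := by
    rw [hlen, mul_sum]
    exact sum_le_sum (fun v _ => hdm v)
  have hs3 : ∑ u, (dp a u + dm a u) ^ 2 ≤ 2 * ∑ u, dp a u ^ 2 + 2 * ∑ u, dm a u ^ 2 := by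
    rw [mul_sum, mul_sum, ← sum_add_distrib]
    refine sum_le_sum (fun u _ => ?_)
    nlinarith [sq_nonneg (dp a u - dm a u)]
  calc ∑ u, (dp a u + dm a u) ^ 2 ≤ 8 * len := by linarith
    _ ≤ 8 * ((n : ℝ) * Real.sqrt (G * E)) := by linarith
    _ = 8 * (n : ℝ) * Real.sqrt (G * E) := by ring

end Pool.Agent.HLow
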