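import Mathlib
import Pool.Agent.HLow.Targets

set_option autoImplicit false

namespace Pool.Agent.HLow

open Finset

lemma MAIN_cut (h : T_FIN) : ∃ c δ : ℝ, 0 < c ∧ 0 < δ ∧ ∀ (V : Type) [Fintype V] [DecidableEq V]
    (a : V → V → ℝ) (m : ℝ), (∀ u v, a u v = 0 ∨ a u v = 1) →
    Dicut.Acyclic (fun u v => a u v ≠ 0) → ∑ u, ∑ v, a u v = m → 1 ≤ m →
    ∃ X : Finset V, m / 4 + c * m ^ (3 / 5 + δ : ℝ) ≤ Dicut.dicutWeight a X := by
  obtain ⟨C, hC, k, hk⟩ := h
  set δ : ℝ := 1 / (4 * ((k : ℝ) + 1)) with hδ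
  have hk0 : (0 : ℝ) ≤ k := Nat.cast_nonneg _
  have hδ0 : 0 < δ := by positivity
  have hδk : δ * k ≤ 1 / 4 := by
    rw [hδ, div_mul_eq_mul_div, div_le_div_iff₀ (by positivity) (by norm_num)]
    nlinarith
  have hC0 : 0 < C := by linarith
  -- eventually
  have ev1 : ∀ᶠ x : ℝ in Filter.atTop, C * (1 + Real.log x) ≤ x ^ δ := by
    have h1 := (isLittleO_log_rpow_atTop hδ0).bound (show (0 : ℝ) < 1 / (2 * C) by positivity)
    have h2 : Filter.Tendsto (fun x : ℝ => x ^ δ) Filter.atTop Filter.atTop :=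
      tendsto_rpow_atTop hδ0
    have h3 := h2.eventually_ge_atTop (2 * C)
    filter_upwards [h1, h3, Filter.eventually_ge_atTop (1 : ℝ)] with x g1 g2 g3
    have g4 : 0 ≤ Real.log x := Real.log_nonneg g3
    have g5 : 0 ≤ x ^ δ := Real.rpow_nonneg (by linarith) _
    rw [Real.norm_of_nonneg g4, Real.norm_of_nonneg g5] at g1
    have g6 : C * Real.log x ≤ C * (1 / (2 * C) * x ^ δ) := mul_le_mul_of_nonneg_left g1 hC0.le
    have g7 : C * (1 / (2 * C) * x ^ δ) = x ^ δ / 2 := by field_simp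
    nlinarith
  have ev2 : ∀ᶠ x : ℝ in Filter.atTop, (C * x ^ δ) ^ k < x := by
    have h2 : Filter.Tendsto (fun x : ℝ => x ^ (3 / 4 : ℝ)) Filter.atTop Filter.atTop :=
      tendsto_rpow_atTop (by norm_num)
    filter_upwards [h2.eventually_gt_atTop (C ^ k), Filter.eventually_ge_atTop (1 : ℝ)] with x g1 g2
    have g3 : (x ^ δ) ^ k ≤ x ^ (1 / 4 : ℝ) := by
      rw [← Real.rpow_natCast, ← Real.rpow_mul (by linarith)]
      exact Real.rpow_le_rpow_of_exponent_le g2 hδk
    have g4 : 0 < x ^ (1 / 4 : ℝ) := Real.rpow_pos_of_pos (by linarith) _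
    calc (C * x ^ δ) ^ k = C ^ k * (x ^ δ) ^ k := by rw [mul_pow]
      _ ≤ C ^ k * x ^ (1 / 4 : ℝ) := mul_le_mul_of_nonneg_left g3 (by positivity)
      _ < x ^ (3 / 4 : ℝ) * x ^ (1 / 4 : ℝ) := mul_lt_mul_of_pos_right g1 g4
      _ = x := by
        rw [← Real.rpow_add (by linarith)]
        norm_num
  obtain ⟨m0, hm0⟩ := Filter.eventually_atTop.mp (ev1.and ev2)
  set M : ℝ := max m0 1 with hM
  have hM1 : 1 ≤ M := le_max_right _ _
  have hMδ : 0 < M ^ δ := Real.rpow_pos_of_pos (by linarith) _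
  refine ⟨min (1 / 4) (1 / 16 / M ^ δ), δ, lt_min (by norm_num) (by positivity), hδ0, ?_⟩
  intro V _ _ a m h01 hac hm hm1
  have hm0' : 0 < m := by linarith
  have hpow : m ^ (3 / 5 + δ : ℝ) = m ^ (3 / 5 : ℝ) * m ^ δ := Real.rpow_add hm0' _ _
  have hw : ∀ u v, a u v = 0 ∨ 1 ≤ a u v := by
    intro u v
    rcases h01 u v with e | e
    · left; exact e
    · right; rw [e]
  by_cases hcase : m ≤ M
  · obtain ⟨X, hX⟩ := Dicut.lower_weight hw hac m hm hm1
    refine ⟨X, le_trans ?_ hX⟩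
    have h1 : m ^ δ ≤ M ^ δ := Real.rpow_le_rpow hm0'.le hcase hδ0.le
    have h2 : 0 < m ^ (3 / 5 : ℝ) := Real.rpow_pos_of_pos hm0' _
    have h3 : 0 < m ^ δ := Real.rpow_pos_of_pos hm0' _
    have h4 : min (1 / 4) (1 / 16 / M ^ δ) * m ^ (3 / 5 + δ : ℝ)
        ≤ 1 / 16 / M ^ δ * m ^ (3 / 5 + δ : ℝ) := by
      apply mul_le_mul_of_nonneg_right (min_le_right _ _)
      rw [hpow]; positivity
    have h5 : 1 / 16 / M ^ δ * m ^ (3 / 5 + δ : ℝ) ≤ 1 / 16 * m ^ (3 / 5 : ℝ) := by
      rw [hpow, div_mul_eq_mul_div, div_le_iff₀ hMδ]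
      nlinarith
    linarith
  · push Not at hcase
    obtain ⟨X, _, hX⟩ := (univ : Finset (Finset V)).exists_max_image
      (fun X => Dicut.dicutWeight a X) ⟨∅, mem_univ _⟩
    refine ⟨X, ?_⟩
    by_contra hcon
    push Not at hcon
    set G : ℝ := 4 * Dicut.dicutWeight a X - m with hG
    have hloop : ∀ v, a v v = 0 := by
      intro v
      by_contra hne
      exact hac v (Relation.TransGen.single hne)
    have D : Dicut.WData a G := ⟨hw, hac, fun x hx => Dicut.Gf_le a hloop G (by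
      intro Y
      rw [hm, hG]
      have := hX Y (mem_univ _)
      linarith) x hx⟩
    have hm0m : m0 ≤ m := le_trans (le_max_left _ _) hcase.le
    obtain ⟨e1, e2⟩ := hm0 m hm0m
    have hpos : 0 ≤ m ^ (3 / 5 + δ : ℝ) := Real.rpow_nonneg hm0'.le _
    have h4 : min (1 / 4) (1 / 16 / M ^ δ) * m ^ (3 / 5 + δ : ℝ)
        ≤ 1 / 4 * m ^ (3 / 5 + δ : ℝ) := mul_le_mul_of_nonneg_right (min_le_left _ _) hpos
    have hGle : G ≤ m ^ (3 / 5 : ℝ) * m ^ δ := by
      rw [← hpow, hG]; linarith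
    have := hk V a G m (m ^ δ) D h01 (by unfold dp; exact hm) hm1 e1 hGle
    linarith

/-- an acyclic digraph with `m` arcs -/
lemma MAIN_ex (m : ℕ) : ∃ A : Finset (Fin (m + 1) × Fin (m + 1)),
    Dicut.Acyclic (fun u v => (u, v) ∈ A) ∧ A.card = m := by
  classical
  refine ⟨univ.image (fun i : Fin m => (Fin.castSucc i, Fin.succ i)), ?_, ?_⟩
  · have hlt : ∀ u v : Fin (m + 1), (u, v) ∈ univ.image (fun i : Fin m => (Fin.castSucc i, Fin.succ i))
        → u < v := by
      intro u v huv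
      obtain ⟨i, _, hi⟩ := mem_image.mp huv
      rw [Prod.mk.injEq] at hi
      rw [← hi.1, ← hi.2]
      exact Fin.castSucc_lt_succ
    intro v hv
    have : ∀ u w : Fin (m + 1), Relation.TransGen (fun u v => (u, v) ∈
        univ.image (fun i : Fin m => (Fin.castSucc i, Fin.succ i))) u w → u < w := by
      intro u w h
      induction h with
      | single h => exact hlt _ _ h
      | tail _ h ih => exact lt_trans ih (hlt _ _ h)
    exact lt_irrefl _ (this v v hv)
  · rw [card_image_of_injective]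
    · simp
    · intro i j hij
      rw [Prod.mk.injEq] at hij
      exact Fin.castSucc_injective _ hij.1

theorem p_MAIN (h : T_FIN) : T_MAIN := by
  obtain ⟨c, δ, hc, hδ, H⟩ := MAIN_cut h
  refine ⟨c, δ, hc, hδ, ?_⟩
  intro m hm
  have hm1 : (1 : ℝ) ≤ m := by exact_mod_cast hm
  refine le_trans (Nat.le_ceil _) ?_
  have hh : ⌈(m : ℝ) / 4 + c * (m : ℝ) ^ (3 / 5 + δ : ℝ)⌉₊ ≤ Dicut.h m := by
    unfold Dicut.h
    apply le_csSup
    · obtain ⟨A, hA, hcard⟩ := MAIN_ex m
      refine ⟨m, ?_⟩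
      intro k hk
      obtain ⟨X, hX⟩ := hk (Fin (m + 1)) A hA hcard
      refine le_trans hX ?_
      unfold Dicut.dicutSize
      exact le_trans (card_filter_le _ _) (le_of_eq hcard)
    · intro V _ _ A hac hcard
      set a : V → V → ℝ := fun u v => if (u, v) ∈ A then 1 else 0 with ha
      have h01 : ∀ u v, a u v = 0 ∨ a u v = 1 := by
        intro u v
        simp only [ha]
        split_ifs
        · right; rfl
        · left; rfl
      have hac' : Dicut.Acyclic (fun u v => a u v ≠ 0) := by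
        have : (fun u v => a u v ≠ 0) = (fun u v => (u, v) ∈ A) := by
          ext u v
          simp [ha]
        rw [this]; exact hac
      have htot : ∑ u, ∑ v, a u v = m := by
        rw [← hcard, ← sum_product']
        simp [ha]
      obtain ⟨X, hX⟩ := H V a m h01 hac' htot hm1
      refine ⟨X, ?_⟩
      apply Nat.ceil_le.mpr
      refine le_trans hX (le_of_eq ?_)
      have e1 : A.filter (fun e => e.1 ∈ X ∧ e.2 ∉ X) = (X ×ˢ Xᶜ).filter (fun e => (e.1, e.2) ∈ A) := by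
        ext e
        simp only [mem_filter, mem_product, mem_compl]
        tauto
      unfold Dicut.dicutWeight Dicut.dicutSize
      rw [e1, card_filter, ← sum_product']
      push_cast
      rfl
  exact_mod_cast hh

end Pool.Agent.HLow
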