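import Mathlib
import Pool.Agent.HLow.Targets
import Pool.Agent.HLow.Low3

set_option autoImplicit false

namespace Pool.Agent.HLow

open Finset

lemma MERGE_num (K z c : ℝ) (hK : 1 ≤ K) (hz : 2 * K ^ 2 < z) (hc : 1000 * K ^ 4 ≤ c)
    (h : z ^ 2 / K ≤ K * z + 11 * K ^ 2 * z ^ 2 / c) : False := by
  have hK0 : 0 < K := by linarith
  have hz0 : 0 < z := lt_trans (by positivity) hz
  have hc0 : 0 < c := lt_of_lt_of_le (by positivity) hc
  have h1 : z / K ≤ K + 11 * K ^ 2 * z / c := by
    have e1 : z ^ 2 / K = z * (z / K) := by ring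
    have e2 : K * z + 11 * K ^ 2 * z ^ 2 / c = z * (K + 11 * K ^ 2 * z / c) := by ring
    rw [e1, e2] at h
    exact le_of_mul_le_mul_left h hz0
  have h2 : 11 * K ^ 2 * z / c ≤ 11 * z / (1000 * K) := by
    rw [div_le_div_iff₀ hc0 (by positivity)]
    have e3 : 1 ≤ K := hK
    have e4 : K ^ 3 ≤ K ^ 4 := pow_le_pow_right₀ hK (by norm_num)
    have e5 : 11 * K ^ 2 * z * (1000 * K) = 11 * z * (1000 * K ^ 3) := by ring
    rw [e5]
    apply mul_le_mul_of_nonneg_left _ (by positivity)
    linarith
  have h3 : 11 * z / (1000 * K) = 11 / 1000 * (z / K) := by ring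
  have h4 : z / K ≤ K + 11 / 1000 * (z / K) := by linarith
  have h5 : 2 * K < z / K := by
    rw [lt_div_iff₀ hK0]; nlinarith
  linarith

theorem p_MERGE (hD : T_DICH) (hC : T_CLOS) : T_MERGE := by
  intro V _ _ A K hA hL hK C C' hCq hCq' hcard hcard' hI
  have hK0 : 0 < K := by linarith
  have hK2 : 1 ≤ K ^ 2 := one_le_pow₀ hK
  have hK4 : K ^ 2 ≤ K ^ 4 := pow_le_pow_right₀ hK (by norm_num)
  intro w hw
  unfold clo
  rw [mem_filter]
  refine ⟨mem_univ _, ?_⟩
  by_cases hwC : w ∈ C
  · have : (C.filter (fun z => A w z = 0)).card ≤ 1 := by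
      apply card_le_one.mpr
      intro x hx y hy
      have h1 : x = w := by
        by_contra hne
        have := hCq w hwC x (mem_filter.mp hx).1 (Ne.symm hne)
        rw [(mem_filter.mp hx).2] at this
        norm_num at this
      have h2 : y = w := by
        by_contra hne
        have := hCq w hwC y (mem_filter.mp hy).1 (Ne.symm hne)
        rw [(mem_filter.mp hy).2] at this
        norm_num at this
      rw [h1, h2]
    have h2 : ((C.filter (fun z => A w z = 0)).card : ℝ) ≤ 1 := by exact_mod_cast this
    linarith
  · rcases hD V A K hA hL hK C w hCq hwC with h1 | h1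
    · exfalso
      set I := clo A K C ∩ clo A K C' with hIdef
      set Z := I.filter (fun z => A w z ≠ 0 ∧ z ∉ C) with hZ
      have hcl := hC V A K hA hL hK C' hCq' hcard' w hw
      -- size of Z
      have hcover : I ⊆ Z ∪ ({w} ∪ ((clo A K C').filter (fun z => z ≠ w ∧ A w z = 0)
          ∪ C.filter (fun z => A w z ≠ 0))) := by
        intro z hz
        rw [mem_union, mem_union, mem_union, mem_singleton]
        by_cases g1 : A w z = 0
        · by_cases g2 : z = w
          · right; left; exact g2
          · right; right; left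
            rw [mem_filter]
            exact ⟨(mem_inter.mp hz).2, g2, g1⟩
        · by_cases g3 : z ∈ C
          · right; right; right
            rw [mem_filter]; exact ⟨g3, g1⟩
          · left
            rw [hZ, mem_filter]; exact ⟨hz, g1, g3⟩
      have hcardI : (I.card : ℝ) ≤ (Z.card : ℝ) + (1 + (5 * K ^ 2 + 2 * K ^ 2)) := by
        have h2 := card_le_card hcover
        have h3 := card_union_le Z ({w} ∪ ((clo A K C').filter (fun z => z ≠ w ∧ A w z = 0)
          ∪ C.filter (fun z => A w z ≠ 0)))
        have h4 := card_union_le {w} ((clo A K C').filter (fun z => z ≠ w ∧ A w z = 0)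
          ∪ C.filter (fun z => A w z ≠ 0))
        have h5 := card_union_le ((clo A K C').filter (fun z => z ≠ w ∧ A w z = 0))
          (C.filter (fun z => A w z ≠ 0))
        rw [card_singleton] at h4
        have h6 : (I.card : ℝ) ≤ (Z.card : ℝ) + (1 + ((((clo A K C').filter
          (fun z => z ≠ w ∧ A w z = 0)).card : ℝ) + ((C.filter (fun z => A w z ≠ 0)).card : ℝ))) := by
          exact_mod_cast le_trans h2 (le_trans h3 (Nat.add_le_add_left (le_trans h4
            (Nat.add_le_add_left h5 _)) _))
        linarith
      have hz : 2 * K ^ 2 < (Z.card : ℝ) := by nlinarith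
      -- disjointness
      have hZC : Disjoint Z C := by
        rw [disjoint_left]; intro z h2; exact (mem_filter.mp h2).2.2
      have hZw : Disjoint Z {w} := by
        rw [disjoint_singleton_right]; intro h2
        exact (mem_filter.mp h2).2.1 (hA.dg w)
      have hCw : Disjoint C {w} := by rw [disjoint_singleton_right]; exact hwC
      set z : ℝ := (Z.card : ℝ) with hzdef
      set c : ℝ := (C.card : ℝ) with hcdef
      have hc0 : 0 < c := lt_of_lt_of_le (by positivity) hcard
      have hz0 : 0 < z := lt_trans (by positivity) hz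
      have h := low3 hA.sym hL Z C {w} hZC hZw hCw 1 (-(z / c)) (-(z / K))
      have e1 : ee A Z Z ≤ z * z := ee_le hA Z Z
      have e2 : ee A C C ≤ c * c := ee_le hA C C
      have e3 : ee A {w} {w} = 0 := by unfold ee; simp [hA.dg]
      have e4 : z * (c - 3 * K ^ 2) ≤ ee A Z C := by
        have : ∀ u ∈ Z, c - 3 * K ^ 2 ≤ ∑ v ∈ C, A u v := by
          intro u hu
          have hu1 : u ∈ clo A K C := (mem_inter.mp (mem_filter.mp hu).1).1
          unfold clo at hu1
          have hu2 := (mem_filter.mp hu1).2
          have hs : ∑ v ∈ C, A u v = c - ((C.filter (fun z => A u z = 0)).card : ℝ) := by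
            have g1 : ∀ v ∈ C, A u v = 1 - (if A u v = 0 then 1 else 0) := by
              intro v _
              rcases hA.zo u v with g | g
              · rw [if_pos g, g]; norm_num
              · rw [if_neg (by rw [g]; norm_num), g]; norm_num
            rw [sum_congr rfl g1, sum_sub_distrib, card_filter]
            push_cast
            simp [hcdef]
          rw [hs]; linarith
        unfold ee
        calc z * (c - 3 * K ^ 2) = ∑ u ∈ Z, (c - 3 * K ^ 2) := by
              rw [sum_const, nsmul_eq_mul]
          _ ≤ _ := sum_le_sum this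
      have e5 : ee A Z {w} = z := by
        unfold ee
        have : ∀ v ∈ Z, ∑ y ∈ ({w} : Finset V), A v y = 1 := by
          intro v hv
          rw [sum_singleton, hA.sym]
          exact (hA.zo w v).resolve_left (mem_filter.mp hv).2.1
        rw [sum_congr rfl this]; simp [hzdef]
      have e6 : ee A C {w} ≤ 2 * K ^ 2 := by
        refine le_trans (le_of_eq ?_) h1
        unfold ee
        rw [card_filter]
        push_cast
        apply sum_congr rfl; intro v _
        rw [sum_singleton, hA.sym]
        rcases hA.zo w v with g | g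
        · rw [g]; simp
        · rw [g]; simp
      rw [e3, e5] at h
      simp only [card_singleton, Nat.cast_one] at h
      have g1 : (-(z / c)) ^ 2 * ee A C C ≤ z * z := by
        have : (-(z / c)) ^ 2 * (c * c) = z * z := by field_simp
        rw [← this]
        exact mul_le_mul_of_nonneg_left e2 (by positivity)
      have g2 : 2 * 1 * (-(z / c)) * ee A Z C ≤ -(2 * z * z) + 6 * K ^ 2 * z ^ 2 / c := by
        have h5 : (z / c) * (z * (c - 3 * K ^ 2)) ≤ (z / c) * ee A Z C :=
          mul_le_mul_of_nonneg_left e4 (by positivity)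
        have h6 : (z / c) * (z * (c - 3 * K ^ 2)) = z * z - 3 * K ^ 2 * z ^ 2 / c := by
          field_simp
        rw [h6] at h5
        have h7 : 6 * K ^ 2 * z ^ 2 / c = 2 * (3 * K ^ 2 * z ^ 2 / c) := by ring
        rw [h7]
        linarith
      have g3 : 2 * (-(z / c)) * (-(z / K)) * ee A C {w} ≤ 4 * K * z ^ 2 / c := by
        have h5 : (2 * (-(z / c)) * (-(z / K))) * ee A C {w}
            ≤ (2 * (-(z / c)) * (-(z / K))) * (2 * K ^ 2) := by
          apply mul_le_mul_of_nonneg_left e6
          have : 2 * (-(z / c)) * (-(z / K)) = 2 * (z / c) * (z / K) := by ring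
          rw [this]; positivity
        have h6 : (2 * (-(z / c)) * (-(z / K))) * (2 * K ^ 2) = 4 * K * z ^ 2 / c := by
          field_simp; ring
        linarith
      have g4 : 2 * 1 * (-(z / K)) * z = -(2 * (z ^ 2 / K)) := by ring
      have g5 : K * (1 ^ 2 * z + (-(z / c)) ^ 2 * c + (-(z / K)) ^ 2 * 1)
          = K * z + K * z ^ 2 / c + z ^ 2 / K := by field_simp
      rw [g4, g5] at h
      apply MERGE_num K z c hK hz hcard
      have h8 : K * z ^ 2 / c ≤ K ^ 2 * z ^ 2 / c := by
        apply div_le_div_of_nonneg_right _ hc0.le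
        apply mul_le_mul_of_nonneg_right _ (by positivity)
        nlinarith
      have h9 : 4 * K * z ^ 2 / c ≤ 4 * K ^ 2 * z ^ 2 / c := by
        apply div_le_div_of_nonneg_right _ hc0.le
        apply mul_le_mul_of_nonneg_right _ (by positivity)
        nlinarith
      have h10 : 11 * K ^ 2 * z ^ 2 / c = 6 * K ^ 2 * z ^ 2 / c + 4 * K ^ 2 * z ^ 2 / c
          + K ^ 2 * z ^ 2 / c := by ring
      rw [h10]
      linarith
    · linarith

end Pool.Agent.HLow
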