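import Pool.Agent.HLow.Targets

set_option autoImplicit false

namespace Pool.Agent.HLow

open Finset

/-- POW: `K` is a small power of `N` -/
theorem p_POW : T_POW := by
  intro η hη
  obtain ⟨M, hM⟩ := exists_nat_ge (1 / η)
  refine ⟨2 * (M + 1), by omega, ?_⟩
  intro K N B hK hB hN
  have hK0 : 0 < K := by linarith
  have hL : (1 : ℝ) ≤ ((2 * (M + 1) : ℕ) : ℝ) := by exact_mod_cast (by omega : 1 ≤ 2 * (M + 1))
  have h1 : K ^ (2 * (M + 1)) ≤ N := by
    refine le_trans (pow_le_pow_left₀ hK0.le ?_ _) hN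
    nlinarith
  have hN0 : 0 ≤ N := le_trans (pow_nonneg hK0.le _) h1
  have h2 : K ^ (M + 1) ≤ Real.sqrt (N * B) := by
    apply Real.le_sqrt_of_sq_le
    calc (K ^ (M + 1)) ^ 2 = K ^ (2 * (M + 1)) := by rw [← pow_mul, mul_comm]
      _ ≤ N := h1
      _ ≤ N * B := by nlinarith
  have h3 : K ^ M ≤ Real.sqrt (N * B) / K := by
    rw [le_div_iff₀ hK0, ← pow_succ]
    exact h2
  have h4 : (K ^ M : ℝ) ^ η ≤ (Real.sqrt (N * B) / K) ^ η :=
    Real.rpow_le_rpow (pow_nonneg hK0.le _) h3 hη.le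
  refine le_trans ?_ h4
  rw [← Real.rpow_natCast, ← Real.rpow_mul hK0.le]
  have h5 : (1 : ℝ) ≤ (M : ℝ) * η := by
    have := mul_le_mul_of_nonneg_right hM hη.le
    rwa [div_mul_cancel₀ _ hη.ne'] at this
  calc K = K ^ (1 : ℝ) := (Real.rpow_one K).symm
    _ ≤ K ^ ((M : ℝ) * η) := Real.rpow_le_rpow_of_exponent_le hK h5

end Pool.Agent.HLow
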