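import Mathlib
import Pool.Agent.HLow.Targets

set_option autoImplicit false

namespace Pool.Agent.HLow

open Finset

/-- the sign of a bit -/
noncomputable def RAD_s (b : Bool) : ℝ := if b then 1 else -1

lemma RAD_sq (b : Bool) : RAD_s b * RAD_s b = 1 := by
  unfold RAD_s; cases b <;> norm_num

lemma RAD_not (b : Bool) : RAD_s (!b) = - RAD_s b := by
  unfold RAD_s; cases b <;> norm_num

/-- flipping one coordinate -/
def RAD_flip {J : Type} [DecidableEq J] (i : J) : (J → Bool) ≃ (J → Bool) where
  toFun ω := Function.update ω i (!ω i)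
  invFun ω := Function.update ω i (!ω i)
  left_inv ω := by
    funext j
    by_cases h : j = i
    · subst h; simp
    · simp [Function.update_of_ne h]
  right_inv ω := by
    funext j
    by_cases h : j = i
    · subst h; simp
    · simp [Function.update_of_ne h]

lemma RAD_cov {J : Type} [Fintype J] [DecidableEq J] (i j : J) :
    ∑ ω : J → Bool, RAD_s (ω i) * RAD_s (ω j) = if i = j then 2 ^ Fintype.card J else 0 := by
  by_cases h : i = j
  · subst h
    rw [if_pos rfl, sum_congr rfl (fun ω _ => RAD_sq (ω i))]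
    simp
  · rw [if_neg h]
    have h1 : ∑ ω : J → Bool, RAD_s (ω i) * RAD_s (ω j)
        = ∑ ω : J → Bool, RAD_s ((RAD_flip i ω) i) * RAD_s ((RAD_flip i ω) j) :=
      (Equiv.sum_comp (RAD_flip i) (fun ω => RAD_s (ω i) * RAD_s (ω j))).symm
    have h2 : ∀ ω : J → Bool, RAD_s ((RAD_flip i ω) i) * RAD_s ((RAD_flip i ω) j)
        = - (RAD_s (ω i) * RAD_s (ω j)) := by
      intro ω
      have e1 : (RAD_flip i ω) i = !ω i := by
        show Function.update ω i (!ω i) i = _
        simp
      have e2 : (RAD_flip i ω) j = ω j := by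
        show Function.update ω i (!ω i) j = _
        rw [Function.update_of_ne (Ne.symm h)]
      rw [e1, e2, RAD_not]; ring
    rw [sum_congr rfl (fun ω _ => h2 ω), sum_neg_distrib] at h1
    linarith

theorem p_RAD : T_RAD := by
  intro J _ _
  refine ⟨?_, ?_⟩
  · intro c d
    have h1 : ∀ ω : J → Bool, (∑ j, (if ω j then (1 : ℝ) else -1) * c j)
        * (∑ j, (if ω j then (1 : ℝ) else -1) * d j)
        = ∑ i, ∑ j, (c i * d j) * (RAD_s (ω i) * RAD_s (ω j)) := by
      intro ω
      rw [sum_mul_sum]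
      refine sum_congr rfl (fun i _ => sum_congr rfl (fun j _ => ?_))
      unfold RAD_s
      ring
    rw [sum_congr rfl (fun ω _ => h1 ω), sum_comm, mul_sum]
    refine sum_congr rfl (fun i _ => ?_)
    rw [sum_comm]
    have h2 : ∀ j, ∑ ω : J → Bool, (c i * d j) * (RAD_s (ω i) * RAD_s (ω j))
        = if i = j then 2 ^ Fintype.card J * (c i * d j) else 0 := by
      intro j
      rw [← mul_sum, RAD_cov]
      split_ifs <;> ring
    rw [sum_congr rfl (fun j _ => h2 j)]
    simp
  · intro c s
    have h1 : ∀ ω : J → Bool, Real.exp (s * ∑ j, (if ω j then (1 : ℝ) else -1) * c j)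
        = ∏ j, Real.exp (s * (RAD_s (ω j) * c j)) := by
      intro ω
      rw [← Real.exp_sum, mul_sum]
      rfl
    rw [sum_congr rfl (fun ω _ => h1 ω)]
    have h2 : ∑ ω : J → Bool, ∏ j, Real.exp (s * (RAD_s (ω j) * c j))
        = ∏ j, ∑ b : Bool, Real.exp (s * (RAD_s b * c j)) := by
      rw [Finset.prod_univ_sum, Fintype.piFinset_univ]
    rw [h2]
    have h3 : ∀ j ∈ (univ : Finset J), ∑ b : Bool, Real.exp (s * (RAD_s b * c j))
        ≤ 2 * Real.exp (s ^ 2 / 2 * c j ^ 2) := by
      intro j _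
      have h4 : ∑ b : Bool, Real.exp (s * (RAD_s b * c j)) = 2 * Real.cosh (s * c j) := by
        rw [Fintype.sum_bool, Real.cosh_eq]
        unfold RAD_s
        simp
        ring
      rw [h4]
      have h5 := Real.cosh_le_exp_half_sq (s * c j)
      have h6 : (s * c j) ^ 2 / 2 = s ^ 2 / 2 * c j ^ 2 := by ring
      rw [h6] at h5
      linarith
    calc ∏ j, ∑ b : Bool, Real.exp (s * (RAD_s b * c j))
        ≤ ∏ j : J, (2 * Real.exp (s ^ 2 / 2 * c j ^ 2)) :=
          prod_le_prod (fun j _ => sum_nonneg (fun b _ => (Real.exp_pos _).le)) h3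
      _ = 2 ^ Fintype.card J * Real.exp (s ^ 2 / 2 * ∑ j, c j ^ 2) := by
          rw [prod_mul_distrib, ← Real.exp_sum, ← mul_sum]
          simp

end Pool.Agent.HLow
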