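import Pool.Agent.HLow.Targets

/-! # ROUND: rounding of vectors to numbers -/

set_option autoImplicit false

namespace Pool.Agent.HLow

open Finset

lemma ROUND_low {V : Type} [Fintype V] [DecidableEq V] (a : V → V → ℝ) (G : ℝ)
    (hG : ∀ x : V → ℝ, (∀ v, |x v| ≤ 1) → Dicut.Gf a x ≤ G) (x : V → ℝ) (hx : ∀ v, |x v| ≤ 1) :
    -(2 * G) ≤ ∑ u, ∑ w, sy a u w * (x u * x w) := by
  have h1 := hG x hx
  have h2 := hG (fun v => -x v) (fun v => by rw [abs_neg]; exact hx v)
  have h3 : Dicut.Gf a x + Dicut.Gf a (fun v => -x v) =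
      -∑ u, ∑ w, sy a u w * (x u * x w) := by
    have h4 : ∑ u, ∑ w, sy a u w * (x u * x w) =
        ∑ u, ∑ w, a u w * (x u * x w) + ∑ u, ∑ w, a u w * (x u * x w) := by
      have h5 : ∑ u, ∑ w, a w u * (x u * x w) = ∑ u, ∑ w, a u w * (x u * x w) := by
        rw [sum_comm]
        exact sum_congr rfl fun u _ => sum_congr rfl fun w _ => by ring
      conv_rhs => rw [← h5]
      conv_rhs => rw [add_comm, h5]
      rw [← h5, h5]
      have h6 : ∑ u, ∑ w, sy a u w * (x u * x w) =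
          ∑ u, ∑ w, a u w * (x u * x w) + ∑ u, ∑ w, a w u * (x u * x w) := by
        rw [← sum_add_distrib]
        refine sum_congr rfl fun u _ => ?_
        rw [← sum_add_distrib]
        exact sum_congr rfl fun w _ => by unfold sy; ring
      rw [h6, h5]
    rw [h4]
    unfold Dicut.Gf
    rw [← sum_add_distrib, ← sum_add_distrib, ← sum_neg_distrib]
    refine sum_congr rfl fun u _ => ?_
    rw [← sum_add_distrib, ← sum_add_distrib, ← sum_neg_distrib]
    refine sum_congr rfl fun w _ => ?_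
    ring
  linarith

lemma ROUND_scale {V : Type} [Fintype V] [DecidableEq V] (a : V → V → ℝ) (G T : ℝ)
    (hG : ∀ x : V → ℝ, (∀ v, |x v| ≤ 1) → Dicut.Gf a x ≤ G) (hT : 0 < T) (y : V → ℝ)
    (hy : ∀ v, |y v| ≤ T) :
    -(2 * G * T ^ 2) ≤ ∑ u, ∑ w, sy a u w * (y u * y w) := by
  have h1 := ROUND_low a G hG (fun v => y v / T) (fun v => by
    rw [abs_div, abs_of_pos hT]
    exact (div_le_one hT).2 (hy v))
  have h2 : ∑ u, ∑ w, sy a u w * (y u * y w) =
      T ^ 2 * ∑ u, ∑ w, sy a u w * ((y u / T) * (y w / T)) := by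
    rw [mul_sum]
    refine sum_congr rfl fun u _ => ?_
    rw [mul_sum]
    refine sum_congr rfl fun w _ => ?_
    field_simp
  rw [h2]
  have h3 := mul_le_mul_of_nonneg_left h1 (sq_nonneg T)
  linarith

/-- clipping -/
noncomputable def ROUND_cl (T g : ℝ) : ℝ := max (-T) (min g T)

lemma ROUND_cl_abs {T : ℝ} (hT : 0 ≤ T) (g : ℝ) : |ROUND_cl T g| ≤ T := by
  unfold ROUND_cl
  rw [abs_le]
  exact ⟨le_max_left _ _, max_le (by linarith) (min_le_right _ _)⟩

lemma ROUND_cl_sub {T : ℝ} (hT : 0 ≤ T) (g : ℝ) :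
    (g - ROUND_cl T g) ^ 2 = (max (|g| - T) 0) ^ 2 := by
  unfold ROUND_cl
  rcases le_total g T with h | h
  · rw [min_eq_left h]
    rcases le_total (-T) g with h' | h'
    · rw [max_eq_right h', max_eq_right]
      · ring
      · have := abs_le.2 ⟨h', h⟩
        linarith
    · rw [max_eq_left h']
      have h3 : |g| = -g := abs_of_nonpos (by linarith)
      rw [h3, max_eq_left (by linarith)]
      ring
  · rw [min_eq_right h, max_eq_right (by linarith)]
    have h3 : |g| = g := abs_of_nonneg (by linarith)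
    rw [h3, max_eq_left (by linarith)]

lemma ROUND_cl_sq {T : ℝ} (hT : 0 ≤ T) (g : ℝ) : (ROUND_cl T g) ^ 2 ≤ g ^ 2 := by
  apply sq_le_sq.2
  unfold ROUND_cl
  rcases le_total g T with h | h
  · rw [min_eq_left h]
    rcases le_total (-T) g with h' | h'
    · rw [max_eq_right h']
    · rw [max_eq_left h', abs_neg, abs_of_nonneg hT, abs_of_nonpos (by linarith)]
      linarith
  · rw [min_eq_right h, max_eq_right (by linarith), abs_of_nonneg hT, abs_of_nonneg (by linarith)]
    exact h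

theorem p_ROUND (hRAD : T_RAD) (hCLIP : T_CLIP) : T_ROUND := by
  intro V _ _ a G m ha hG hG0 hm hm1 B hB
  set N : ℝ := 2 ^ Fintype.card V with hN
  have hN0 : 0 < N := by positivity
  have hlog : 0 ≤ Real.log m := Real.log_nonneg hm1
  set T : ℝ := Real.sqrt (4 * Real.log m + 1) with hT
  have hT2 : T ^ 2 = 4 * Real.log m + 1 := Real.sq_sqrt (by positivity)
  have hT1 : 1 ≤ T := by
    rw [hT]
    exact Real.one_le_sqrt.2 (by linarith)
  have hT0 : 0 < T := by linarith
  set g : (V → Bool) → V → ℝ := fun ω u => ∑ j, (if ω j then (1 : ℝ) else -1) * B u j with hg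
  set y : (V → Bool) → V → ℝ := fun ω u => ROUND_cl T (g ω u) with hy
  set ε : ℝ := 2 * Real.exp (-(T ^ 2 / 4)) with hε
  have hε0 : 0 < ε := by positivity
  have hε2 : ε ^ 2 = 4 * Real.exp (-(T ^ 2 / 2)) := by
    rw [hε, mul_pow, ← Real.exp_nat_mul]
    norm_num
    ring
  have hεm : m * ε ≤ 2 := by
    have h1 : Real.exp (-(T ^ 2 / 4)) ≤ 1 / m := by
      rw [hT2, one_div, ← Real.exp_log (by linarith : (0 : ℝ) < m), ← Real.exp_neg,
        Real.exp_log (by linarith : (0 : ℝ) < m)]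
      apply Real.exp_le_exp.2
      linarith
    have h2 : 0 < m := by linarith
    calc m * ε ≤ m * (2 * (1 / m)) := by
          apply mul_le_mul_of_nonneg_left _ h2.le
          rw [hε]
          linarith
      _ = 2 := by field_simp
  -- moments
  have hgg : ∀ u w, ∑ ω, g ω u * g ω w = N * ∑ j, B u j * B w j := fun u w =>
    (hRAD V).1 (B u) (B w)
  have hg2 : ∀ u, ∑ ω, g ω u ^ 2 ≤ N := by
    intro u
    have h1 : ∑ ω, g ω u ^ 2 = N * ∑ j, B u j ^ 2 := by
      have h2 := hgg u u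
      simp only [← sq] at h2
      exact h2
    rw [h1]
    have := mul_le_mul_of_nonneg_left (hB u) hN0.le
    linarith
  have hh2 : ∀ u, ∑ ω, (g ω u - y ω u) ^ 2 ≤ N * ε ^ 2 := by
    intro u
    have h1 := hCLIP V (B u) T (hB u) hT1
    rw [hε2]
    refine le_trans (le_of_eq ?_) h1
    exact sum_congr rfl fun ω _ => ROUND_cl_sub hT0.le _
  have hy2 : ∀ u, ∑ ω, y ω u ^ 2 ≤ N := by
    intro u
    exact le_trans (sum_le_sum fun ω _ => ROUND_cl_sq hT0.le _) (hg2 u)
  -- the error for one pair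
  have hpair : ∀ u w, ∑ ω, y ω u * y ω w - 2 * (N * ε) ≤ ∑ ω, g ω u * g ω w := by
    intro u w
    have h1 : ∀ a b : ℝ, -(a ^ 2 / (2 * ε) + ε * b ^ 2 / 2) ≤ a * b := by
      intro a b
      have h2 : 0 ≤ (a + ε * b) ^ 2 / (2 * ε) := by positivity
      have h3 : (a + ε * b) ^ 2 / (2 * ε) = a ^ 2 / (2 * ε) + ε * b ^ 2 / 2 + a * b := by
        field_simp
        ring
      linarith
    have h2 : ∀ ω, y ω u * y ω w -
        ((g ω u - y ω u) ^ 2 / (2 * ε) + ε * g ω w ^ 2 / 2) -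
        ((g ω w - y ω w) ^ 2 / (2 * ε) + ε * y ω u ^ 2 / 2) ≤ g ω u * g ω w := by
      intro ω
      have h3 := h1 (g ω u - y ω u) (g ω w)
      have h4 := h1 (g ω w - y ω w) (y ω u)
      nlinarith
    have h3 := sum_le_sum fun ω (_ : ω ∈ (univ : Finset (V → Bool))) => h2 ω
    rw [sum_sub_distrib, sum_sub_distrib, sum_add_distrib, sum_add_distrib, ← sum_div, ← sum_div,
      ← sum_div, ← sum_div, ← mul_sum, ← mul_sum] at h3
    have h5 : ∀ S : ℝ, S ≤ N * ε ^ 2 → S / (2 * ε) ≤ N * ε / 2 := by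
      intro S hS
      rw [div_le_iff₀ (by positivity)]
      nlinarith
    have h6 := h5 _ (hh2 u)
    have h7 := h5 _ (hh2 w)
    have h8 := mul_le_mul_of_nonneg_left (hg2 w) hε0.le
    have h9 := mul_le_mul_of_nonneg_left (hy2 u) hε0.le
    linarith
  have hsy0 : ∀ u w, 0 ≤ sy a u w := by
    intro u w
    unfold sy
    rcases ha u w with e | e <;> rcases ha w u with e' | e' <;> rw [e, e'] <;> norm_num
  have hsysum : ∑ u, ∑ w, sy a u w = 2 * m := by
    have h1 : ∑ u, ∑ w, sy a u w = ∑ u, (dp a u + dm a u) :=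
      sum_congr rfl fun u _ => sy_deg a u
    rw [h1, sum_add_distrib, hm]
    have h2 : ∑ u, dm a u = ∑ u, dp a u := by
      unfold dm dp
      rw [sum_comm]
    rw [h2, hm]
    ring
  -- sum over everything
  have hmain : ∑ ω, ∑ u, ∑ w, sy a u w * (y ω u * y ω w) - 2 * m * (2 * (N * ε)) ≤
      N * ∑ u, ∑ w, sy a u w * ∑ j, B u j * B w j := by
    have h1 : ∑ ω, ∑ u, ∑ w, sy a u w * (y ω u * y ω w) =
        ∑ u, ∑ w, sy a u w * ∑ ω, y ω u * y ω w := by
      rw [sum_comm]
      refine sum_congr rfl fun u _ => ?_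
      rw [sum_comm]
      exact sum_congr rfl fun w _ => by rw [mul_sum]
    rw [h1, ← hsysum, sum_mul, mul_sum, ← sum_sub_distrib]
    refine sum_le_sum fun u _ => ?_
    rw [sum_mul, mul_sum, ← sum_sub_distrib]
    refine sum_le_sum fun w _ => ?_
    have h2 := mul_le_mul_of_nonneg_left (hpair u w) (hsy0 u w)
    rw [hgg u w] at h2
    linarith
  have hlow : N * -(2 * G * T ^ 2) ≤ ∑ ω, ∑ u, ∑ w, sy a u w * (y ω u * y ω w) := by
    have h1 : ∀ ω ∈ (univ : Finset (V → Bool)), -(2 * G * T ^ 2) ≤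
        ∑ u, ∑ w, sy a u w * (y ω u * y ω w) := fun ω _ =>
      ROUND_scale a G T hG hT0 (y ω) fun v => ROUND_cl_abs hT0.le _
    have h2 := card_nsmul_le_sum _ _ _ h1
    rw [card_univ, nsmul_eq_mul, Fintype.card_fun, Fintype.card_bool] at h2
    push_cast at h2
    exact h2
  have hfin : N * -((8 * Real.log m + 2) * G + 8) ≤
      N * ∑ u, ∑ w, sy a u w * ∑ j, B u j * B w j := by
    refine le_trans ?_ hmain
    have h1 : 2 * m * (2 * (N * ε)) ≤ N * 8 := by
      have := mul_le_mul_of_nonneg_left hεm hN0.le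
      nlinarith
    rw [hT2] at hlow
    nlinarith
  exact le_of_mul_le_mul_left hfin hN0

end Pool.Agent.HLow
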