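import Pool.Agent.HLow.Targets

set_option autoImplicit false

/-!
# The spectral theorem for a real symmetric matrix, as functions (job HLow-SPEC)
-/

namespace Pool.Agent.HLow

open Finset

theorem SPEC_exists {V : Type} [Fintype V] [DecidableEq V] (A : V → V → ℝ)
    (hA : ∀ u v, A u v = A v u) : ∃ (lam : V → ℝ) (U : Matrix V V ℝ),
    U.transpose * U = 1 ∧ U * U.transpose = 1 ∧
      Matrix.of A = U * Matrix.diagonal lam * U.transpose := by
  have hM : (Matrix.of A).IsHermitian := by
    ext u v
    simp [Matrix.conjTranspose_apply, hA v u]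
  refine ⟨hM.eigenvalues, (hM.eigenvectorUnitary : Matrix V V ℝ), ?_, ?_, ?_⟩
  · have h := hM.eigenvectorUnitary.2.1
    rwa [Matrix.star_eq_conjTranspose, Matrix.conjTranspose_eq_transpose_of_trivial] at h
  · have h := hM.eigenvectorUnitary.2.2
    rwa [Matrix.star_eq_conjTranspose, Matrix.conjTranspose_eq_transpose_of_trivial] at h
  · have h := hM.spectral_theorem
    rw [Unitary.conjStarAlgAut_apply] at h
    rw [Matrix.star_eq_conjTranspose, Matrix.conjTranspose_eq_transpose_of_trivial] at h
    exact h

theorem p_SPEC : T_SPEC := by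
  intro V _ _ A K hA hlow
  obtain ⟨lam, U, h1, h2, h3⟩ := SPEC_exists A hA
  have row : ∀ i j, ∑ u, U u i * U u j = if i = j then 1 else 0 := by
    intro i j
    have h := congrFun (congrFun h1 i) j
    rw [Matrix.mul_apply, Matrix.one_apply] at h
    exact h
  have col : ∀ u w, ∑ i, U u i * U w i = if u = w then 1 else 0 := by
    intro u w
    have h := congrFun (congrFun h2 u) w
    rw [Matrix.mul_apply, Matrix.one_apply] at h
    exact h
  have dec : ∀ u w, A u w = ∑ i, lam i * (U u i * U w i) := by
    intro u w
    have h := congrFun (congrFun h3 u) w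
    rw [Matrix.mul_apply] at h
    change A u w = _ at h
    rw [h]
    refine sum_congr rfl fun i _ => ?_
    rw [Matrix.mul_diagonal, Matrix.transpose_apply]
    ring
  refine ⟨lam, fun i u => U u i, ⟨row, col, dec, ?_⟩⟩
  intro i
  have h := hlow (fun u => U u i)
  have e1 : ∑ u, U u i ^ 2 = 1 := by
    have := row i i
    rw [if_pos rfl] at this
    rw [← this]
    exact sum_congr rfl fun u _ => sq _
  have e2 : ∑ u, ∑ v, A u v * (U u i * U v i) = lam i := by
    have e3 : ∀ u v, A u v * (U u i * U v i) =
        ∑ j, lam j * ((U u j * U u i) * (U v j * U v i)) := by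
      intro u v
      rw [dec u v, sum_mul]
      exact sum_congr rfl fun j _ => by ring
    simp only [e3]
    have e4 : ∑ u, ∑ v, ∑ j, lam j * ((U u j * U u i) * (U v j * U v i)) =
        ∑ j, lam j * ((∑ u, U u j * U u i) * (∑ v, U v j * U v i)) := by
      calc ∑ u, ∑ v, ∑ j, lam j * ((U u j * U u i) * (U v j * U v i))
          = ∑ u, ∑ j, ∑ v, lam j * ((U u j * U u i) * (U v j * U v i)) :=
            sum_congr rfl fun u _ => sum_comm
        _ = ∑ j, ∑ u, ∑ v, lam j * ((U u j * U u i) * (U v j * U v i)) := sum_comm
        _ = _ := by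
            refine sum_congr rfl fun j _ => ?_
            rw [sum_mul_sum, mul_sum]
            refine sum_congr rfl fun u _ => ?_
            rw [mul_sum]
    rw [e4]
    simp only [row]
    rw [sum_eq_single i]
    · simp
    · intro j _ hj
      simp [hj]
    · intro hi
      exact absurd (mem_univ i) hi
  rw [e1, e2, mul_one] at h
  exact h

end Pool.Agent.HLow
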