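import Mathlib
import Pool.Agent.HLow.Targets
import Pool.Agent.HLow.Low3

set_option autoImplicit false

namespace Pool.Agent.HLow

open Finset

theorem p_STAR : T_STAR := by
  intro V _ _ A K hA hL hK u W hW hcard
  have huW : u ∉ W := fun h => (mem_nb.mp (hW h)) (hA.dg u)
  have hd : Disjoint W {u} := by rw [disjoint_singleton_right]; exact huW
  have h := low3 hA.sym hL W {u} ∅ hd (disjoint_empty_right _) (disjoint_empty_right _)
    1 (-((W.card : ℝ) / K)) 0
  have e1 : ee A {u} {u} = 0 := by unfold ee; simp [hA.dg]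
  have e2 : ee A W {u} = (W.card : ℝ) := by
    unfold ee
    have : ∀ v ∈ W, ∑ z ∈ ({u} : Finset V), A v z = 1 := by
      intro v hv
      rw [sum_singleton, hA.sym]
      exact hA.eq_one (hW hv)
    rw [sum_congr rfl this]; simp
  rw [e1, e2] at h
  simp only [card_singleton, Nat.cast_one, card_empty, Nat.cast_zero] at h
  set w : ℝ := (W.card : ℝ) with hw
  have hK0 : 0 < K := by linarith
  have hw0 : 0 ≤ w := by rw [hw]; positivity
  have h2 : w ^ 2 / K - K * w ≤ ee A W W := by
    have e3 : (-(w / K)) ^ 2 = w ^ 2 / K ^ 2 := by rw [neg_sq, div_pow]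
    rw [e3] at h
    have e4 : K * (w ^ 2 / K ^ 2) = w ^ 2 / K := by field_simp
    have e5 : w * (w / K) = w ^ 2 / K := by ring
    nlinarith
  have h3 : w ^ 2 - K ^ 2 * w ≤ K * ee A W W := by
    have := mul_le_mul_of_nonneg_left h2 hK0.le
    have e6 : K * (w ^ 2 / K - K * w) = w ^ 2 - K ^ 2 * w := by field_simp
    linarith
  nlinarith

end Pool.Agent.HLow
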