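import Pool.Agent.HLow.Targets

set_option autoImplicit false

namespace Pool.Agent.HLow

open Finset

lemma STEP_num1 (r : ℝ) (h0 : 0 < r) (h1 : r ≤ 1 / 1024) (k : ℕ) (hk : 6 ≤ k) :
    (r ^ 4) ^ (2 * k) < (r ^ 3 / 32) ^ (2 * k) * (r ^ 5 / 12) := by
  have e1 : r ^ 4 = (r ^ 3 / 32) * (32 * r) := by ring
  rw [e1, mul_pow]
  have h2 : 0 < (r ^ 3 / 32) ^ (2 * k) := by positivity
  apply mul_lt_mul_of_pos_left _ h2
  rw [pow_mul]
  have h3 : (32 * r) ^ 2 ≤ r := by nlinarith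
  have h4 : ((32 * r) ^ 2) ^ k ≤ r ^ k := pow_le_pow_left₀ (by positivity) h3 k
  have h5 : r ^ k ≤ r ^ 6 := pow_le_pow_of_le_one h0.le (by linarith) hk
  have h6 : r ^ 6 < r ^ 5 / 12 := by
    have : 0 < r ^ 5 := by positivity
    have e2 : r ^ 6 = r ^ 5 * r := by ring
    rw [e2]
    nlinarith
  linarith

lemma STEP_num2 (p : ℝ) (hp : 1 / 2 ^ 40 ≤ p) (k : ℕ) (hk : k = 1600) :
    250 < (1 + 1 / 1600 : ℝ) ^ (k * 50) * p := by
  have h1 : (2 : ℝ) ≤ (1 + 1 / 1600 : ℝ) ^ k := by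
    have h := one_add_mul_le_pow (a := (1 / 1600 : ℝ)) (by norm_num) k
    have h' : (k : ℝ) = 1600 := by rw [hk]; norm_num
    rw [h'] at h
    linarith
  rw [pow_mul]
  have h2 : (2 : ℝ) ^ 50 ≤ ((1 + 1 / 1600 : ℝ) ^ k) ^ 50 := pow_le_pow_left₀ (by norm_num) h1 50
  have hp0 : 0 < p := lt_of_lt_of_le (by positivity) hp
  calc (250 : ℝ) < 2 ^ 50 * (1 / 2 ^ 40) := by norm_num
    _ ≤ 2 ^ 50 * p := by nlinarith
    _ ≤ _ := mul_le_mul_of_nonneg_right h2 hp0.le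

lemma STEP_comp (e N T t M : ℝ) (m : ℕ) (c d : ℝ) (hN : 0 < N) (hT : 0 < T) (hc : 0 ≤ c)
    (hd : d * N ≤ T) (he : c * T ^ 2 ≤ t) (hp : e = M * N ^ 2) (hlt : M ^ m < c ^ m * d) :
    (e / N ^ 2) ^ m * N < (t / T ^ 2) ^ m * T := by
  have e1 : e / N ^ 2 = M := by
    rw [hp]; field_simp
  rw [e1]
  have h2 : c ≤ t / T ^ 2 := by
    rw [le_div_iff₀ (by positivity)]
    exact he
  have h3 : c ^ m ≤ (t / T ^ 2) ^ m := pow_le_pow_left₀ hc h2 m
  calc M ^ m * N < c ^ m * d * N := by nlinarith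
    _ = c ^ m * (d * N) := by ring
    _ ≤ c ^ m * T := mul_le_mul_of_nonneg_left hd (pow_nonneg hc m)
    _ ≤ (t / T ^ 2) ^ m * T := mul_le_mul_of_nonneg_right h3 hT.le

theorem p_STEP (h1 : T_INC1) (h2 : T_INC2) (h3 : T_DENSE) : T_STEP := by
  obtain ⟨L1, hL1, H1⟩ := h1
  obtain ⟨L2, hL2, H2⟩ := h2
  obtain ⟨k, hk⟩ : ∃ k : ℕ, k = 1600 := ⟨_, rfl⟩
  refine ⟨L1 + L2 + 1000, k * 50, by omega, by omega, ?_⟩
  intro V _ _ A K hA hLow hK hN hp
  set N : ℝ := (Fintype.card V : ℝ) with hNdef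
  set E : ℝ := ee A univ univ with hE
  have hbase : ∀ L : ℕ, 1 ≤ L → L ≤ L1 + L2 + 1000 → ((L : ℝ) * K) ^ L ≤ N := by
    intro L hL0 hL
    refine le_trans ?_ hN
    have a1 : (L : ℝ) * K ≤ ((L1 + L2 + 1000 : ℕ) : ℝ) * K := by
      apply mul_le_mul_of_nonneg_right _ (by linarith)
      exact_mod_cast hL
    have a2 : (1 : ℝ) ≤ ((L1 + L2 + 1000 : ℕ) : ℝ) * K := by
      have : (1 : ℝ) ≤ ((L1 + L2 + 1000 : ℕ) : ℝ) := by exact_mod_cast (by omega)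
      nlinarith
    calc ((L : ℝ) * K) ^ L ≤ (((L1 + L2 + 1000 : ℕ) : ℝ) * K) ^ L :=
          pow_le_pow_left₀ (by positivity) a1 L
      _ ≤ _ := pow_le_pow_right₀ a2 hL
  have hN1 : 1000 * K ^ 3 ≤ N := by
    refine le_trans ?_ hN
    have a2 : (1000 : ℝ) ≤ ((L1 + L2 + 1000 : ℕ) : ℝ) := by exact_mod_cast (by omega)
    have a3 : 1000 * K ≤ ((L1 + L2 + 1000 : ℕ) : ℝ) * K :=
      mul_le_mul_of_nonneg_right a2 (by linarith)
    have a4 : (1 : ℝ) ≤ ((L1 + L2 + 1000 : ℕ) : ℝ) * K := by nlinarith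
    calc 1000 * K ^ 3 ≤ (1000 * K) ^ 3 := by
          have : 0 ≤ K ^ 3 := by positivity
          nlinarith
      _ ≤ (((L1 + L2 + 1000 : ℕ) : ℝ) * K) ^ 3 := pow_le_pow_left₀ (by positivity) a3 3
      _ ≤ _ := pow_le_pow_right₀ a4 (by omega)
  have hK3 : (1 : ℝ) ≤ K ^ 3 := one_le_pow₀ hK
  have hNpos : 0 < N := by nlinarith
  have hN2 : 0 < N ^ 2 := by positivity
  have hEle : E ≤ N ^ 2 := by
    have := ee_le hA (univ : Finset V) univ
    rw [Finset.card_univ] at this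
    rw [pow_two]
    exact this
  have hEpos : 0 < E := by
    by_contra hcon
    have : E = 0 := le_antisymm (not_lt.mp hcon) (ee_nonneg hA _ _)
    rw [this] at hp
    linarith
  set p : ℝ := E / N ^ 2 with hpdef
  have hEp : E = p * N ^ 2 := by rw [hpdef]; field_simp
  have hppos : 0 < p := div_pos hEpos hN2
  have hp1 : p ≤ 1 := by rw [hpdef, div_le_one hN2]; exact hEle
  by_cases hA1 : p ≤ 1 / 2 ^ 40
  · -- sparse
    obtain ⟨r, hr0, hr4⟩ : ∃ r : ℝ, 0 < r ∧ r ^ 4 = p := by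
      refine ⟨Real.sqrt (Real.sqrt p), Real.sqrt_pos.mpr (Real.sqrt_pos.mpr hppos), ?_⟩
      have : Real.sqrt (Real.sqrt p) ^ 4 = (Real.sqrt (Real.sqrt p) ^ 2) ^ 2 := by ring
      rw [this, Real.sq_sqrt (Real.sqrt_nonneg _), Real.sq_sqrt hppos.le]
    have hr : r ≤ 1 / 1024 := by
      by_contra hcon
      push Not at hcon
      have : (1 / 1024 : ℝ) ^ 4 < r ^ 4 := pow_lt_pow_left₀ hcon (by norm_num) (by norm_num)
      rw [hr4] at this
      have h40 : (1 / 1024 : ℝ) ^ 4 = 1 / 2 ^ 40 := by norm_num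
      linarith
    have hKr : 1 ≤ 4 * K * r ^ 4 := by
      rw [hr4]
      rw [hEp] at hp
      have : N ^ 2 * 1 ≤ N ^ 2 * (4 * K * p) := by linarith
      exact le_of_mul_le_mul_left this hN2
    obtain ⟨u, hu1, hu2⟩ := H1 V A K r hA hLow hK (hbase L1 hL1 (by omega)) hr0 hr hKr
      (by rw [hr4]; exact hEp)
    left
    have hTpos : 0 < ((nb A u).card : ℝ) := lt_of_lt_of_le (by positivity) hu1
    refine ⟨nb A u, card_pos.mp (by exact_mod_cast hTpos), ?_⟩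
    have hnum := STEP_num1 r hr0 hr (25 * k) (by omega)
    have hkk : 2 * (25 * k) = k * 50 := by ring
    rw [hkk] at hnum
    exact STEP_comp E N _ _ (r ^ 4) (k * 50) (r ^ 3 / 32) (r ^ 5 / 12) hNpos hTpos
      (by positivity) hu1 hu2 (by rw [hr4]; exact hEp) hnum
  · push Not at hA1
    by_cases hA2 : p ≤ 1 - 1 / 400
    · obtain ⟨u, hu1, hu2⟩ := H2 V A K p hA hLow hK (hbase L2 hL2 (by omega)) hA1.le hA2 hEp
      left
      have hTpos : 0 < ((nb A u).card : ℝ) := lt_of_lt_of_le (by positivity) hu1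
      refine ⟨nb A u, card_pos.mp (by exact_mod_cast hTpos), ?_⟩
      have hnum := STEP_num2 p hA1.le k hk
      refine STEP_comp E N _ _ p (k * 50) ((1 + 1 / 1600) * p) (p / 250) hNpos hTpos
        (by positivity) hu1 hu2 hEp ?_
      rw [mul_pow]
      have hpm : 0 < p ^ (k * 50) := pow_pos hppos _
      have : p ^ (k * 50) * 250 < p ^ (k * 50) * ((1 + 1 / 1600 : ℝ) ^ (k * 50) * p) :=
        mul_lt_mul_of_pos_left hnum hpm
      nlinarith
    · push Not at hA2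
      right
      apply h3 V A K hA hLow hK hN1
      have : (1 - 1 / 400) * N ^ 2 ≤ p * N ^ 2 := mul_le_mul_of_nonneg_right hA2.le hN2.le
      rw [← hEp] at this
      exact this

end Pool.Agent.HLow
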