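import Pool.Agent.HLow.Targets

set_option autoImplicit false

namespace Pool.Agent.HLow

open Finset

lemma TR_eig {V : Type} [Fintype V] [DecidableEq V] {A : V → V → ℝ} {K : ℝ}
    {lam : V → ℝ} {v : V → V → ℝ} (h : Spec A K lam v) (u i : V) :
    ∑ w, A u w * v i w = lam i * v i u := by
  have h1 : ∀ w, A u w * v i w = ∑ j, (lam j * v j u) * (v j w * v i w) := by
    intro w
    rw [h.dec u w, sum_mul]
    exact sum_congr rfl fun j _ => by ring
  rw [sum_congr rfl fun w _ => h1 w, sum_comm]
  have h2 : ∀ j, ∑ w, (lam j * v j u) * (v j w * v i w) =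
      if j = i then lam j * v j u else 0 := by
    intro j
    rw [← mul_sum, h.row j i]
    split_ifs <;> ring
  rw [sum_congr rfl fun j _ => h2 j]
  simp

lemma TR_one {V : Type} [Fintype V] [DecidableEq V] {A : V → V → ℝ} {K : ℝ}
    {lam : V → ℝ} {v : V → V → ℝ} (h : Spec A K lam v) (i : V) :
    ∑ u, v i u * v i u = 1 := by
  rw [h.row i i, if_pos rfl]

/-- traces -/
theorem p_TR : T_TR := by
  intro V _ _ A K lam v hA hS
  refine ⟨?_, ?_, ?_⟩
  · have h1 : ∀ i, lam i = ∑ u, lam i * (v i u * v i u) := by
      intro i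
      rw [← mul_sum, TR_one hS i, mul_one]
    rw [sum_congr rfl fun i _ => h1 i, sum_comm]
    refine sum_eq_zero fun u _ => ?_
    rw [← hS.dec u u, hA.dg u]
  · have h1 : ∀ i, lam i ^ 2 = ∑ u, ∑ w, A u w * (lam i * (v i u * v i w)) := by
      intro i
      have e1 : lam i ^ 2 = ∑ u, lam i * v i u * (lam i * v i u) := by
        have e2 : ∀ u, lam i * v i u * (lam i * v i u) = lam i ^ 2 * (v i u * v i u) :=
          fun u => by ring
        rw [sum_congr rfl fun u _ => e2 u, ← mul_sum, TR_one hS i, mul_one]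
      rw [e1]
      refine sum_congr rfl fun u _ => ?_
      rw [← TR_eig hS u i, sum_mul]
      nth_rewrite 1 [TR_eig hS u i]
      rw [← sum_mul, TR_eig hS u i]
      rw [← TR_eig hS u i, mul_sum, TR_eig hS u i]
      exact sum_congr rfl fun w _ => by ring
    rw [sum_congr rfl fun i _ => h1 i, sum_comm]
    unfold ee
    refine sum_congr rfl fun u _ => ?_
    rw [sum_comm]
    refine sum_congr rfl fun w _ => ?_
    rw [← mul_sum, ← hS.dec u w, hA.sq]
  · have h1 : ∀ i, lam i ^ 3 = ∑ u, ∑ w, ∑ z, A u w * A u z * (lam i * (v i w * v i z)) := by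
      intro i
      have e1 : lam i ^ 3 = ∑ u, lam i * ((lam i * v i u) * (lam i * v i u)) := by
        have e2 : ∀ u, lam i * ((lam i * v i u) * (lam i * v i u)) =
            lam i ^ 3 * (v i u * v i u) := fun u => by ring
        rw [sum_congr rfl fun u _ => e2 u, ← mul_sum, TR_one hS i, mul_one]
      rw [e1]
      refine sum_congr rfl fun u _ => ?_
      rw [← TR_eig hS u i, sum_mul_sum, mul_sum]
      refine sum_congr rfl fun w _ => ?_
      rw [mul_sum]
      exact sum_congr rfl fun z _ => by ring
    rw [sum_congr rfl fun i _ => h1 i, sum_comm]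
    refine sum_congr rfl fun u _ => ?_
    rw [sum_comm]
    have h2 : ∀ w, ∑ i, ∑ z, A u w * A u z * (lam i * (v i w * v i z)) =
        ∑ z, A u w * A u z * A w z := by
      intro w
      rw [sum_comm]
      refine sum_congr rfl fun z _ => ?_
      rw [← mul_sum, ← hS.dec w z]
    rw [sum_congr rfl fun w _ => h2 w]
    unfold ee nb
    rw [sum_filter]
    refine sum_congr rfl fun w _ => ?_
    rcases hA.zo u w with e | e
    · rw [e, if_neg (by simp)]
      simp
    · rw [e, if_pos (by norm_num), sum_filter]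
      refine sum_congr rfl fun z _ => ?_
      rcases hA.zo u z with e' | e'
      · rw [e', if_neg (by simp)]
        simp
      · rw [e', if_pos (by norm_num)]
        ring

end Pool.Agent.HLow
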