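import Mathlib
import Pool.Agent.HLow.Targets

set_option autoImplicit false

namespace Pool.Agent.HLow

open Finset

theorem p_TX (h1 : T_TR) (h2 : T_BD) (h3 : T_KEY) (h4 : T_ABS) (h5 : T_ABT) : T_TX := by
  intro V _ _ A K B η lam v hA hS hK hV hB hη hη4 hKN
  obtain ⟨htr, -, -⟩ := h1 V A K lam v hA hS
  have hK0 : (0 : ℝ) ≤ K := le_trans zero_le_one hK
  obtain ⟨b1, b2, b3, b4, -⟩ := h2 V lam K hK0 hS.low htr
  have key := h3 V A K lam v hA hS hK0
  have hN : (0 : ℝ) < (Fintype.card V : ℝ) := by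
    have : (0 : ℕ) < Fintype.card V := hV
    exact_mod_cast this
  generalize hNdef : (Fintype.card V : ℝ) = N at *
  have hB0 : (0 : ℝ) < B := by linarith
  have hB2 : (0 : ℝ) ≤ (1 - 2 / B)⁻¹ := by
    apply inv_nonneg.mpr
    have : 2 / B ≤ 1 := by
      rw [div_le_one hB0]; linarith
    linarith
  have hpos : ∀ x : ℝ, 1 ≤ x → 0 < N / x := fun x hx => div_pos hN (by linarith)
  have ht01 : ∀ x : ℝ, 1 ≤ x → 0 ≤ TT lam (N / x) / N ∧ TT lam (N / x) / N ≤ K := by
    intro x hx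
    obtain ⟨c1, c2⟩ := b1 (N / x) (hpos x hx)
    refine ⟨div_nonneg c1 hN.le, ?_⟩
    rw [div_le_iff₀ hN]
    exact c2
  have hstep : ∀ x x' : ℝ, 1 ≤ x → 1 ≤ x' →
      (TT lam (N / x) / N) ^ 2 ≤ TT lam (N / x') / N
        + (1 / x' + K ^ 2 / N) * (x * (TT lam (N / x) / N)) ^ 2 := by
    intro x x' hx hx'
    have hx0 : (0 : ℝ) < x := by linarith
    have hx0' : (0 : ℝ) < x' := by linarith
    have k1 := key (N / x) (N / x') (hpos x hx) (hpos x' hx').le
    obtain ⟨r1, r2⟩ := b2 (N / x) (hpos x hx)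
    have r3 : RR lam (N / x) ≤ x * (TT lam (N / x) / N) := by
      have e : x * (TT lam (N / x) / N) = TT lam (N / x) / (N / x) := by
        field_simp
      rw [e, le_div_iff₀ (hpos x hx)]
      linarith
    have r4 : RR lam (N / x) ^ 2 ≤ (x * (TT lam (N / x) / N)) ^ 2 :=
      pow_le_pow_left₀ r1 r3 2
    have c0 : 0 ≤ 1 / x' + K ^ 2 / N := by positivity
    have e1 : (TT lam (N / x) / N) ^ 2 = TT lam (N / x) ^ 2 / N ^ 2 := by rw [div_pow]
    have e2 : N * (TT lam (N / x') + (N / x' + K ^ 2) * RR lam (N / x) ^ 2) / N ^ 2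
        = TT lam (N / x') / N + (1 / x' + K ^ 2 / N) * RR lam (N / x) ^ 2 := by
      field_simp
    calc (TT lam (N / x) / N) ^ 2 = TT lam (N / x) ^ 2 / N ^ 2 := e1
      _ ≤ N * (TT lam (N / x') + (N / x' + K ^ 2) * RR lam (N / x) ^ 2) / N ^ 2 :=
          div_le_div_of_nonneg_right k1 (by positivity)
      _ = TT lam (N / x') / N + (1 / x' + K ^ 2 / N) * RR lam (N / x) ^ 2 := e2
      _ ≤ _ := by
          have := mul_le_mul_of_nonneg_left r4 c0
          linarith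
  have first : ∀ x : ℝ, 1 ≤ x → TT lam (N / x) / N ≤ (1 - 2 / B)⁻¹ * (B * x) ^ η :=
    h4 (fun x => TT lam (N / x) / N) K N B η hK hN hB hη ht01 hstep hKN
  refine ⟨?_, ?_⟩
  · intro x hx
    have := first x hx
    rw [div_le_iff₀ hN] at this
    linarith
  · intro x hx
    have hC : 0 ≤ (1 - 2 / B)⁻¹ * B ^ η := mul_nonneg hB2 (Real.rpow_nonneg hB0.le _)
    have g1 : ∀ x : ℝ, 1 ≤ x → TT lam (N / x) / N ≤ ((1 - 2 / B)⁻¹ * B ^ η) * x ^ (1 / 4 : ℝ) := by
      intro x hx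
      have hx0 : (0 : ℝ) ≤ x := by linarith
      have q := first x hx
      rw [Real.mul_rpow hB0.le hx0] at q
      have q2 : x ^ η ≤ x ^ (1 / 4 : ℝ) := Real.rpow_le_rpow_of_exponent_le hx hη4
      have q3 := mul_le_mul_of_nonneg_left q2 hC
      calc TT lam (N / x) / N ≤ (1 - 2 / B)⁻¹ * (B ^ η * x ^ η) := q
        _ = ((1 - 2 / B)⁻¹ * B ^ η) * x ^ η := by ring
        _ ≤ _ := q3
    have g2 : ∀ x : ℝ, 1 ≤ x → TL lam (N / x) / N ^ 2
        ≤ (TT lam (N / x ^ 2) / N) / x + TL lam (N / x ^ 2) / N ^ 2 := by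
      intro x hx
      have hx0 : (0 : ℝ) < x := by linarith
      have hx2 : (1 : ℝ) ≤ x ^ 2 := by nlinarith
      have hle : N / x ^ 2 ≤ N / x := by
        apply div_le_div_of_nonneg_left hN.le hx0
        nlinarith
      have q := b4 (N / x) (N / x ^ 2) (hpos _ hx2) hle
      have q2 := div_le_div_of_nonneg_right q (by positivity : (0 : ℝ) ≤ N ^ 2)
      have e : (N / x * TT lam (N / x ^ 2) + TL lam (N / x ^ 2)) / N ^ 2
          = (TT lam (N / x ^ 2) / N) / x + TL lam (N / x ^ 2) / N ^ 2 := by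
        field_simp
      rw [e] at q2
      exact q2
    have g3 : ∀ x : ℝ, 1 ≤ x → TL lam (N / x) / N ^ 2 ≤ K / x := by
      intro x hx
      have hx0 : (0 : ℝ) < x := by linarith
      obtain ⟨-, q⟩ := b3 (N / x) (hpos x hx)
      have q2 := div_le_div_of_nonneg_right q (by positivity : (0 : ℝ) ≤ N ^ 2)
      have e : N / x * (K * N) / N ^ 2 = K / x := by field_simp
      rw [e] at q2
      exact q2
    have fin := h5 (fun x => TT lam (N / x) / N) (fun x => TL lam (N / x) / N ^ 2) K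
      ((1 - 2 / B)⁻¹ * B ^ η) hC hK0 g1 g2 g3 x hx
    have hN2 : (0 : ℝ) < N ^ 2 := by positivity
    rw [div_le_iff₀ hN2] at fin
    linarith

end Pool.Agent.HLow
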