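import Mathlib
import Pool.Agent.HLow.Targets

set_option autoImplicit false

namespace Pool.Agent.HLow

open Finset

variable {V : Type} [Fintype V] [DecidableEq V]

/-- the form `x^T (A + K I) y` -/
noncomputable def XU_Q (A : V → V → ℝ) (K : ℝ) (x y : V → ℝ) : ℝ :=
  (∑ u, ∑ v, A u v * (x u * y v)) + K * ∑ u, x u * y u

omit [DecidableEq V] in
lemma XU_exp (A : V → V → ℝ) (K : ℝ) (hs : ∀ u v, A u v = A v u) (x y : V → ℝ) (t : ℝ) :
    XU_Q A K (fun u => t * y u + x u) (fun u => t * y u + x u)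
      = XU_Q A K y y * (t * t) + 2 * XU_Q A K x y * t + XU_Q A K x x := by
  have hsw : ∑ u, ∑ v, A u v * (y u * x v) = ∑ u, ∑ v, A u v * (x u * y v) := by
    rw [sum_comm]
    refine sum_congr rfl fun u _ => sum_congr rfl fun v _ => ?_
    rw [hs v u]; ring
  have h1 : ∑ u, ∑ v, A u v * ((t * y u + x u) * (t * y v + x v))
      = t * t * (∑ u, ∑ v, A u v * (y u * y v)) + t * (∑ u, ∑ v, A u v * (y u * x v))
        + t * (∑ u, ∑ v, A u v * (x u * y v)) + ∑ u, ∑ v, A u v * (x u * x v) := by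
    simp only [mul_sum, ← sum_add_distrib]
    refine sum_congr rfl fun u _ => sum_congr rfl fun v _ => ?_
    ring
  have h2 : ∑ u, (t * y u + x u) * (t * y u + x u)
      = t * t * (∑ u, y u * y u) + 2 * t * (∑ u, x u * y u) + ∑ u, x u * x u := by
    simp only [mul_sum, ← sum_add_distrib]
    refine sum_congr rfl fun u _ => ?_
    ring
  unfold XU_Q
  rw [h1, h2, hsw]
  ring

omit [DecidableEq V] in
lemma XU_nonneg {A : V → V → ℝ} {K : ℝ} (hl : Low A K) (x : V → ℝ) : 0 ≤ XU_Q A K x x := by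
  have h := hl x
  unfold XU_Q
  have h1 : ∑ u, x u * x u = ∑ u, x u ^ 2 := sum_congr rfl fun u _ => by ring
  rw [h1]
  linarith

omit [DecidableEq V] in
lemma XU_cs {A : V → V → ℝ} {K : ℝ} (hs : ∀ u v, A u v = A v u) (hl : Low A K) (x y : V → ℝ) :
    XU_Q A K x y ^ 2 ≤ XU_Q A K x x * XU_Q A K y y := by
  have h := discrim_le_zero (a := XU_Q A K y y) (b := 2 * XU_Q A K x y) (c := XU_Q A K x x)
    (fun t => by
      rw [← XU_exp A K hs x y t]
      exact XU_nonneg hl _)
  unfold discrim at h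
  nlinarith [h]

theorem p_XU : T_XU := by
  intro V _ _ A K hA hl hK
  have hs := hA.sym
  have e2nn : 0 ≤ ee A univ univ := ee_nonneg hA _ _
  -- the values of the form
  have hone : XU_Q A K (fun _ => 1) (fun _ => 1) = ee A univ univ + K * (Fintype.card V : ℝ) := by
    unfold XU_Q ee
    simp
  have hAA : ∀ u, XU_Q A K (A u) (A u) = ee A (nb A u) (nb A u) + K * ∑ w, A u w := by
    intro u
    unfold XU_Q
    have h1 : ∑ w, A u w * A u w = ∑ w, A u w := sum_congr rfl fun w _ => hA.sq u w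
    rw [h1]
    congr 1
    unfold ee
    have h0 : ∀ w, w ∉ nb A u → A u w = 0 := by
      intro w hw
      rw [mem_nb] at hw
      push Not at hw
      exact hw
    rw [← sum_subset (subset_univ (nb A u))]
    · refine sum_congr rfl fun w hw => ?_
      rw [← sum_subset (subset_univ (nb A u))]
      · refine sum_congr rfl fun z hz => ?_
        rw [hA.eq_one hw, hA.eq_one hz]; ring
      · intro z _ hz
        rw [h0 z hz]; ring
    · intro w _ hw
      refine sum_eq_zero fun z _ => ?_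
      rw [h0 w hw]; ring
  have hA1 : ∑ u, XU_Q A K (A u) (fun _ => 1)
      = ∑ u, ((nb A u).card : ℝ) ^ 2 + K * ee A univ univ := by
    have h1 : ∀ u, XU_Q A K (A u) (fun _ => 1)
        = (∑ w, A u w * ((nb A w).card : ℝ)) + K * ∑ w, A u w := by
      intro u
      unfold XU_Q
      congr 1
      · refine sum_congr rfl fun w _ => ?_
        rw [← hA.deg w, mul_sum]
        refine sum_congr rfl fun z _ => ?_
        ring
      · simp
    rw [sum_congr rfl fun u _ => h1 u, sum_add_distrib, ← mul_sum]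
    have h2 : ∑ u, ∑ w, A u w * ((nb A w).card : ℝ) = ∑ u, ((nb A u).card : ℝ) ^ 2 := by
      rw [sum_comm]
      refine sum_congr rfl fun w _ => ?_
      rw [← sum_mul, sum_congr rfl fun u _ => hs u w, hA.deg w]
      ring
    rw [h2]
    rfl
  have hYsum : ∑ u, XU_Q A K (A u) (A u)
      = ∑ u, ee A (nb A u) (nb A u) + K * ee A univ univ := by
    rw [sum_congr rfl fun u _ => hAA u, sum_add_distrib, ← mul_sum]
    rfl
  have hX0 : 0 ≤ ∑ u, ((nb A u).card : ℝ) ^ 2 := sum_nonneg fun u _ => sq_nonneg _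
  have hle : ∑ u, ((nb A u).card : ℝ) ^ 2 ≤ ∑ u, XU_Q A K (A u) (fun _ => 1) := by
    rw [hA1]
    have := mul_nonneg hK e2nn
    linarith
  calc (∑ u, ((nb A u).card : ℝ) ^ 2) ^ 2 ≤ (∑ u, XU_Q A K (A u) (fun _ => 1)) ^ 2 :=
        pow_le_pow_left₀ hX0 hle 2
    _ ≤ (Fintype.card V : ℝ) * ∑ u, XU_Q A K (A u) (fun _ => 1) ^ 2 := by
        have := sq_sum_le_card_mul_sum_sq (s := (univ : Finset V))
          (f := fun u => XU_Q A K (A u) (fun _ => 1))
        rwa [card_univ] at this
    _ ≤ (Fintype.card V : ℝ) * ∑ u, XU_Q A K (A u) (A u)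
          * XU_Q A K (fun _ => 1) (fun _ => 1) := by
        refine mul_le_mul_of_nonneg_left ?_ (Nat.cast_nonneg _)
        exact sum_le_sum fun u _ => XU_cs hs hl _ _
    _ = _ := by
        rw [← sum_mul, hYsum, hone]
        ring

end Pool.Agent.HLow
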