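import Pool.Agent.HLow.Targets

set_option autoImplicit false

/-!
# Lower bound of the third moment (MP_ac065a_co)
-/

namespace Pool.Agent.HLow

open Finset

/-- YL -/
theorem p_YL : T_YL := by
  intro V _ _ lam K τ hK hτ hlow hle
  classical
  -- the sum of squares over the large eigenvalues
  have hN : (0 : ℝ) ≤ (Fintype.card V : ℝ) := Nat.cast_nonneg _
  obtain ⟨P, hP⟩ : ∃ P : Finset V, P = univ.filter (fun i => τ ≤ lam i) := ⟨_, rfl⟩
  have hpos : ∀ i ∈ P, 0 < lam i := by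
    intro i hi
    rw [hP, Finset.mem_filter] at hi
    linarith [hi.2]
  have h2 : ∑ i, lam i ^ 2 - TL lam τ - K ^ 2 * (Fintype.card V : ℝ) ≤ ∑ i ∈ P, lam i ^ 2 := by
    have hc : ∑ i : V, K ^ 2 = K ^ 2 * (Fintype.card V : ℝ) := by
      rw [Finset.sum_const, Finset.card_univ, nsmul_eq_mul, mul_comm]
    rw [hP, Finset.sum_filter, ← hc]
    unfold TL
    rw [← Finset.sum_sub_distrib, ← Finset.sum_sub_distrib]
    refine Finset.sum_le_sum fun i _ => ?_
    have h := hlow i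
    by_cases h1 : τ ≤ lam i
    · rw [if_pos h1, if_neg (fun h' => absurd h'.2 (not_lt.mpr h1))]
      nlinarith [sq_nonneg K]
    · rw [if_neg h1]
      by_cases h2 : 0 < lam i
      · rw [if_pos ⟨h2, not_le.mp h1⟩]
        nlinarith [sq_nonneg K]
      · rw [if_neg (fun h' => h2 h'.1)]
        have h3 : lam i ≤ 0 := not_lt.mp h2
        nlinarith
  have h3 : ∑ i ∈ P, lam i ^ 3 ≤ ∑ i, lam i ^ 3 + K ^ 3 * (Fintype.card V : ℝ) := by
    have hc : ∑ i : V, K ^ 3 = K ^ 3 * (Fintype.card V : ℝ) := by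
      rw [Finset.sum_const, Finset.card_univ, nsmul_eq_mul, mul_comm]
    rw [hP, Finset.sum_filter, ← hc, ← Finset.sum_add_distrib]
    refine Finset.sum_le_sum fun i _ => ?_
    have h := hlow i
    split_ifs with h1
    · have : 0 ≤ K ^ 3 := by positivity
      linarith
    · have : 0 ≤ lam i ^ 3 + K ^ 3 := by
        have e : lam i ^ 3 + K ^ 3 = (lam i + K) * (lam i ^ 2 - lam i * K + K ^ 2) := by ring
        rw [e]
        refine mul_nonneg (by linarith) ?_
        nlinarith [sq_nonneg (lam i - K), sq_nonneg (lam i), sq_nonneg K]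
      linarith
  have h1 : ∑ i ∈ P, lam i = TT lam τ := by
    rw [hP, Finset.sum_filter]
    rfl
  have hcs : (∑ i ∈ P, lam i ^ 2) ^ 2 ≤ (∑ i ∈ P, lam i ^ 3) * ∑ i ∈ P, lam i := by
    refine Finset.sum_sq_le_sum_mul_sum_of_sq_le_mul P (fun i hi => ?_) (fun i hi => ?_)
      (fun i hi => ?_)
    · have := hpos i hi
      positivity
    · exact (hpos i hi).le
    · exact le_of_eq (by ring)
  have hT : 0 ≤ TT lam τ := by
    rw [← h1]
    exact Finset.sum_nonneg fun i hi => (hpos i hi).le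
  calc (∑ i, lam i ^ 2 - TL lam τ - K ^ 2 * (Fintype.card V : ℝ)) ^ 2
      ≤ (∑ i ∈ P, lam i ^ 2) ^ 2 := by
        apply pow_le_pow_left₀ (by linarith) h2
    _ ≤ (∑ i ∈ P, lam i ^ 3) * ∑ i ∈ P, lam i := hcs
    _ ≤ (∑ i, lam i ^ 3 + K ^ 3 * (Fintype.card V : ℝ)) * TT lam τ := by
        rw [h1]
        exact mul_le_mul_of_nonneg_right h3 hT

end Pool.Agent.HLow
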