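import Mathlib
import Pool.Agent.HLow.Targets
import Pool.Agent.HLow.ABS
import Pool.Agent.HLow.ABT
import Pool.Agent.HLow.BD
import Pool.Agent.HLow.BR
import Pool.Agent.HLow.CLIP
import Pool.Agent.HLow.CLOS
import Pool.Agent.HLow.CLQ
import Pool.Agent.HLow.CNT
import Pool.Agent.HLow.COMB
import Pool.Agent.HLow.COMBU
import Pool.Agent.HLow.CORE
import Pool.Agent.HLow.COREA
import Pool.Agent.HLow.COREB
import Pool.Agent.HLow.COREC
import Pool.Agent.HLow.CUBE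
import Pool.Agent.HLow.DENSE
import Pool.Agent.HLow.DICH
import Pool.Agent.HLow.DNA
import Pool.Agent.HLow.DNB
import Pool.Agent.HLow.DUAL
import Pool.Agent.HLow.FIN
import Pool.Agent.HLow.FU
import Pool.Agent.HLow.IMB
import Pool.Agent.HLow.INC1
import Pool.Agent.HLow.INC1N
import Pool.Agent.HLow.INC2
import Pool.Agent.HLow.INC2N
import Pool.Agent.HLow.KEY
import Pool.Agent.HLow.LEN
import Pool.Agent.HLow.MAIN
import Pool.Agent.HLow.MERGE
import Pool.Agent.HLow.ONB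
import Pool.Agent.HLow.POW
import Pool.Agent.HLow.RAD
import Pool.Agent.HLow.ROUND
import Pool.Agent.HLow.SPEC
import Pool.Agent.HLow.STAR
import Pool.Agent.HLow.STEP
import Pool.Agent.HLow.TR
import Pool.Agent.HLow.TX
import Pool.Agent.HLow.XU
import Pool.Agent.HLow.YL

set_option autoImplicit false

namespace Pool.Agent.HLow

theorem t_TX : T_TX := p_TX p_TR p_BD (p_KEY p_ONB) p_ABS p_ABT

theorem t_STEP : T_STEP :=
  p_STEP (p_INC1 p_SPEC p_TR t_TX p_YL p_XU p_FU p_POW p_INC1N)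
    (p_INC2 p_SPEC p_TR t_TX p_YL p_XU p_FU p_POW p_INC2N)
    (p_DENSE (p_DNA (p_CUBE p_SPEC)) p_DNB)

theorem t_COMB : T_COMB :=
  p_COMB (p_CLQ t_STEP) p_STAR (p_BR p_CLOS (p_MERGE p_DICH p_CLOS) p_CNT)
    (p_CORE p_COREA p_COREB p_COREC)

theorem t_FIN : T_FIN :=
  p_FIN p_LEN p_IMB (p_ROUND p_RAD (p_CLIP p_RAD)) (p_DUAL p_SPEC) (p_COMBU t_COMB)

theorem t_MAIN : T_MAIN := p_MAIN t_FIN

end Pool.Agent.HLow
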