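import Mathlib
import Pool.Agent.HLow.Targets

set_option autoImplicit false

namespace Pool.Agent.HLow

open Finset

/-- Schur product theorem -/
lemma CUBE_had {V : Type} [Fintype V] [DecidableEq V] {B C : V → V → ℝ} {lam : V → ℝ}
    {v : V → V → ℝ} (hB : Spec B 0 lam v) (hC : Low C 0) :
    Low (fun u w => B u w * C u w) 0 := by
  intro x
  have h1 : ∑ u, ∑ w, B u w * C u w * (x u * x w) =
      ∑ i, lam i * ∑ u, ∑ w, C u w * ((v i u * x u) * (v i w * x w)) := by
    calc ∑ u, ∑ w, B u w * C u w * (x u * x w)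
        = ∑ u, ∑ w, ∑ i, lam i * (C u w * ((v i u * x u) * (v i w * x w))) := by
          refine sum_congr rfl fun u _ => sum_congr rfl fun w _ => ?_
          rw [hB.dec u w, sum_mul, sum_mul]
          exact sum_congr rfl fun i _ => by ring
      _ = ∑ u, ∑ i, ∑ w, lam i * (C u w * ((v i u * x u) * (v i w * x w))) :=
          sum_congr rfl fun u _ => sum_comm
      _ = ∑ i, ∑ u, ∑ w, lam i * (C u w * ((v i u * x u) * (v i w * x w))) := sum_comm
      _ = _ := by
          refine sum_congr rfl fun i _ => ?_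
          rw [mul_sum]
          exact sum_congr rfl fun u _ => (mul_sum _ _ _).symm
  rw [h1, zero_mul, neg_zero]
  refine sum_nonneg fun i _ => mul_nonneg ?_ ?_
  · have := hB.low i
    linarith
  · have := hC (fun u => v i u * x u)
    simpa using this

theorem p_CUBE (hSPEC : T_SPEC) : T_CUBE := by
  intro V _ _ B hsym hlow
  obtain ⟨lam, v, hS⟩ := hSPEC V B 0 hsym hlow
  have h2 := CUBE_had hS hlow
  have h3 := CUBE_had hS h2 (fun _ => 1)
  simp only [one_pow, zero_mul, neg_zero, mul_one] at h3
  refine h3.trans (le_of_eq (sum_congr rfl fun u _ => sum_congr rfl fun w _ => ?_))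
  ring

end Pool.Agent.HLow
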