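import Pool.Agent.HLow.Targets

set_option autoImplicit false

namespace Pool.Agent.HLow

open Finset
open scoped RealInnerProductSpace

lemma ONB_inner {V : Type} [Fintype V] (x y : EuclideanSpace ℝ V) :
    ⟪x, y⟫ = ∑ u, x u * y u := by
  rw [PiLp.inner_apply]
  refine Finset.sum_congr rfl fun u _ => ?_
  exact mul_comm _ _

lemma ONB_norm {V : Type} [Fintype V] (x : EuclideanSpace ℝ V) :
    ‖x‖ ^ 2 = ∑ u, x u ^ 2 := by
  rw [EuclideanSpace.real_norm_sq_eq]

theorem p_ONB : T_ONB := by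
  intro V _ _ ι _ g
  let G : ι → EuclideanSpace ℝ V := fun i => WithLp.toLp 2 (g i)
  let W : Submodule ℝ (EuclideanSpace ℝ V) := Submodule.span ℝ (Set.range G)
  let b := stdOrthonormalBasis ℝ W
  have hr : Module.finrank ℝ W ≤ Fintype.card ι := finrank_range_le_card G
  have hb : Orthonormal ℝ (fun k => (b k : EuclideanSpace ℝ V)) :=
    b.orthonormal.comp_linearIsometry W.subtypeₗᵢ
  refine ⟨Module.finrank ℝ W, fun k u => (b k : EuclideanSpace ℝ V) u, hr, ?_, ?_, ?_⟩
  · intro k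
    rw [← ONB_norm, hb.1 k, one_pow]
  · intro i
    have hi : G i ∈ W := Submodule.subset_span ⟨i, rfl⟩
    have h1 := b.sum_sq_norm_inner_right ⟨G i, hi⟩
    have h2 : ‖(⟨G i, hi⟩ : W)‖ ^ 2 = ∑ u, g i u ^ 2 := ONB_norm (G i)
    rw [h2] at h1
    rw [← h1]
    refine Finset.sum_congr rfl fun k _ => ?_
    rw [Real.norm_eq_abs, sq_abs]
    exact congrArg (fun z : ℝ => z ^ 2) (ONB_inner (b k : EuclideanSpace ℝ V) (G i)).symm
  · intro x
    have h1 := hb.sum_inner_products_le (x := (WithLp.toLp 2 x : EuclideanSpace ℝ V))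
      (s := (Finset.univ : Finset (Fin (Module.finrank ℝ W))))
    have h2 : ‖(WithLp.toLp 2 x : EuclideanSpace ℝ V)‖ ^ 2 = ∑ u, x u ^ 2 := ONB_norm _
    rw [h2] at h1
    refine le_trans (le_of_eq ?_) h1
    refine Finset.sum_congr rfl fun k _ => ?_
    rw [Real.norm_eq_abs, sq_abs]
    exact congrArg (fun z : ℝ => z ^ 2)
      (ONB_inner (b k : EuclideanSpace ℝ V) (WithLp.toLp 2 x)).symm

end Pool.Agent.HLow
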