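import Mathlib
import Pool.Agent.HLow.Targets
import Pool.Agent.Dicut.Orders

set_option autoImplicit false

namespace Pool.Agent.HLow

open Finset

/-- `h` has a larger order than `hMulti` and `hWeighted` -/
theorem sep (h : T_MAIN) : ∃ c δ : ℝ, 0 < c ∧ 0 < δ ∧
    (∀ m : ℕ, 1 ≤ m → (m : ℝ) / 4 + c * (m : ℝ) ^ (3 / 5 + δ : ℝ) ≤ (Dicut.h m : ℝ)) ∧
    (∃ m₀ : ℕ, ∀ m : ℕ, m₀ ≤ m →
      (Dicut.hMulti m : ℝ) + c * (m : ℝ) ^ (3 / 5 + δ : ℝ) ≤ (Dicut.h m : ℝ) ∧
      Dicut.hWeighted (m : ℝ) + c * (m : ℝ) ^ (3 / 5 + δ : ℝ) ≤ (Dicut.h m : ℝ)) := by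
  obtain ⟨c, δ, hc, hδ, H⟩ := h
  obtain ⟨_, C1, _, hC1⟩ := Dicut.multi_order
  obtain ⟨_, C2, _, hC2⟩ := Dicut.weighted_order
  have hpow : ∀ x : ℝ, 0 < x → x ^ (3 / 5 + δ : ℝ) = x ^ (3 / 5 : ℝ) * x ^ δ :=
    fun x hx => Real.rpow_add hx _ _
  refine ⟨c / 2, δ, by positivity, hδ, ?_, ?_⟩
  · intro m hm
    refine le_trans ?_ (H m hm)
    have hm1 : (1 : ℝ) ≤ m := by exact_mod_cast hm
    have : 0 ≤ (m : ℝ) ^ (3 / 5 + δ : ℝ) := Real.rpow_nonneg (by linarith) _
    nlinarith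
  · -- eventually
    have ev1 : ∀ᶠ x : ℝ in Filter.atTop, C1 * Real.exp (C1 * Real.sqrt (Real.log x)) ≤ c / 2 * x ^ δ := by
      have t1 : Filter.Tendsto (fun x : ℝ => Real.sqrt (Real.log x)) Filter.atTop Filter.atTop :=
        Real.tendsto_sqrt_atTop.comp Real.tendsto_log_atTop
      have g1 : ∀ᶠ y : ℝ in Filter.atTop, |C1| * Real.exp (C1 * y) ≤ c / 2 * Real.exp (δ * y ^ 2) := by
        have g2 : Filter.Tendsto (fun y : ℝ => y * (δ * y - C1)) Filter.atTop Filter.atTop := by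
          apply Filter.Tendsto.atTop_mul_atTop₀ Filter.tendsto_id
          apply Filter.tendsto_atTop_add_const_right
          exact Filter.Tendsto.const_mul_atTop hδ Filter.tendsto_id
        filter_upwards [g2.eventually_ge_atTop (2 * |C1| / c)] with y hy
        have g3 : Real.exp (δ * y ^ 2) = Real.exp (y * (δ * y - C1)) * Real.exp (C1 * y) := by
          rw [← Real.exp_add]; congr 1; ring
        rw [g3, ← mul_assoc]
        apply mul_le_mul_of_nonneg_right _ (Real.exp_pos _).le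
        have g4 := Real.add_one_le_exp (y * (δ * y - C1))
        have g5 : 2 * |C1| / c ≤ Real.exp (y * (δ * y - C1)) := by linarith
        rw [div_le_iff₀ hc] at g5
        linarith
      filter_upwards [t1.eventually g1, Filter.eventually_ge_atTop (1 : ℝ)] with x hx hx1
      have g2 : Real.exp (δ * Real.sqrt (Real.log x) ^ 2) = x ^ δ := by
        rw [Real.sq_sqrt (Real.log_nonneg hx1), Real.rpow_def_of_pos (by linarith), mul_comm]
      rw [g2] at hx
      refine le_trans ?_ hx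
      exact mul_le_mul_of_nonneg_right (le_abs_self _) (Real.exp_pos _).le
    have ev2 : ∀ᶠ x : ℝ in Filter.atTop, C2 ≤ c / 2 * x ^ δ := by
      have h2 : Filter.Tendsto (fun x : ℝ => x ^ δ) Filter.atTop Filter.atTop :=
        tendsto_rpow_atTop hδ
      filter_upwards [h2.eventually_ge_atTop (2 * C2 / c)] with x hx
      rw [div_le_iff₀ hc] at hx
      linarith
    have ev : ∀ᶠ n : ℕ in Filter.atTop, C1 * Real.exp (C1 * Real.sqrt (Real.log (n : ℝ)))
        ≤ c / 2 * (n : ℝ) ^ δ ∧ C2 ≤ c / 2 * (n : ℝ) ^ δ :=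
      tendsto_natCast_atTop_atTop.eventually (ev1.and ev2)
    obtain ⟨m0, hm0⟩ := Filter.eventually_atTop.mp ev
    refine ⟨max m0 1, ?_⟩
    intro m hm
    have hm1 : 1 ≤ m := le_trans (le_max_right _ _) hm
    have hm1' : (1 : ℝ) ≤ m := by exact_mod_cast hm1
    have hmpos : (0 : ℝ) < m := by linarith
    obtain ⟨g1, g2⟩ := hm0 m (le_trans (le_max_left _ _) hm)
    have g3 := H m hm1
    have g4 := (hC1 m hm1).2
    have g5 := (hC2 m hm1').2
    have g6 : 0 < (m : ℝ) ^ (3 / 5 : ℝ) := Real.rpow_pos_of_pos hmpos _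
    rw [hpow _ hmpos] at g3 ⊢
    constructor
    · have g7 := mul_le_mul_of_nonneg_left g1 g6.le
      nlinarith
    · have g7 := mul_le_mul_of_nonneg_left g2 g6.le
      nlinarith

end Pool.Agent.HLow
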